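import Mathlib
import Pool.Agent.H667R2.FG.Defs
import Pool.Agent.H667R2.FG.OpDefs
import Pool.Agent.H667R2.FG.Herm
import Pool.Agent.H667R2.FG.TL2

/-! # Generic non-generation of free group factors: definitions

Library (helper667 and team): `Mat k`, `UU k` (unitary group), `haarU`, `haarP k ι` (product Haar
measure on `ι → UU k`), `ntr`, `hs` (normalised trace and Hilbert-Schmidt norm), `lt U i b`
(`U_i` if `b = true`, `U_i⁻¹` if `b = false`), `wd U w` (value of a word), `pol U f` (value of a
finite combination of words `f : FreeGroup ι →₀ ℂ`), `herm S` (Hermitian matrix with real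
coordinates `S`), `Ell G` (`ℓ²(G)`), `lam`, `delta`. -/

namespace Pool.Agent.H755R2.NG

open MeasureTheory Matrix Filter Pool.Agent.H667R2.FG
open scoped Matrix.Norms.L2Operator ComplexConjugate ENNReal

/-- real coordinates of a Hermitian `k × k` matrix -/
abbrev Vc (k : ℕ) : Type := Fin k × Fin k → ℝ

/-- sum of squares of the coordinates -/
def sq {k : ℕ} (S : Vc k) : ℝ := ∑ p, S p ^ 2

/-- `co X` are the coordinates of the Hermitian matrix `X`: `herm (co X) = X`. -/
noncomputable def co {k : ℕ} (X : Mat k) : Vc k := fun p => (X p.1 p.2).re + (X p.1 p.2).im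

/-- the Cayley transform `(1 + iH)(1 - iH)⁻¹ = 2 (1 - iH)⁻¹ - 1`. -/
noncomputable def cayM {k : ℕ} (H : Mat k) : Mat k := (2 : ℂ) • (1 - Complex.I • H)⁻¹ - 1

open Classical in
/-- the Cayley transform of the Hermitian matrix with coordinates `S`, as a unitary
(the `else` branch never occurs). -/
noncomputable def cay {k : ℕ} (S : Vc k) : UU k :=
  if h : cayM (herm S) ∈ Matrix.unitaryGroup (Fin k) ℂ then ⟨cayM (herm S), h⟩ else 1

section

variable {k : ℕ} {ι : Type}

/-- the chart `A ↦ (U₀ᵢ cay(Aᵢ))ᵢ` of `U(k)^ι` around `U₀`. -/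
noncomputable def chart (U₀ : ι → UU k) (A : ι → Vc k) : ι → UU k := fun i => U₀ i * cay (A i)

/-- the derivative of the letter `U_i^{±1}` in the direction `h` (`U_i ↦ U_i (1 + ε h_i)`). -/
noncomputable def dlt (U : ι → UU k) (h : ι → Mat k) (i : ι) (b : Bool) : Mat k :=
  if b then (U i : Mat k) * h i else -(h i * (((U i)⁻¹ : UU k) : Mat k))

/-- the product of a list of letters -/
noncomputable def pL (U : ι → UU k) (w : List (ι × Bool)) : Mat k :=
  (w.map fun p => lt U p.1 p.2).prod

/-- the derivative of a product of letters in the direction `h` (`U_i ↦ U_i (1 + ε h_i)`). -/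
noncomputable def dL (U : ι → UU k) (h : ι → Mat k) : List (ι × Bool) → Mat k
  | [] => 0
  | s :: w => dlt U h s.1 s.2 * pL U w + lt U s.1 s.2 * dL U h w

/-- the derivative of `pol U f` in the direction `h`. -/
noncomputable def dF [DecidableEq ι] (U : ι → UU k) (h : ι → Mat k) (f : FreeGroup ι →₀ ℂ) :
    Mat k :=
  f.sum fun w c => c • dL U h w.toWord

theorem dL_add (U : ι → UU k) (h h' : ι → Mat k) (w : List (ι × Bool)) :
    dL U (h + h') w = dL U h w + dL U h' w := by
  induction w with
  | nil => simp [dL]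
  | cons s w ih =>
    have e : dlt U (h + h') s.1 s.2 = dlt U h s.1 s.2 + dlt U h' s.1 s.2 := by
      unfold dlt
      split_ifs
      · simp [mul_add]
      · simp [add_mul]; abel
    simp only [dL, ih, e, mul_add, add_mul]; abel

theorem dL_smul (U : ι → UU k) (c : ℂ) (h : ι → Mat k) (w : List (ι × Bool)) :
    dL U (c • h) w = c • dL U h w := by
  induction w with
  | nil => simp [dL]
  | cons s w ih =>
    have e : dlt U (c • h) s.1 s.2 = c • dlt U h s.1 s.2 := by
      unfold dlt
      split_ifs
      · simp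
      · simp
    simp only [dL, ih, e, smul_add, smul_mul_assoc, mul_smul_comm]

variable [DecidableEq ι]

/-- the derivative of `U ↦ (pol U (F i))_i` at `U`, a linear endomorphism of `M_k(ℂ)^ι`. -/
noncomputable def DD (U : ι → UU k) (F : ι → FreeGroup ι →₀ ℂ) : (ι → Mat k) →ₗ[ℂ] (ι → Mat k) where
  toFun h := fun i => dF U h (F i)
  map_add' h h' := by
    funext i
    simp only [dF, dL_add, smul_add, Pi.add_apply]
    exact Finsupp.sum_add
  map_smul' c h := by
    funext i
    simp only [dF, dL_smul, Pi.smul_apply, RingHom.id_apply, Finsupp.smul_sum]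
    refine Finsupp.sum_congr fun w _ => ?_
    rw [smul_comm]

/-- the Jacobian of `U ↦ (pol U (F i))_i`. -/
noncomputable def Jd (U : ι → UU k) (F : ι → FreeGroup ι →₀ ℂ) : ℂ := LinearMap.det (DD U F)

/-- `b_i = u_i + u_i⁻¹` -/
noncomputable def bb (i : ι) : FreeGroup ι →₀ ℂ :=
  Finsupp.single (FreeGroup.of i) 1 + Finsupp.single (FreeGroup.of i)⁻¹ 1

/-- the map `A ↦ (pol (chart U₀ A) (F i))_i` in coordinates. -/
noncomputable def Psi (U₀ : ι → UU k) (F : ι → FreeGroup ι →₀ ℂ) (A : ι → Vc k) : ι → Vc k :=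
  fun i => co (pol (chart U₀ A) (F i))

/-- self-adjoint finite combinations of words -/
def SA (f : FreeGroup ι →₀ ℂ) : Prop := ∀ g, f g⁻¹ = conj (f g)

/-- the canonical unitaries of `L(F_ι)` -/
noncomputable def lamU (ι : Type) (i : ι) :
    unitary (Ell (FreeGroup ι) →L[ℂ] Ell (FreeGroup ι)) :=
  ⟨lam (FreeGroup.of i), lam_unitary _⟩

end

/-- the scalar unitary `e^{iφ}` -/
noncomputable def ph (k : ℕ) (φ : ℝ) : UU k :=
  ⟨Complex.exp (φ * Complex.I) • (1 : Mat k), by
    rw [Matrix.mem_unitaryGroup_iff, star_smul, star_one, smul_mul_smul_comm, mul_one]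
    have : Complex.exp (φ * Complex.I) * star (Complex.exp (φ * Complex.I)) = 1 := by
      rw [Complex.star_def, Complex.mul_conj, Complex.normSq_eq_norm_sq, Complex.norm_exp_ofReal_mul_I]
      simp
    rw [this, one_smul]⟩

/-- value of a list of letters at arbitrary matrices -/
noncomputable def pM {k : ℕ} {ι : Type} (x : ι × Bool → Mat k) (w : List (ι × Bool)) : Mat k :=
  (w.map x).prod

/-- derivative of `pM x w` in the direction `y` -/
noncomputable def dM {k : ℕ} {ι : Type} (x y : ι × Bool → Mat k) : List (ι × Bool) → Mat k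
  | [] => 0
  | s :: w => y s * pM x w + x s * dM x y w

/-- the linear map `K ↦ (2i (1 + iH_j)⁻¹ K_j (1 - iH_j)⁻¹)_j`, `H_j = herm (A_j)`. -/
noncomputable def MM {k : ℕ} {ι : Type} (A : ι → Vc k) : (ι → Mat k) →ₗ[ℂ] (ι → Mat k) where
  toFun K := fun i => (2 * Complex.I) • ((1 + Complex.I • herm (A i))⁻¹ * K i *
    (1 - Complex.I • herm (A i))⁻¹)
  map_add' K K' := by
    funext i
    simp [mul_add, add_mul]
  map_smul' c K := by
    funext i
    simp [smul_comm c]

end Pool.Agent.H755R2.NG
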