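import Mathlib
import Pool.Agent.H755R2.NG.Defs

/-! # Generic non-generation of free group factors: statements of the tasks (as propositions) -/

namespace Pool.Agent.H755R2.NG

open MeasureTheory Matrix Filter Pool.Agent.H667R2.FG
open scoped Matrix.Norms.L2Operator ComplexConjugate ENNReal Topology

/-! ### polynomials: negative moments -/

/-- N -/
def S_N : Prop := ∀ (Ω : Type) [MeasurableSpace Ω] (ν : Measure Ω) (ζ : Ω → ℂ), Measurable ζ →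
  ∀ (α : ℝ), 0 < α → ∀ K : ℝ≥0∞, K ≠ 0 → (∀ w : ℂ, ∫⁻ x, ‖ζ x - w‖ₑ ^ (-α) ∂ν ≤ K) →
  ∀ (D : ℕ), 0 < D → ∀ p : Polynomial ℂ, p.natDegree ≤ D →
    ∫⁻ x, ‖p.eval (ζ x)‖ₑ ^ (-(α / D)) ∂ν ≤ K * ‖p.coeff D‖ₑ ^ (-(α / D))

/-- CIRC -/
def S_CIRC : Prop := ∀ α : ℝ, 0 < α → α ≤ 1 / 2 → ∃ K : ℝ≥0∞, K ≠ 0 ∧ K ≠ ⊤ ∧ ∀ w : ℂ,
  ∫⁻ φ in Set.Icc (1 / 2 : ℝ) 2, ‖Complex.exp (φ * Complex.I) - w‖ₑ ^ (-α) ≤ K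

/-- DETP -/
def S_DETP : Prop := ∀ (V : Type) [AddCommGroup V] [Module ℂ V] [FiniteDimensional ℂ V]
  (A B : V →ₗ[ℂ] V), ∃ p : Polynomial ℂ, p.natDegree ≤ Module.finrank ℂ V ∧
    p.coeff (Module.finrank ℂ V) = LinearMap.det A ∧
    ∀ t : ℂ, p.eval t = LinearMap.det (t • A + B)

/-- ROT1 -/
def S_ROT1 : Prop := ∀ (ι : Type) [Fintype ι] [DecidableEq ι] (k : ℕ), 0 < k →
  ∀ U : ι → UU k, ∃ p : Polynomial ℂ, p.natDegree ≤ Fintype.card ι * k ^ 2 ∧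
    ‖p.coeff (Fintype.card ι * k ^ 2)‖ = 1 ∧
    ∀ φ : ℝ, ‖Jd (fun i => ph k (φ / 2) * U i) bb‖ = ‖p.eval (Complex.exp (φ * Complex.I))‖

/-- CONT -/
def S_CONT : Prop := ∀ (ι : Type) [Fintype ι] [DecidableEq ι] (k : ℕ)
  (f : ι → FreeGroup ι →₀ ℂ),
  Continuous fun p : ℝ × (ι → UU k) => Jd p.2 (fun i => f i + (p.1 : ℂ) • bb i)

/-- ROT2 -/
def S_ROT2 : Prop := ∀ (ι : Type) [Fintype ι] [DecidableEq ι] [Nonempty ι] (α : ℝ), 0 < α →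
  α ≤ 1 / 2 → ∃ K : ℝ≥0∞, K ≠ ⊤ ∧ ∀ k : ℕ, 0 < k →
    ∫⁻ U, ‖Jd U bb‖ₑ ^ (-(α / (Fintype.card ι * k ^ 2 : ℕ))) ∂(haarP k ι) ≤ K

/-- A1 -/
def S_A1 : Prop := ∀ (ι : Type) [Fintype ι] [DecidableEq ι] [Nonempty ι]
  (f : ι → FreeGroup ι →₀ ℂ) (α : ℝ), 0 < α → α ≤ 1 / 2 → ∀ (ν : Measure ℝ) [IsFiniteMeasure ν]
  (K : ℝ≥0∞), K ≠ ⊤ → (∀ w : ℝ, ∫⁻ t, ‖t - w‖ₑ ^ (-α) ∂ν ≤ K) → ∃ K' : ℝ≥0∞, K' ≠ ⊤ ∧
    ∀ k : ℕ, 0 < k → ∫⁻ t : ℝ, ∫⁻ U, ‖Jd U (fun i => f i + (t : ℂ) • bb i)‖ₑ ^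
      (-(α / (Fintype.card ι * k ^ 2 : ℕ))) ∂(haarP k ι) ∂ν ≤ K'

/-- A2 -/
def S_A2 : Prop := ∀ (ι : Type) [Fintype ι] [DecidableEq ι] [Nonempty ι]
  (f : ι → FreeGroup ι →₀ ℂ) (α : ℝ), 0 < α → α ≤ 1 / 2 → ∀ (ν : Measure ℝ) [IsFiniteMeasure ν]
  (K : ℝ≥0∞), K ≠ ⊤ → (∀ w : ℝ, ∫⁻ t, ‖t - w‖ₑ ^ (-α) ∂ν ≤ K) → ∀ᵐ t : ℝ ∂ν, ∃ L : ℝ, 0 ≤ L ∧
    ∃ᶠ k : ℕ in atTop, ENNReal.ofReal (3 / 4) ≤ haarP k ι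
      {U | Real.exp (-(L * k ^ 2)) ≤ ‖Jd U (fun i => f i + (t : ℂ) • bb i)‖}

/-! ### the chart -/

/-- CAY -/
def S_CAY : Prop := ∀ (k : ℕ) (S : Vc k), cayM (herm S) ∈ Matrix.unitaryGroup (Fin k) ℂ ∧
  IsUnit (1 - Complex.I • herm S) ∧ IsUnit (1 + Complex.I • herm S)

/-- CIN -/
def S_CIN : Prop := ∀ k : ℕ, Function.Injective (cay : Vc k → UU k) ∧ Continuous (cay : Vc k → UU k)

/-- CO -/
def S_CO : Prop := ∀ (k : ℕ), (∀ S : Vc k, (herm S)ᴴ = herm S ∧ co (herm S) = S) ∧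
  (∀ X : Mat k, Xᴴ = X → herm (co X) = X ∧ sq (co X) = k * hs X ^ 2)

/-- HM -/
def S_HM : Prop := ∀ (ι : Type) (k : ℕ) (U : ι → UU k) (f : FreeGroup ι →₀ ℂ), SA f →
  (pol U f : Mat k)ᴴ = pol U f

/-- AVG -/
def S_AVG : Prop := ∀ (ι : Type) [Fintype ι] (k : ℕ) (G : Set (ι → UU k)), MeasurableSet G →
  ∀ B : Set (ι → Vc k), MeasurableSet B → volume B ≠ ⊤ →
    ∃ U₀ : ι → UU k, haarP k ι G * volume B ≤ volume {A ∈ B | chart U₀ A ∈ G}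

/-- DER1 -/
def S_DER1 : Prop := ∀ (ι : Type) [Fintype ι] [DecidableEq ι] (k : ℕ) (U₀ : ι → UU k)
  (F : ι → FreeGroup ι →₀ ℂ) (A : ι → Vc k),
  ∃ G' : (ι → Vc k) →L[ℝ] (ι → Mat k),
    HasFDerivAt (fun A' : ι → Vc k => (fun i => (pol (chart U₀ A') (F i) : Mat k))) G' A ∧
    ∀ x : ι → Vc k, G' x = DD (chart U₀ A) F (MM A (fun i => herm (x i)))

/-- DER2 -/
def S_DER2 : Prop := ∀ (ι : Type) [Fintype ι] [DecidableEq ι] (k : ℕ)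
  (T : (ι → Mat k) →ₗ[ℂ] (ι → Mat k)) (R : (ι → Vc k) →ₗ[ℝ] (ι → Vc k)),
  (∀ x : ι → Vc k, T (fun i => herm (x i)) = fun i => herm (R x i)) →
  LinearMap.det T = ((LinearMap.det R : ℝ) : ℂ)

/-- DER3 -/
def S_DER3 : Prop := ∀ (ι : Type) [Fintype ι] [DecidableEq ι] (k : ℕ) (A : ι → Vc k),
  (∀ i, sq (A i) ≤ k) → 1 ≤ ‖LinearMap.det (MM A)‖

/-- DER -/
def S_DER : Prop := ∀ (ι : Type) [Fintype ι] [DecidableEq ι] (k : ℕ) (U₀ : ι → UU k)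
  (F : ι → FreeGroup ι →₀ ℂ), (∀ i, SA (F i)) → ∀ (A : ι → Vc k),
  ∃ P' : (ι → Vc k) →L[ℝ] (ι → Vc k), HasFDerivAt (Psi U₀ F) P' A ∧
    ((∀ i, sq (A i) ≤ k) → ‖Jd (chart U₀ A) F‖ ≤ |P'.det|)

/-! ### area formula and volumes -/

/-- AREA -/
def S_AREA : Prop := ∀ (E : Type) [NormedAddCommGroup E] [NormedSpace ℝ E] [FiniteDimensional ℝ E]
  [MeasurableSpace E] [BorelSpace E] (μ : Measure E) [μ.IsAddHaarMeasure]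
  (P : E → E) (P' : E → E →L[ℝ] E) (s : Set E), MeasurableSet s →
  (∀ x ∈ s, HasFDerivAt P (P' x) x) → ∀ c : ℝ, 0 < c → (∀ x ∈ s, c ≤ |(P' x).det|) →
  ∀ M : ℕ, (∀ (z : E) (T : Finset E), (∀ x ∈ T, x ∈ s ∧ P x = z) → T.card ≤ M) →
  ∀ Y : Set E, MeasurableSet Y → P '' s ⊆ Y → ENNReal.ofReal c * μ s ≤ M * μ Y

/-- IMG -/
def S_IMG : Prop := ∀ (d e k : ℕ) (Y : Set (Fin d ⊕ Fin e → Vc k)), MeasurableSet Y →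
  ∀ R r : ℝ, 0 ≤ R → 0 ≤ r → (∀ z ∈ Y, ∀ i, sq (z i) ≤ R ^ 2) →
  (∀ z ∈ Y, ∀ z' ∈ Y, (∀ j, z (Sum.inl j) = z' (Sum.inl j)) →
    ∀ i, sq (z (Sum.inr i) - z' (Sum.inr i)) ≤ r ^ 2) →
  volume Y ≤ (volume {x : Vc k | sq x ≤ R ^ 2}) ^ d * (volume {x : Vc k | sq x ≤ r ^ 2}) ^ e

/-- VOL -/
def S_VOL : Prop := ∀ (k : ℕ), (∀ R : ℝ, 0 < R →
    volume {x : Vc k | sq x ≤ R ^ 2} = ENNReal.ofReal (R ^ (k ^ 2)) * volume {x : Vc k | sq x ≤ 1}) ∧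
  volume {x : Vc k | sq x ≤ 1} ≠ 0 ∧ volume {x : Vc k | sq x ≤ 1} ≠ ⊤ ∧
  IsCompact {x : Vc k | sq x ≤ 1}

/-! ### Bezout -/

/-- BZ1: interpolation -/
def S_BZ1 : Prop := ∀ (σ : Type) [Fintype σ] (S : Finset (σ → ℂ)),
  ∃ g : (σ → ℂ) → MvPolynomial σ ℂ, ∀ p ∈ S,
    MvPolynomial.eval p (g p) = 1 ∧ ∀ p' ∈ S, p' ≠ p → MvPolynomial.eval p' (g p) = 0

/-- BZ2: linear independence -/
def S_BZ2 : Prop := ∀ (σ : Type) [Fintype σ] (f : σ → MvPolynomial σ ℂ) (S : Finset (σ → ℂ))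
  (g : (σ → ℂ) → MvPolynomial σ ℂ),
  (∀ p ∈ S, ∀ i, MvPolynomial.eval p (f i) = 0) →
  (∀ p ∈ S, ∀ v : σ → ℂ, (∀ i, ∑ j, v j * MvPolynomial.eval p (MvPolynomial.pderiv j (f i)) = 0) →
    v = 0) →
  (∀ p ∈ S, MvPolynomial.eval p (g p) = 1 ∧ ∀ p' ∈ S, p' ≠ p → MvPolynomial.eval p' (g p) = 0) →
  LinearIndependent ℂ (fun x : S × (σ →₀ ℕ) => g x.1 * ∏ i, f i ^ (x.2 i))

/-- BZ3: count of monomials -/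
def S_BZ3 : Prop := ∀ (σ : Type) [Fintype σ] (q c L M : ℕ) (T : Type) [Fintype T]
  (h : T × (σ →₀ ℕ) → MvPolynomial σ ℂ), LinearIndependent ℂ h → Fintype.card T = M →
  (∀ x, (h x).totalDegree ≤ q * x.2.degree + c) →
  M * (L + Fintype.card σ).choose (Fintype.card σ) ≤
    (q * L + c + Fintype.card σ).choose (Fintype.card σ)

/-- BZ4: asymptotics -/
def S_BZ4 : Prop := ∀ (m q c M : ℕ), 0 < q →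
  (∀ L : ℕ, M * (L + m).choose m ≤ (q * L + c + m).choose m) → M ≤ q ^ m

/-- BEZ: number of nondegenerate zeros -/
def S_BEZ : Prop := ∀ (σ : Type) [Fintype σ] (q : ℕ), 0 < q → ∀ (f : σ → MvPolynomial σ ℂ),
  (∀ i, (f i).totalDegree ≤ q) → ∀ (S : Finset (σ → ℂ)),
  (∀ p ∈ S, ∀ i, MvPolynomial.eval p (f i) = 0) →
  (∀ p ∈ S, ∀ v : σ → ℂ, (∀ i, ∑ j, v j * MvPolynomial.eval p (MvPolynomial.pderiv j (f i)) = 0) →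
    v = 0) →
  S.card ≤ q ^ Fintype.card σ

/-- MU1: words as polynomials in the entries -/
def S_MU1 : Prop := ∀ (ι : Type) [Fintype ι] [DecidableEq ι] (k : ℕ) (w : List (ι × Bool))
  (a b : Fin k), ∃ P : MvPolynomial ((ι × Bool) × Fin k × Fin k) ℂ, P.totalDegree ≤ w.length ∧
    (∀ x : ι × Bool → Mat k, MvPolynomial.eval (fun v => x v.1 v.2.1 v.2.2) P = pM x w a b) ∧
    (∀ x y : ι × Bool → Mat k, ∑ v, y v.1 v.2.1 v.2.2 *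
      MvPolynomial.eval (fun v => x v.1 v.2.1 v.2.2) (MvPolynomial.pderiv v P) = dM x y w a b)

/-- MU2: multiplicity of the map -/
def S_MU2 : Prop := ∀ (ι : Type) [Fintype ι] [DecidableEq ι] (F : ι → FreeGroup ι →₀ ℂ),
  ∃ q : ℕ, ∀ (k : ℕ) (z : ι → Mat k) (T : Finset (ι → UU k)),
    (∀ U ∈ T, (∀ i, (pol U (F i) : Mat k) = z i) ∧ Jd U F ≠ 0) → T.card ≤ q ^ (k ^ 2)

/-! ### microstates and operators -/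

/-- LIP -/
def S_LIP : Prop := ∀ (ι : Type) [Fintype ι] [DecidableEq ι] (f : FreeGroup ι →₀ ℂ),
  ∃ C : ℝ, 0 ≤ C ∧ ∀ (k : ℕ) (U U' : ι → UU k) (r : ℝ), 0 ≤ r →
    (∀ i, hs ((U i : Mat k) - (U' i : Mat k)) ≤ r) →
    hs ((pol U f : Mat k) - pol U' f) ≤ C * r

/-- MIC -/
def S_MIC : Prop := ∀ (ι : Type) [Fintype ι] [DecidableEq ι] (a : FreeGroup ι →₀ ℂ),
  Tendsto (fun k : ℕ => ∫ U, hs (pol U a : Mat k) ^ 2 ∂(haarP k ι)) atTop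
    (𝓝 (∑ g ∈ a.support, ‖a g‖ ^ 2))

/-- REP -/
def S_REP : Prop := ∀ (ι : Type) (d : ℕ) (F : Fin d → FreeGroup ι →₀ ℂ) (i : ι)
  (Q : FreeAlgebra ℂ (Fin d)), ∃ a : FreeGroup ι →₀ ℂ,
  ∀ (A : Type) [Ring A] [StarRing A] [Algebra ℂ A] (V : ι → unitary A),
    pol V a = (V i : A) - FreeAlgebra.lift ℂ (fun j => pol V (F j)) Q

/-- NRM -/
def S_NRM : Prop := ∀ (ι : Type) (a : FreeGroup ι →₀ ℂ),
  ‖(pol (lamU ι) a : Ell (FreeGroup ι) →L[ℂ] Ell (FreeGroup ι)) (delta 1)‖ ^ 2 =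
    ∑ g ∈ a.support, ‖a g‖ ^ 2

/-- VN -/
def S_VN : Prop := ∀ (ι : Type) (d : ℕ) (F : Fin d → FreeGroup ι →₀ ℂ), (∀ j, SA (F j)) →
  (∀ i : ι, (lam (FreeGroup.of i) : Ell (FreeGroup ι) →L[ℂ] Ell (FreeGroup ι)) ∈
    Set.centralizer (Set.centralizer (Set.range fun j =>
      (pol (lamU ι) (F j) : Ell (FreeGroup ι) →L[ℂ] Ell (FreeGroup ι))))) →
  ∀ (i : ι) (ρ : ℝ), 0 < ρ → ∃ Q : FreeAlgebra ℂ (Fin d),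
    ‖((lam (FreeGroup.of i) : Ell (FreeGroup ι) →L[ℂ] Ell (FreeGroup ι)) -
      FreeAlgebra.lift ℂ (fun j => (pol (lamU ι) (F j) :
        Ell (FreeGroup ι) →L[ℂ] Ell (FreeGroup ι))) Q) (delta 1)‖ ≤ ρ

/-- C1: the volume inequality -/
def S_C1 : Prop := ∀ (d e : ℕ) (F : Fin d ⊕ Fin e → FreeGroup (Fin d ⊕ Fin e) →₀ ℂ),
  (∀ i, SA (F i)) → ∃ C : ℝ, 1 ≤ C ∧ ∀ k : ℕ, 0 < k → ∀ G : Set (Fin d ⊕ Fin e → UU k),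
    IsClosed G → ∀ c r : ℝ, 0 < c → 0 < r → (∀ U ∈ G, c ≤ ‖Jd U F‖) →
    (∀ U ∈ G, ∀ U' ∈ G, (∀ j, (pol U (F (Sum.inl j)) : Mat k) = pol U' (F (Sum.inl j))) →
      ∀ i, hs ((U i : Mat k) - (U' i : Mat k)) ≤ r) →
    haarP k (Fin d ⊕ Fin e) G * ENNReal.ofReal c ≤ ENNReal.ofReal ((C * r ^ e) ^ (k ^ 2))

/-- C2: microstates -/
def S_C2 : Prop := ∀ (ι : Type) [Fintype ι] [DecidableEq ι] (d : ℕ)
  (F : Fin d → FreeGroup ι →₀ ℂ), (∀ j, SA (F j)) →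
  (∀ i : ι, (lam (FreeGroup.of i) : Ell (FreeGroup ι) →L[ℂ] Ell (FreeGroup ι)) ∈
    Set.centralizer (Set.centralizer (Set.range fun j =>
      (pol (lamU ι) (F j) : Ell (FreeGroup ι) →L[ℂ] Ell (FreeGroup ι))))) →
  ∀ r : ℝ, 0 < r → ∀ᶠ k : ℕ in atTop, ∃ G : Set (ι → UU k), IsClosed G ∧
    ENNReal.ofReal (7 / 8) ≤ haarP k ι G ∧
    ∀ U ∈ G, ∀ U' ∈ G, (∀ j, (pol U (F j) : Mat k) = pol U' (F j)) →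
      ∀ i, hs ((U i : Mat k) - (U' i : Mat k)) ≤ r

/-- CORE -/
def S_CORE : Prop := ∀ (d e : ℕ), 0 < e → ∀ (F : Fin d ⊕ Fin e → FreeGroup (Fin d ⊕ Fin e) →₀ ℂ),
  (∀ i, SA (F i)) → ∀ L : ℝ, 0 ≤ L →
  (∃ᶠ k : ℕ in atTop, ENNReal.ofReal (3 / 4) ≤ haarP k (Fin d ⊕ Fin e)
      {U | Real.exp (-(L * k ^ 2)) ≤ ‖Jd U F‖}) →
  ∃ i : Fin d ⊕ Fin e, (lam (FreeGroup.of i) : Ell (FreeGroup (Fin d ⊕ Fin e)) →L[ℂ]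
      Ell (FreeGroup (Fin d ⊕ Fin e))) ∉
    Set.centralizer (Set.centralizer (Set.range fun j : Fin d =>
      (pol (lamU (Fin d ⊕ Fin e)) (F (Sum.inl j)) : Ell (FreeGroup (Fin d ⊕ Fin e)) →L[ℂ]
        Ell (FreeGroup (Fin d ⊕ Fin e)))))

end Pool.Agent.H755R2.NG
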