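import Mathlib
import Pool.Agent.H755R2.NG.Stubs
import Pool.Agent.H667R2.FG.Abs

namespace Pool.Agent.H755R2.NG

open MeasureTheory Matrix Filter Pool.Agent.H667R2.FG
open scoped Matrix.Norms.L2Operator ComplexConjugate ENNReal Topology

theorem SA_bb {ι : Type} (i : ι) : SA (bb i) := by
  classical
  intro g
  simp only [bb, Finsupp.add_apply, Finsupp.single_apply, map_add]
  have e1 : (FreeGroup.of i = g⁻¹) ↔ ((FreeGroup.of i)⁻¹ = g) := by
    constructor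
    · intro h; rw [h, inv_inv]
    · intro h; rw [← h, inv_inv]
  have e2 : ((FreeGroup.of i)⁻¹ = g⁻¹) ↔ (FreeGroup.of i = g) := inv_inj
  simp only [e1, e2]
  split_ifs <;> simp

theorem SA_add {ι : Type} {f g : FreeGroup ι →₀ ℂ} (hf : SA f) (hg : SA g) : SA (f + g) := by
  intro x
  simp only [Finsupp.add_apply, map_add, hf x, hg x]

theorem SA_smul {ι : Type} {f : FreeGroup ι →₀ ℂ} (hf : SA f) (t : ℝ) : SA ((t : ℂ) • f) := by
  intro x
  simp only [Finsupp.smul_apply, smul_eq_mul, map_mul, hf x, Complex.conj_ofReal]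

theorem SA_zero {ι : Type} : SA (0 : FreeGroup ι →₀ ℂ) := by
  intro x; simp

theorem pot_half (α : ℝ) (hα : 0 < α) (ν : Measure ℝ) [IsFiniteMeasure ν] (K : ℝ≥0∞) (hK : K ≠ ⊤)
    (hν : ∀ w : ℝ, ∫⁻ t, ‖t - w‖ₑ ^ (-α) ∂ν ≤ K) :
    ∃ β : ℝ, 0 < β ∧ β ≤ 1 / 2 ∧ ∃ K' : ℝ≥0∞, K' ≠ ⊤ ∧ ∀ w : ℝ, ∫⁻ t, ‖t - w‖ₑ ^ (-β) ∂ν ≤ K' := by
  by_cases h : α ≤ 1 / 2
  · exact ⟨α, hα, h, K, hK, hν⟩
  · push Not at h
    refine ⟨1 / 2, by norm_num, le_rfl, ν Set.univ + K, ?_, fun w => ?_⟩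
    · exact ENNReal.add_ne_top.2 ⟨measure_ne_top ν _, hK⟩
    · calc ∫⁻ t, ‖t - w‖ₑ ^ (-(1 / 2) : ℝ) ∂ν ≤ ∫⁻ t, (1 + ‖t - w‖ₑ ^ (-α)) ∂ν := by
            refine lintegral_mono fun t => ?_
            by_cases ht : ‖t - w‖ₑ ≤ 1
            · refine le_trans ?_ (le_add_self)
              exact ENNReal.rpow_le_rpow_of_exponent_ge ht (by linarith)
            · push Not at ht
              refine le_trans ?_ (le_self_add)
              rw [ENNReal.rpow_neg]
              apply ENNReal.inv_le_one.2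
              exact ENNReal.one_le_rpow ht.le (by norm_num)
        _ = ν Set.univ + ∫⁻ t, ‖t - w‖ₑ ^ (-α) ∂ν := by
            rw [lintegral_add_left measurable_const]; simp
        _ ≤ ν Set.univ + K := by gcongr; exact hν w

/-- the theorem on the concrete space `ℓ²`. -/
theorem conc (hA : S_A2) (hC : S_CORE) (d e : ℕ) (he : 0 < e)
    (f : Fin d → FreeGroup (Fin d ⊕ Fin e) →₀ ℂ) (hf : ∀ j, SA (f j))
    (α : ℝ) (hα : 0 < α) (ν : Measure ℝ) [IsFiniteMeasure ν] (K : ℝ≥0∞) (hK : K ≠ ⊤)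
    (hν : ∀ w : ℝ, ∫⁻ t, ‖t - w‖ₑ ^ (-α) ∂ν ≤ K) :
    ∀ᵐ t : ℝ ∂ν, ∃ i : Fin d ⊕ Fin e, (lam (FreeGroup.of i) : Op (FreeGroup (Fin d ⊕ Fin e))) ∉
      Set.centralizer (Set.centralizer (Set.range fun j : Fin d =>
        (pol (lamU (Fin d ⊕ Fin e)) (f j + (t : ℂ) • bb (Sum.inl j)) :
          Op (FreeGroup (Fin d ⊕ Fin e))))) := by
  obtain ⟨β, hβ, hβ2, K', hK', hν'⟩ := pot_half α hα ν K hK hν
  haveI : Nonempty (Fin d ⊕ Fin e) := ⟨Sum.inr ⟨0, he⟩⟩
  set f' : Fin d ⊕ Fin e → FreeGroup (Fin d ⊕ Fin e) →₀ ℂ := Sum.elim f (fun _ => 0) with hf'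
  have h := hA (Fin d ⊕ Fin e) f' β hβ hβ2 ν K' hK' hν'
  refine h.mono fun t ht => ?_
  obtain ⟨L, hL, hfr⟩ := ht
  refine hC d e he (fun i => f' i + (t : ℂ) • bb i) (fun i => ?_) L hL hfr
  refine SA_add ?_ (SA_smul (SA_bb i) t)
  rcases i with j | j
  · exact hf j
  · exact SA_zero

theorem wd_lamU {ι : Type} (w : FreeGroup ι) : (wd (lamU ι) w : Op (FreeGroup ι)) = lam w := by
  have h : (FreeGroup.lift (lamU ι) : FreeGroup ι →* unitary (Op (FreeGroup ι))) =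
      { toFun := fun g => ⟨lam g, lam_unitary g⟩
        map_one' := Subtype.ext lam_one
        map_mul' := fun g h => Subtype.ext (lam_mul g h) } := by
    ext i
    simp [lamU]
  unfold wd
  rw [h]
  rfl

theorem pol_lamU {ι : Type} (f : FreeGroup ι →₀ ℂ) :
    (pol (lamU ι) f : Op (FreeGroup ι)) = f.sum fun g c => c • lam g := by
  unfold pol
  simp only [wd_lamU]

/-- abstract Hilbert space, index type a sum. -/
theorem absS (hA : S_A2) (hC : S_CORE) (d e : ℕ) (he : 0 < e) (H : Type) [NormedAddCommGroup H]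
    [InnerProductSpace ℂ H] [CompleteSpace H]
    (δ : HilbertBasis (FreeGroup (Fin d ⊕ Fin e)) ℂ H)
    (L : FreeGroup (Fin d ⊕ Fin e) → H →L[ℂ] H) (hL : ∀ g h, L g (δ h) = δ (g * h))
    (f : Fin d → FreeGroup (Fin d ⊕ Fin e) →₀ ℂ) (hf : ∀ j, SA (f j))
    (α : ℝ) (hα : 0 < α) (ν : Measure ℝ) [IsFiniteMeasure ν] (K : ℝ≥0∞) (hK : K ≠ ⊤)
    (hν : ∀ w : ℝ, ∫⁻ t, ‖t - w‖ₑ ^ (-α) ∂ν ≤ K) :
    ∀ᵐ t : ℝ ∂ν, ∃ i : Fin d ⊕ Fin e, L (FreeGroup.of i) ∉
      Set.centralizer (Set.centralizer (Set.range fun j : Fin d =>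
        (f j).sum (fun g c => c • L g) +
          (t : ℂ) • (L (FreeGroup.of (Sum.inl j)) + L (FreeGroup.of (Sum.inl j))⁻¹))) := by
  classical
  refine (conc hA hC d e he f hf α hα ν K hK hν).mono fun t ht => ?_
  obtain ⟨i, hi⟩ := ht
  refine ⟨i, fun hmem => hi ?_⟩
  let φ : (H →L[ℂ] H) ≃* Op (FreeGroup (Fin d ⊕ Fin e)) :=
    { toFun := δ.repr.conjStarAlgEquiv
      invFun := δ.repr.conjStarAlgEquiv.symm
      left_inv := δ.repr.conjStarAlgEquiv.symm_apply_apply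
      right_inv := δ.repr.conjStarAlgEquiv.apply_symm_apply
      map_mul' := fun x y => map_mul δ.repr.conjStarAlgEquiv x y }
  have hφ : ∀ x, φ x = δ.repr.conjStarAlgEquiv x := fun x => rfl
  have h0 : φ '' (Set.range fun j : Fin d => (f j).sum (fun g c => c • L g) +
          (t : ℂ) • (L (FreeGroup.of (Sum.inl j)) + L (FreeGroup.of (Sum.inl j))⁻¹)) =
      Set.range fun j : Fin d => (pol (lamU (Fin d ⊕ Fin e)) (f j + (t : ℂ) • bb (Sum.inl j)) :
          Op (FreeGroup (Fin d ⊕ Fin e))) := by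
    rw [← Set.range_comp]
    congr 1
    funext j
    simp only [Function.comp, hφ]
    rw [pol_lamU, Finsupp.sum_add_index' (by simp) (by intros; rw [add_smul]),
      Finsupp.sum_smul_index' (by simp), map_add, map_smul, map_add, Abs.phi_lam δ L hL,
      Abs.phi_lam δ L hL]
    congr 1
    · rw [Finsupp.sum, Finsupp.sum, map_sum]
      refine Finset.sum_congr rfl fun g _ => ?_
      rw [map_smul, Abs.phi_lam δ L hL]
    · rw [bb, Finsupp.sum_add_index' (by simp) (by intros; rw [smul_add, add_smul]),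
        Finsupp.sum_single_index (by simp), Finsupp.sum_single_index (by simp)]
      simp
  have h1 := Abs.image_cent φ _ _ h0
  have h2 := (Abs.mem_cent φ _ _ h1 (L (FreeGroup.of i))).2 hmem
  rw [hφ, Abs.phi_lam δ L hL] at h2
  exact h2

/-- the theorem for the free group on `Fin n`. -/
theorem absN (hA : S_A2) (hC : S_CORE) (n k : ℕ) (hk : k < n) (H : Type) [NormedAddCommGroup H]
    [InnerProductSpace ℂ H] [CompleteSpace H] (δ : HilbertBasis (FreeGroup (Fin n)) ℂ H)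
    (L : FreeGroup (Fin n) → H →L[ℂ] H) (hL : ∀ g h, L g (δ h) = δ (g * h))
    (f : Fin k → FreeGroup (Fin n) →₀ ℂ) (hf : ∀ j g, f j g⁻¹ = conj (f j g))
    (α : ℝ) (hα : 0 < α) (ν : Measure ℝ) [IsFiniteMeasure ν] (K : ℝ≥0∞) (hK : K ≠ ⊤)
    (hν : ∀ w : ℝ, ∫⁻ t, ‖t - w‖ₑ ^ (-α) ∂ν ≤ K) :
    ∀ᵐ t : ℝ ∂ν, ∃ i : Fin n, L (FreeGroup.of i) ∉
      Set.centralizer (Set.centralizer (Set.range fun j : Fin k =>
        (f j).sum (fun g c => c • L g) + (t : ℂ) • (L (FreeGroup.of (Fin.castLE hk.le j)) +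
          L (FreeGroup.of (Fin.castLE hk.le j))⁻¹))) := by
  classical
  obtain ⟨e, he, hn⟩ : ∃ e, 0 < e ∧ n = k + e := ⟨n - k, by omega, by omega⟩
  subst hn
  let E : FreeGroup (Fin k ⊕ Fin e) ≃* FreeGroup (Fin (k + e)) :=
    FreeGroup.freeGroupCongr finSumFinEquiv
  have hE : ∀ i, E (FreeGroup.of i) = FreeGroup.of (finSumFinEquiv i) := fun i => by
    simp [E]
  have hrange : Set.range (fun g => δ (E g)) = Set.range δ := by
    ext x
    constructor
    · rintro ⟨g, rfl⟩; exact ⟨E g, rfl⟩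
    · rintro ⟨g, rfl⟩; exact ⟨E.symm g, by simp⟩
  let δ' : HilbertBasis (FreeGroup (Fin k ⊕ Fin e)) ℂ H :=
    HilbertBasis.mk (v := fun g => δ (E g)) (δ.orthonormal.comp E E.injective) (by
      rw [hrange, δ.dense_span])
  have hδ' : ∀ g, δ' g = δ (E g) := fun g => by simp [δ', HilbertBasis.coe_mk]
  have hL' : ∀ g h, (fun g => L (E g)) g (δ' h) = δ' (g * h) := fun g h => by
    simp only [hδ', hL, map_mul]
  let f' : Fin k → FreeGroup (Fin k ⊕ Fin e) →₀ ℂ := fun j => (f j).mapDomain E.symm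
  have hf'a : ∀ j g, f' j g = f j (E g) := fun j g => by
    have : g = E.symm (E g) := (E.symm_apply_apply g).symm
    conv_lhs => rw [this]
    exact Finsupp.mapDomain_apply E.symm.injective _ _
  have hf' : ∀ j, SA (f' j) := fun j g => by
    rw [hf'a, hf'a, map_inv, hf]
  refine (absS hA hC k e he H δ' (fun g => L (E g)) hL' f' hf' α hα ν K hK hν).mono fun t ht => ?_
  obtain ⟨i, hi⟩ := ht
  refine ⟨finSumFinEquiv i, fun hmem => hi ?_⟩
  have e1 : (fun j : Fin k => (f' j).sum (fun g c => c • (fun g => L (E g)) g) +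
          (t : ℂ) • ((fun g => L (E g)) (FreeGroup.of (Sum.inl j)) +
            (fun g => L (E g)) (FreeGroup.of (Sum.inl j))⁻¹)) =
      fun j : Fin k => (f j).sum (fun g c => c • L g) +
        (t : ℂ) • (L (FreeGroup.of (Fin.castLE hk.le j)) +
          L (FreeGroup.of (Fin.castLE hk.le j))⁻¹) := by
    funext j
    have e2 : (finSumFinEquiv (Sum.inl j : Fin k ⊕ Fin e)) = Fin.castLE hk.le j := by
      simp [finSumFinEquiv_apply_left]; rfl
    simp only [hE, map_inv, e2]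
    congr 1
    simp only [f']
    rw [Finsupp.sum_mapDomain_index_inj E.symm.injective]
    simp
  rw [e1]
  show L (E (FreeGroup.of i)) ∈ _
  rw [hE]
  exact hmem

end Pool.Agent.H755R2.NG
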