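import Pool.Agent.H755R2.NG.Stubs

/-! Task A1: uniform bound -/

namespace Pool.Agent.H755R2.NG

open MeasureTheory Matrix Filter Pool.Agent.H667R2.FG
open scoped Matrix.Norms.L2Operator ComplexConjugate ENNReal

theorem A1_sc (k : ℕ) : SecondCountableTopology (UU k) := by
  have h : SecondCountableTopology (Mat k) :=
    inferInstanceAs (SecondCountableTopology (Fin k → Fin k → ℂ))
  exact TopologicalSpace.Subtype.secondCountableTopology _

theorem A1_meas (hK : S_CONT) (ι : Type) [Fintype ι] [DecidableEq ι] (k : ℕ)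
    (f : ι → FreeGroup ι →₀ ℂ) (s : ℝ) :
    Measurable fun p : ℝ × (ι → UU k) => ‖Jd p.2 (fun i => f i + (p.1 : ℂ) • bb i)‖ₑ ^ s := by
  have := A1_sc k
  exact ((hK ι k f).measurable.enorm).pow_const s

theorem A1_dF_lin {ι : Type} [DecidableEq ι] {k : ℕ} (U : ι → UU k) (h : ι → Mat k)
    (f g : FreeGroup ι →₀ ℂ) (c : ℂ) : dF U h (f + c • g) = c • dF U h g + dF U h f := by
  unfold dF
  rw [Finsupp.sum_add_index', Finsupp.sum_smul_index', Finsupp.smul_sum, add_comm]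
  · congr 1
    refine Finsupp.sum_congr fun w _ => ?_
    rw [smul_eq_mul, mul_smul]
  · intro w
    rw [zero_smul]
  · intro w
    rw [zero_smul]
  · intro w a b
    rw [add_smul]

theorem A1_DD_lin {ι : Type} [DecidableEq ι] {k : ℕ} (U : ι → UU k)
    (f g : ι → FreeGroup ι →₀ ℂ) (c : ℂ) :
    DD U (fun i => f i + c • g i) = c • DD U g + DD U f := by
  apply LinearMap.ext
  intro h
  funext i
  exact A1_dF_lin U h (f i) (g i) c

theorem A1_finrank (ι : Type) [Fintype ι] (k : ℕ) :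
    Module.finrank ℂ (ι → Mat k) = Fintype.card ι * k ^ 2 := by
  rw [Module.finrank_pi_fintype]
  simp only [Module.finrank_matrix, Module.finrank_self, Fintype.card_fin, mul_one,
    Finset.sum_const, Finset.card_univ, smul_eq_mul]
  rw [pow_two]

theorem A1_rpow_anti {x y : ℝ≥0∞} {α : ℝ} (hα : 0 < α) (h : x ≤ y) : y ^ (-α) ≤ x ^ (-α) := by
  rw [ENNReal.rpow_neg, ENNReal.rpow_neg]
  exact ENNReal.inv_le_inv.2 (ENNReal.rpow_le_rpow h hα.le)

theorem t_A1 (hN : S_N) (hD : S_DETP) (hR : S_ROT2) (hK : S_CONT) : S_A1 := by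
  intro ι _ _ _ f α hα hα2 ν _ K hKtop hpot
  obtain ⟨Kr, hKr, hrot⟩ := hR ι α hα hα2
  have hmax : max K 1 ≠ ⊤ := by
    rw [ne_eq, max_eq_top, not_or]
    exact ⟨hKtop, ENNReal.one_ne_top⟩
  refine ⟨max K 1 * Kr, ENNReal.mul_ne_top hmax hKr, fun k hk => ?_⟩
  have hsc := A1_sc k
  have hDpos : 0 < Fintype.card ι * k ^ 2 := Nat.mul_pos Fintype.card_pos (pow_pos hk 2)
  have hmeas := A1_meas hK ι k f (-(α / (Fintype.card ι * k ^ 2 : ℕ)))
  rw [lintegral_lintegral_swap hmeas.aemeasurable]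
  have key : ∀ U : ι → UU k, ∫⁻ t : ℝ, ‖Jd U (fun i => f i + (t : ℂ) • bb i)‖ₑ ^
      (-(α / (Fintype.card ι * k ^ 2 : ℕ))) ∂ν ≤
      max K 1 * ‖Jd U bb‖ₑ ^ (-(α / (Fintype.card ι * k ^ 2 : ℕ))) := by
    intro U
    obtain ⟨p, hp1, hp2, hp3⟩ := hD (ι → Mat k) (DD U bb) (DD U f)
    rw [A1_finrank] at hp1 hp2
    have h1 := hN ℝ ν (fun t : ℝ => (t : ℂ)) Complex.measurable_ofReal α hα (max K 1)
      (by positivity) (fun w => ?_) (Fintype.card ι * k ^ 2) hDpos p hp1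
    · rw [hp2] at h1
      have e : ∀ t : ℝ, Jd U (fun i => f i + (t : ℂ) • bb i) = p.eval (t : ℂ) := by
        intro t
        rw [hp3]
        unfold Jd
        rw [A1_DD_lin]
      simp only [e]
      exact h1
    · refine le_trans ?_ ((hpot w.re).trans (le_max_left _ _))
      refine lintegral_mono fun t => A1_rpow_anti hα ?_
      rw [enorm_le_iff_norm_le]
      have : (t - w.re : ℝ) = ((t : ℂ) - w).re := by simp
      rw [this, Real.norm_eq_abs]
      exact Complex.abs_re_le_norm _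
  calc ∫⁻ U : ι → UU k, ∫⁻ t : ℝ, ‖Jd U (fun i => f i + (t : ℂ) • bb i)‖ₑ ^
      (-(α / (Fintype.card ι * k ^ 2 : ℕ))) ∂ν ∂(haarP k ι)
      ≤ ∫⁻ U : ι → UU k, max K 1 * ‖Jd U bb‖ₑ ^ (-(α / (Fintype.card ι * k ^ 2 : ℕ)))
        ∂(haarP k ι) := lintegral_mono key
    _ = max K 1 * ∫⁻ U : ι → UU k, ‖Jd U bb‖ₑ ^ (-(α / (Fintype.card ι * k ^ 2 : ℕ)))
        ∂(haarP k ι) := lintegral_const_mul' _ _ hmax
    _ ≤ max K 1 * Kr := mul_le_mul_right (hrot k hk) _

end Pool.Agent.H755R2.NG
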