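import Mathlib
import Pool.Agent.H755R2.NG.Stubs

/-! # A2: Fatou and Markov (helper475) -/

namespace Pool.Agent.H755R2.NG

open MeasureTheory Matrix Filter Pool.Agent.H667R2.FG
open scoped Matrix.Norms.L2Operator ComplexConjugate ENNReal Topology

theorem sc_UU (k : ℕ) : SecondCountableTopology (UU k) := by
  have h : SecondCountableTopology (Mat k) :=
    inferInstanceAs (SecondCountableTopology (Fin k → Fin k → ℂ))
  infer_instance

theorem fatou_gen (ν : Measure ℝ) (g : ℕ → ℝ → ℝ≥0∞) (hmeas : ∀ k, Measurable (g k))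
    (K' : ℝ≥0∞) (hK' : K' ≠ ⊤) (hA : ∀ k, 0 < k → ∫⁻ t, g k t ∂ν ≤ K') :
    ∀ᵐ t ∂ν, ∃ C : ℝ≥0∞, C ≠ ⊤ ∧ ∃ᶠ k in atTop, g k t < C := by
  have hfat : ∫⁻ t, liminf (fun k => g k t) atTop ∂ν ≤ K' := by
    refine (lintegral_liminf_le hmeas).trans ?_
    refine liminf_le_of_frequently_le' ?_
    exact (eventually_gt_atTop 0).frequently.mono fun k hk => hA k hk
  have hae : ∀ᵐ t ∂ν, liminf (fun k => g k t) atTop < ⊤ :=
    ae_lt_top (Measurable.liminf hmeas) (ne_top_of_le_ne_top hK' hfat)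
  filter_upwards [hae] with t ht
  obtain ⟨C, hC1, hC2⟩ := exists_between ht
  exact ⟨C, hC2.ne, frequently_lt_of_liminf_lt (by isBoundedDefault) hC1⟩

theorem markov_gen {X : Type} [MeasurableSpace X] (μ : Measure X) [IsProbabilityMeasure μ]
    (J : X → ℂ) (hJ : Measurable J) (s δ : ℝ) (hs : 0 < s) (hδ : 0 < δ) (C : ℝ≥0∞) (hC : C ≠ ⊤)
    (h : ∫⁻ U, ‖J U‖ₑ ^ (-s) ∂μ < C) (h4 : 4 * C.toReal ≤ δ ^ (-s)) :
    ENNReal.ofReal (3 / 4) ≤ μ {U | δ ≤ ‖J U‖} := by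
  have hpos : 0 < δ ^ (-s) := Real.rpow_pos_of_pos hδ _
  have hmU : Measurable fun U : X => ‖J U‖ₑ ^ (-s) := hJ.enorm.pow_const _
  set E : Set X := {U | δ ≤ ‖J U‖} with hE
  have hEm : MeasurableSet E := measurableSet_le measurable_const hJ.norm
  have hmk := mul_meas_ge_le_lintegral (μ := μ) hmU (ENNReal.ofReal (δ ^ (-s)))
  have hsub : Eᶜ ⊆ {U : X | ENNReal.ofReal (δ ^ (-s)) ≤ ‖J U‖ₑ ^ (-s)} := by
    intro U hU
    rw [hE, Set.mem_compl_iff, Set.mem_ofPred_eq, not_le] at hU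
    rw [Set.mem_ofPred_eq]
    rw [← ENNReal.ofReal_rpow_of_pos hδ, ENNReal.rpow_neg, ENNReal.rpow_neg,
      ENNReal.inv_le_inv]
    refine ENNReal.rpow_le_rpow ?_ hs.le
    rw [← ofReal_norm]
    exact ENNReal.ofReal_le_ofReal hU.le
  have hprob : μ E + μ Eᶜ = 1 := by
    rw [measure_add_measure_compl hEm, measure_univ]
  have hcomp : μ Eᶜ ≤ ENNReal.ofReal (1 / 4) := by
    have h3 : ENNReal.ofReal (δ ^ (-s)) * μ Eᶜ ≤ C :=
      (mul_le_mul_right (measure_mono hsub) _).trans (hmk.trans h.le)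
    have h4 : ENNReal.ofReal (δ ^ (-s)) * μ Eᶜ ≤
        ENNReal.ofReal (δ ^ (-s)) * ENNReal.ofReal (1 / 4) := by
      refine h3.trans ?_
      rw [← ENNReal.ofReal_mul hpos.le]
      rw [ENNReal.le_ofReal_iff_toReal_le hC (by positivity)]
      linarith
    exact (ENNReal.mul_le_mul_iff_right (by
      rw [Ne, ENNReal.ofReal_eq_zero, not_le]; exact hpos) ENNReal.ofReal_ne_top).1 h4
  have hfin : μ Eᶜ ≠ ⊤ := measure_ne_top _ _
  have h5 : μ E = 1 - μ Eᶜ := by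
    rw [← hprob, ENNReal.add_sub_cancel_right hfin]
  rw [h5]
  have h6 : ENNReal.ofReal (3 / 4) = 1 - ENNReal.ofReal (1 / 4) := by
    rw [← ENNReal.ofReal_one, ← ENNReal.ofReal_sub _ (by norm_num)]
    norm_num
  rw [h6]
  exact tsub_le_tsub_left hcomp _

theorem meas_J (hC : S_CONT) (ι : Type) [Fintype ι] [DecidableEq ι] (k : ℕ)
    (f : ι → FreeGroup ι →₀ ℂ) :
    Measurable fun p : ℝ × (ι → UU k) => Jd p.2 (fun i => f i + (p.1 : ℂ) • bb i) := by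
  have hsc := sc_UU k
  have h := hC ι k f
  generalize (fun p : ℝ × (ι → UU k) => Jd p.2 (fun i => f i + (p.1 : ℂ) • bb i)) = J at h
  exact h.measurable


theorem g_meas (hC : S_CONT) (ι : Type) [Fintype ι] [DecidableEq ι] (k : ℕ)
    (f : ι → FreeGroup ι →₀ ℂ) (s : ℝ) :
    Measurable fun t : ℝ => ∫⁻ U, ‖Jd U (fun i => f i + (t : ℂ) • bb i)‖ₑ ^ s ∂(haarP k ι) := by
  have h := meas_J hC ι k f
  have h2 : Measurable fun p : ℝ × (ι → UU k) =>
     ‖Jd p.2 (fun i => f i + (p.1 : ℂ) • bb i)‖ₑ ^ s := h.enorm.pow_const _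
  exact Measurable.lintegral_prod_right' h2


theorem meas_k (hC : S_CONT) (ι : Type) [Fintype ι] [DecidableEq ι] (f : ι → FreeGroup ι →₀ ℂ)
    (t : ℝ) (k : ℕ) : Measurable fun U : ι → UU k => Jd U (fun i => f i + (t : ℂ) • bb i) := by
  have h := meas_J hC ι k f
  have h2 : (fun U : ι → UU k => Jd U (fun i => f i + (t : ℂ) • bb i)) =
    fun U => (fun p : ℝ × (ι → UU k) => Jd p.2 (fun i => f i + (p.1 : ℂ) • bb i)) (t, U) := rfl
  rw [h2]
  generalize (fun p : ℝ × (ι → UU k) => Jd p.2 (fun i => f i + (p.1 : ℂ) • bb i)) = J at h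
  exact h.comp measurable_prodMk_left

theorem step_k (hC : S_CONT) (ι : Type) [Fintype ι] [DecidableEq ι] (f : ι → FreeGroup ι →₀ ℂ)
    (t α L : ℝ) (hα : 0 < α) (hc0 : (0 : ℝ) < Fintype.card ι) (C : ℝ≥0∞) (hC1 : C ≠ ⊤)
    (hL : 4 * C.toReal ≤ Real.exp (L * α / Fintype.card ι)) (k : ℕ) (hk0 : 0 < k)
    (hk : ∫⁻ U, ‖Jd U (fun i => f i + (t : ℂ) • bb i)‖ₑ ^
      (-(α / (Fintype.card ι * k ^ 2 : ℕ))) ∂(haarP k ι) < C) :
    ENNReal.ofReal (3 / 4) ≤ haarP k ι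
      {U | Real.exp (-(L * k ^ 2)) ≤ ‖Jd U (fun i => f i + (t : ℂ) • bb i)‖} := by
  have hk0' : (0 : ℝ) < k := by exact_mod_cast hk0
  have hs0 : 0 < α / (Fintype.card ι * k ^ 2 : ℕ) := by
    push_cast; positivity
  have e1 : (Real.exp (-(L * k ^ 2))) ^ (-(α / (Fintype.card ι * k ^ 2 : ℕ))) =
      Real.exp (L * α / Fintype.card ι) := by
    rw [← Real.exp_mul]
    congr 1
    push_cast
    field_simp
  exact markov_gen (haarP k ι) _ (meas_k hC ι f t k) _ (Real.exp (-(L * k ^ 2))) hs0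
    (Real.exp_pos _) C hC1 hk (by rw [e1]; exact hL)

theorem t_A2 (h1 : S_A1) (hC : S_CONT) : S_A2 := by
  intro ι _ _ _ f α hα hα2 ν _ K hK hpot
  obtain ⟨K', hK', hA⟩ := h1 ι f α hα hα2 ν K hK hpot
  have hF := fatou_gen ν _ (fun k => g_meas hC ι k f (-(α / (Fintype.card ι * k ^ 2 : ℕ))))
    K' hK' hA
  filter_upwards [hF] with t ht
  obtain ⟨C, hC1, hfr⟩ := ht
  have hc0 : (0 : ℝ) < Fintype.card ι := by exact_mod_cast Fintype.card_pos
  obtain ⟨L, hL0, hL⟩ : ∃ L : ℝ, 0 ≤ L ∧ 4 * C.toReal ≤ Real.exp (L * α / Fintype.card ι) := by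
    refine ⟨Fintype.card ι / α * (4 * C.toReal), by positivity, ?_⟩
    have e : Fintype.card ι / α * (4 * C.toReal) * α / Fintype.card ι = 4 * C.toReal := by
      field_simp
    rw [e]
    have := Real.add_one_le_exp (4 * C.toReal)
    linarith
  refine ⟨L, hL0, ?_⟩
  refine (hfr.and_eventually (eventually_gt_atTop 0)).mono ?_
  rintro k ⟨hk, hk0⟩
  exact step_k hC ι f t α L hα hc0 C hC1 hL k hk0 hk

end Pool.Agent.H755R2.NG
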