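import Pool.Agent.H755R2.NG.Stubs

/-! # Task AREA: the area formula with multiplicity -/

set_option autoImplicit false

namespace Pool.Agent.H755R2.NG

open MeasureTheory Set Function
open scoped ENNReal NNReal

namespace AREA

/-- the radius of approximation -/
noncomputable def rad {E : Type} [NormedAddCommGroup E] [NormedSpace ℝ E] [FiniteDimensional ℝ E]
    (A : E →L[ℝ] E) : ℝ≥0 := by
  classical exact if h : A.det ≠ 0 then
    (if ‖((A.toContinuousLinearEquivOfDetNeZero h).symm : E →L[ℝ] E)‖₊ = 0 then 1 else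
      ‖((A.toContinuousLinearEquivOfDetNeZero h).symm : E →L[ℝ] E)‖₊⁻¹ / 2) else 1

theorem rad_ne {E : Type} [NormedAddCommGroup E] [NormedSpace ℝ E] [FiniteDimensional ℝ E]
    (A : E →L[ℝ] E) : rad A ≠ 0 := by
  unfold rad
  split_ifs with h h1
  · exact one_ne_zero
  · exact div_ne_zero (inv_ne_zero h1) two_ne_zero
  · exact one_ne_zero

theorem inj {E : Type} [NormedAddCommGroup E] [NormedSpace ℝ E] [FiniteDimensional ℝ E]
    (A : E →L[ℝ] E) (h : A.det ≠ 0) (P : E → E) (s : Set E)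
    (hP : ApproximatesLinearOn P A s (rad A)) : InjOn P s := by
  have h1 : ApproximatesLinearOn P ((A.toContinuousLinearEquivOfDetNeZero h : E ≃L[ℝ] E) :
      E →L[ℝ] E) s (rad A) := by
    rw [ContinuousLinearMap.coe_toContinuousLinearEquivOfDetNeZero]
    exact hP
  refine h1.injOn ?_
  rcases subsingleton_or_nontrivial E with hE | hE
  · exact Or.inl hE
  · right
    have hpos : 0 < ‖((A.toContinuousLinearEquivOfDetNeZero h).symm : E →L[ℝ] E)‖₊ :=
      ContinuousLinearEquiv.nnnorm_symm_pos _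
    have hr : rad A = ‖((A.toContinuousLinearEquivOfDetNeZero h).symm : E →L[ℝ] E)‖₊⁻¹ / 2 := by
      unfold rad
      rw [dif_pos h, if_neg hpos.ne']
    rw [hr]
    exact NNReal.half_lt_self (inv_ne_zero hpos.ne')

/-- a point belongs to at most `M` of the images -/
theorem tsum_ind {E : Type} (P : E → E) (s : Set E) (t : ℕ → Set E)
    (ht : Pairwise (Disjoint on t)) (M : ℕ)
    (hM : ∀ (z : E) (T : Finset E), (∀ x ∈ T, x ∈ s ∧ P x = z) → T.card ≤ M) (z : E) :
    ∑' n, (P '' (s ∩ t n)).indicator (fun _ => (1 : ℝ≥0∞)) z ≤ M := by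
  classical
  rw [ENNReal.tsum_eq_iSup_sum]
  refine iSup_le fun S => ?_
  have h1 : ∑ n ∈ S, (P '' (s ∩ t n)).indicator (fun _ => (1 : ℝ≥0∞)) z =
      ((S.filter fun n => z ∈ P '' (s ∩ t n)).card : ℝ≥0∞) := by
    rw [Finset.card_eq_sum_ones, Nat.cast_sum, Finset.sum_filter]
    refine Finset.sum_congr rfl fun n _ => ?_
    by_cases hz : z ∈ P '' (s ∩ t n)
    · rw [indicator_of_mem hz, if_pos hz, Nat.cast_one]
    · rw [indicator_of_notMem hz, if_neg hz]
  rw [h1]
  have h2 : ∀ n, ∃ x, z ∈ P '' (s ∩ t n) → (x ∈ s ∩ t n ∧ P x = z) := by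
    intro n
    by_cases hz : z ∈ P '' (s ∩ t n)
    · obtain ⟨x, hx, hxz⟩ := hz
      exact ⟨x, fun _ => ⟨hx, hxz⟩⟩
    · exact ⟨z, fun h => absurd h hz⟩
  choose x hx using h2
  have hinj : Set.InjOn x (S.filter fun n => z ∈ P '' (s ∩ t n)) := by
    intro m hm n hn hmn
    rw [Finset.mem_coe, Finset.mem_filter] at hm hn
    by_contra hne
    have h3 := (hx m hm.2).1.2
    have h4 := (hx n hn.2).1.2
    rw [hmn] at h3
    exact Set.disjoint_left.1 (ht hne) h3 h4
  have h3 : (S.filter fun n => z ∈ P '' (s ∩ t n)).card =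
      ((S.filter fun n => z ∈ P '' (s ∩ t n)).image x).card :=
    (Finset.card_image_of_injOn hinj).symm
  rw [h3]
  refine Nat.cast_le.2 (hM z _ ?_)
  intro y hy
  rw [Finset.mem_image] at hy
  obtain ⟨n, hn, rfl⟩ := hy
  rw [Finset.mem_filter] at hn
  exact ⟨(hx n hn.2).1.1, (hx n hn.2).2⟩

end AREA

open AREA in
theorem t_AREA : S_AREA := by
  intro E _ _ _ _ _ μ _ P P' s hs hP c hc hdet M hM Y hY hPY
  rcases s.eq_empty_or_nonempty with rfl | hne
  · rw [measure_empty, mul_zero]
    exact bot_le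
  have : SecondCountableTopology E := by
    have := FiniteDimensional.proper ℝ E
    exact secondCountable_of_proper
  obtain ⟨t, A, ht, htm, hst, happ, hA⟩ := exists_partition_approximatesLinearOn_of_hasFDerivWithinAt
    P s P' (fun x hx => (hP x hx).hasFDerivWithinAt) rad rad_ne
  have hinj : ∀ n, InjOn P (s ∩ t n) := by
    intro n
    obtain ⟨y, hy, hAy⟩ := hA hne n
    have hd : (A n).det ≠ 0 := by
      rw [hAy]
      intro h0
      have := hdet y hy
      rw [h0, abs_zero] at this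
      linarith
    exact inj (A n) hd P _ (happ n)
  have hW : ∀ n, ∀ x ∈ s ∩ t n, HasFDerivWithinAt P (P' x) (s ∩ t n) x := fun n x hx =>
    (hP x hx.1).hasFDerivWithinAt
  have hmeas : ∀ n, MeasurableSet (s ∩ t n) := fun n => hs.inter (htm n)
  have hI : ∀ n, MeasurableSet (P '' (s ∩ t n)) := fun n =>
    measurable_image_of_fderivWithin (hmeas n) (hW n) (hinj n)
  have h1 : ∀ n, ENNReal.ofReal c * μ (s ∩ t n) ≤ μ (P '' (s ∩ t n)) := by
    intro n
    rw [← lintegral_abs_det_fderiv_eq_addHaar_image μ (hmeas n) (hW n) (hinj n)]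
    rw [← setLIntegral_const]
    refine setLIntegral_mono' (hmeas n) fun x hx => ?_
    exact ENNReal.ofReal_le_ofReal (hdet x hx.1)
  have hU : s = ⋃ n, s ∩ t n := by
    rw [← inter_iUnion]
    exact (inter_eq_left.2 hst).symm
  have hdisj : Pairwise (Disjoint on fun n => s ∩ t n) := by
    intro m n hmn
    exact (ht hmn).mono inter_subset_right inter_subset_right
  calc ENNReal.ofReal c * μ s = ENNReal.ofReal c * ∑' n, μ (s ∩ t n) := by
        conv_lhs => rw [hU]
        rw [measure_iUnion hdisj hmeas]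
    _ = ∑' n, ENNReal.ofReal c * μ (s ∩ t n) := ENNReal.tsum_mul_left.symm
    _ ≤ ∑' n, μ (P '' (s ∩ t n)) := ENNReal.tsum_le_tsum h1
    _ = ∑' n, ∫⁻ z in Y, (P '' (s ∩ t n)).indicator (fun _ => (1 : ℝ≥0∞)) z ∂μ := by
        refine tsum_congr fun n => ?_
        rw [setLIntegral_indicator (hI n), setLIntegral_one]
        congr 1
        exact (inter_eq_left.2 ((image_mono inter_subset_left).trans hPY)).symm
    _ = ∫⁻ z in Y, ∑' n, (P '' (s ∩ t n)).indicator (fun _ => (1 : ℝ≥0∞)) z ∂μ := by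
        rw [lintegral_tsum]
        intro n
        exact (measurable_const.indicator (hI n)).aemeasurable
    _ ≤ ∫⁻ _ in Y, (M : ℝ≥0∞) ∂μ := lintegral_mono fun z => tsum_ind P s t ht M hM z
    _ = M * μ Y := by rw [setLIntegral_const]

end Pool.Agent.H755R2.NG
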