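import Pool.Agent.H755R2.NG.Stubs

/-! Task AVG: averaging over the centre of the chart -/

namespace Pool.Agent.H755R2.NG

open MeasureTheory Matrix Filter Pool.Agent.H667R2.FG
open scoped Matrix.Norms.L2Operator ComplexConjugate ENNReal

theorem AVG_sc (k : ℕ) : SecondCountableTopology (UU k) := by
  have h : SecondCountableTopology (Mat k) :=
    inferInstanceAs (SecondCountableTopology (Fin k → Fin k → ℂ))
  exact TopologicalSpace.Subtype.secondCountableTopology _

theorem t_AVG (hc : S_CIN) : S_AVG := by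
  intro ι _ k G hG B hB hBtop
  have hsc := AVG_sc k
  have hcay : Measurable (cay : Vc k → UU k) := (hc k).2.measurable
  have hch : Measurable fun q : (ι → UU k) × (ι → Vc k) => chart q.1 q.2 := by
    refine measurable_pi_iff.2 fun i => ?_
    have h1 : Measurable fun q : (ι → UU k) × (ι → Vc k) => q.1 i :=
      (measurable_pi_apply i).comp measurable_fst
    have h2 : Measurable fun q : (ι → UU k) × (ι → Vc k) => cay (q.2 i) :=
      hcay.comp ((measurable_pi_apply i).comp measurable_snd)
    exact h1.mul h2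
  let φ : (ι → UU k) → (ι → Vc k) → ℝ≥0∞ := fun U₀ A => G.indicator (fun _ => 1) (chart U₀ A)
  have hφ : Measurable fun q : (ι → UU k) × (ι → Vc k) => φ q.1 q.2 :=
    (measurable_const.indicator hG).comp hch
  have h1 : ∀ U₀ : ι → UU k, volume {A | A ∈ B ∧ chart U₀ A ∈ G} = ∫⁻ A in B, φ U₀ A := by
    intro U₀
    have hm : MeasurableSet {A : ι → Vc k | chart U₀ A ∈ G} :=
      (hch.comp measurable_prodMk_left) hG
    have e : (fun A => φ U₀ A) = {A : ι → Vc k | chart U₀ A ∈ G}.indicator (fun _ => 1) := by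
      funext A
      by_cases hA : chart U₀ A ∈ G
      · rw [show φ U₀ A = 1 from Set.indicator_of_mem hA _,
          Set.indicator_of_mem (show A ∈ {A : ι → Vc k | chart U₀ A ∈ G} from hA)]
      · rw [show φ U₀ A = 0 from Set.indicator_of_notMem hA _,
          Set.indicator_of_notMem (show A ∉ {A : ι → Vc k | chart U₀ A ∈ G} from hA)]
    rw [e, lintegral_indicator hm, setLIntegral_const, one_mul, Measure.restrict_apply hm,
      Set.inter_comm]
    rfl
  have h2 : ∫⁻ U₀ : ι → UU k, volume {A | A ∈ B ∧ chart U₀ A ∈ G} ∂(haarP k ι) =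
      haarP k ι G * volume B := by
    simp only [h1]
    rw [lintegral_lintegral_swap hφ.aemeasurable]
    have h3 : ∀ A : ι → Vc k, ∫⁻ U₀ : ι → UU k, φ U₀ A ∂(haarP k ι) = haarP k ι G := by
      intro A
      have h4 := lintegral_mul_right_eq_self (μ := haarP k ι)
        (fun U : ι → UU k => G.indicator (fun _ => (1 : ℝ≥0∞)) U) (fun i => cay (A i))
      rw [lintegral_indicator hG, setLIntegral_const, one_mul] at h4
      exact h4
    simp only [h3]
    rw [setLIntegral_const]
  have h5 : haarP k ι G * volume B ≠ ⊤ := ENNReal.mul_ne_top (measure_ne_top _ _) hBtop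
  obtain ⟨U₀, hU₀⟩ := exists_lintegral_le (μ := haarP k ι)
    (f := fun U₀ : ι → UU k => volume {A | A ∈ B ∧ chart U₀ A ∈ G}) (by rw [h2]; exact h5)
  rw [h2] at hU₀
  exact ⟨U₀, hU₀⟩

end Pool.Agent.H755R2.NG
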