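import Mathlib
import Pool.Agent.H755R2.NG.Stubs

namespace Pool.Agent.H755R2.NG

/-- task BEZ -/
theorem t_BEZ (h1 : S_BZ1) (h2 : S_BZ2) (h3 : S_BZ3) (h4 : S_BZ4) : S_BEZ := by
  intro σ _ q hq f hf S hz hnd
  obtain ⟨g, hg⟩ := h1 σ S
  have hli := h2 σ f S g hz hnd hg
  refine h4 (Fintype.card σ) q (S.sup fun p => (g p).totalDegree) S.card hq fun L => ?_
  refine h3 σ q (S.sup fun p => (g p).totalDegree) L S.card S
    (fun x : S × (σ →₀ ℕ) => g x.1 * ∏ i, f i ^ (x.2 i)) hli (by simp) ?_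
  rintro ⟨⟨p, hp⟩, α⟩
  have hA : (g p).totalDegree ≤ S.sup fun p => (g p).totalDegree :=
    Finset.le_sup (f := fun p => (g p).totalDegree) hp
  have hB : (∏ i, f i ^ (α i)).totalDegree ≤ q * α.degree := by
    refine (MvPolynomial.totalDegree_finsetProd _ _).trans ?_
    rw [Finsupp.degree_eq_sum, Finset.mul_sum]
    refine Finset.sum_le_sum fun i _ => ?_
    refine (MvPolynomial.totalDegree_pow _ _).trans ?_
    rw [mul_comm q]
    exact Nat.mul_le_mul_left _ (hf i)
  refine (MvPolynomial.totalDegree_mul _ _).trans ?_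
  dsimp only
  omega

end Pool.Agent.H755R2.NG
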