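import Pool.Agent.H755R2.NG.Stubs

/-! BZ1: interpolation polynomials. -/

namespace Pool.Agent.H755R2.NG

open MeasureTheory Matrix Filter Pool.Agent.H667R2.FG
open scoped Matrix.Norms.L2Operator ComplexConjugate ENNReal Topology

theorem t_BZ1 : S_BZ1 := by
  classical
  intro σ _ S
  have key : ∀ p p' : σ → ℂ, p' ≠ p → ∃ c : MvPolynomial σ ℂ,
      MvPolynomial.eval p c = 1 ∧ MvPolynomial.eval p' c = 0 := by
    intro p p' h
    obtain ⟨j, hj⟩ := Function.ne_iff.mp h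
    have hj' : p j - p' j ≠ 0 := sub_ne_zero.mpr (Ne.symm hj)
    refine ⟨MvPolynomial.C (p j - p' j)⁻¹ * (MvPolynomial.X j - MvPolynomial.C (p' j)), ?_, ?_⟩
    · simp [hj']
    · simp
  choose! c hc1 hc2 using key
  refine ⟨fun p => ∏ p' ∈ S.erase p, c p p', fun p hp => ⟨?_, fun p' hp' hne => ?_⟩⟩
  · rw [map_prod]
    exact Finset.prod_eq_one fun p' hp' => hc1 p p' (Finset.ne_of_mem_erase hp')
  · rw [map_prod]
    exact Finset.prod_eq_zero (Finset.mem_erase.mpr ⟨hne, hp'⟩) (hc2 p p' hne)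

end Pool.Agent.H755R2.NG
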