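import Pool.Agent.H755R2.NG.Stubs

/-! # BZ2: linear independence -/

namespace Pool.Agent.H755R2.NG

open MvPolynomial

namespace BZ2

variable {σ : Type} [Fintype σ]

/-- restriction to the line `p + X v` -/
noncomputable def Ph (p v : σ → ℂ) : MvPolynomial σ ℂ →ₐ[ℂ] Polynomial ℂ :=
  aeval fun j => Polynomial.C (p j) + Polynomial.X * Polynomial.C (v j)

theorem coeff_zero (p v : σ → ℂ) (f : MvPolynomial σ ℂ) : (Ph p v f).coeff 0 = eval p f := by
  induction f using MvPolynomial.induction_on with
  | C a => simp [Ph, Polynomial.algebraMap_eq]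
  | add f g hf hg => simp [hf, hg]
  | mul_X f j hf =>
    rw [map_mul, Polynomial.mul_coeff_zero, hf]
    simp [Ph]

theorem coeff_one (p v : σ → ℂ) (f : MvPolynomial σ ℂ) :
    (Ph p v f).coeff 1 = ∑ j, v j * eval p (pderiv j f) := by
  classical
  induction f using MvPolynomial.induction_on with
  | C a => simp [Ph, Polynomial.algebraMap_eq, Polynomial.coeff_C]
  | add f g hf hg => simp [hf, hg, mul_add, Finset.sum_add_distrib]
  | mul_X f j hf =>
    have h1 : (Ph p v (f * X j)).coeff 1 =
        (Ph p v f).coeff 1 * p j + (Ph p v f).coeff 0 * v j := by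
      rw [map_mul]
      have h2 : Ph p v (X j) = Polynomial.C (p j) + Polynomial.X * Polynomial.C (v j) := by
        simp [Ph]
      rw [h2, mul_add, ← mul_assoc, Polynomial.coeff_add, Polynomial.coeff_mul_C,
        Polynomial.coeff_mul_C, Polynomial.coeff_mul_X]
    rw [h1, hf, coeff_zero]
    have h3 : ∀ i, v i * eval p (pderiv i (f * X j)) =
        v i * eval p (pderiv i f) * p j + (if i = j then eval p f * v j else 0) := by
      intro i
      rw [pderiv_mul, pderiv_X]
      simp only [map_add, map_mul, eval_X]
      by_cases h : i = j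
      · subst h
        simp
        ring
      · rw [if_neg h]
        have : (Pi.single i 1 : σ → MvPolynomial σ ℂ) j = 0 := Pi.single_eq_of_ne (fun h' => h h'.symm) _
        rw [this]
        simp
        ring
    simp only [h3, Finset.sum_add_distrib, Finset.sum_ite_eq', Finset.mem_univ, if_true,
      Finset.sum_mul]

end BZ2

theorem t_BZ2 : S_BZ2 := by
  classical
  intro σ _ f S g hf hnd hg
  rw [linearIndependent_iff]
  intro l hl
  by_contra hne
  -- an element of the support with minimal degree
  have hsne : l.support.Nonempty := Finsupp.support_nonempty_iff.mpr hne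
  obtain ⟨x0, hx0, hmin⟩ := Finset.exists_min_image l.support (fun x => x.2.degree) hsne
  set p0 : σ → ℂ := (x0.1 : σ → ℂ) with hp0
  have hp0S : p0 ∈ S := x0.1.2
  set r : ℕ := x0.2.degree with hr
  set D : (σ → ℂ) → (σ → ℂ) := fun v i => ∑ j, v j * eval p0 (pderiv j (f i)) with hD
  -- the polynomial `H`
  set H : MvPolynomial σ ℂ := ∑ x ∈ l.support,
    monomial x.2 (l x * eval p0 (g x.1) * 0 ^ (x.2.degree - r)) with hH
  have hHD : ∀ v, eval (D v) H = 0 := by
    intro v
    have h1 : BZ2.Ph p0 v (Finsupp.linearCombination ℂ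
        (fun x : S × (σ →₀ ℕ) => g x.1 * ∏ i, f i ^ (x.2 i)) l) = 0 := by rw [hl, map_zero]
    rw [Finsupp.linearCombination_apply, Finsupp.sum, map_sum] at h1
    set u : σ → Polynomial ℂ := fun i => (BZ2.Ph p0 v (f i)).divX with hu
    have hfu : ∀ i, BZ2.Ph p0 v (f i) = Polynomial.X * u i := by
      intro i
      have h2 := Polynomial.divX_mul_X_add (BZ2.Ph p0 v (f i))
      rw [BZ2.coeff_zero, hf p0 hp0S i, Polynomial.C_0, add_zero, mul_comm] at h2
      exact h2.symm
    have hu0 : ∀ i, (u i).eval 0 = D v i := by
      intro i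
      rw [← Polynomial.coeff_zero_eq_eval_zero, hu]
      simp only
      rw [Polynomial.coeff_divX, BZ2.coeff_one]
    have hterm : ∀ x ∈ l.support, BZ2.Ph p0 v (l x • (g x.1 * ∏ i, f i ^ (x.2 i))) =
        Polynomial.X ^ r * (Polynomial.C (l x) * BZ2.Ph p0 v (g x.1) *
          Polynomial.X ^ (x.2.degree - r) * ∏ i, u i ^ (x.2 i)) := by
      intro x hx
      have h2 : r ≤ x.2.degree := hmin x hx
      rw [map_smul, map_mul, map_prod]
      have h3 : ∏ i, BZ2.Ph p0 v (f i ^ (x.2 i)) =
          Polynomial.X ^ x.2.degree * ∏ i, u i ^ (x.2 i) := by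
        simp only [map_pow, hfu, mul_pow]
        rw [Finset.prod_mul_distrib, Finset.prod_pow_eq_pow_sum, Finsupp.degree_eq_sum]
      have h4 : (Polynomial.X : Polynomial ℂ) ^ x.2.degree =
          Polynomial.X ^ r * Polynomial.X ^ (x.2.degree - r) := by
        rw [← pow_add, Nat.add_sub_cancel' h2]
      rw [h3, h4, Polynomial.smul_eq_C_mul]
      ring
    rw [Finset.sum_congr rfl hterm, ← Finset.mul_sum] at h1
    have h5 := (mul_eq_zero.mp h1).resolve_left (pow_ne_zero r Polynomial.X_ne_zero)
    have h6 := congrArg (Polynomial.eval 0) h5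
    rw [Polynomial.eval_finset_sum, Polynomial.eval_zero] at h6
    rw [hH, map_sum]
    refine Eq.trans (Finset.sum_congr rfl fun x hx => ?_) h6
    rw [eval_monomial]
    simp only [Polynomial.eval_mul, Polynomial.eval_C, Polynomial.eval_pow, Polynomial.eval_X,
      Polynomial.eval_prod, hu0]
    rw [← Polynomial.coeff_zero_eq_eval_zero, BZ2.coeff_zero]
    congr 1
    rw [Finsupp.prod_fintype _ _ (fun i => pow_zero _)]
  -- surjectivity of `D`
  have hDsurj : Function.Surjective D := by
    let DL : (σ → ℂ) →ₗ[ℂ] (σ → ℂ) :=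
      { toFun := D
        map_add' := by
          intro v w
          funext i
          simp only [hD, Pi.add_apply, add_mul, Finset.sum_add_distrib]
        map_smul' := by
          intro c v
          funext i
          simp only [hD, Pi.smul_apply, smul_eq_mul, RingHom.id_apply, Finset.mul_sum, mul_assoc] }
    have hinj : Function.Injective DL := by
      rw [← LinearMap.ker_eq_bot, LinearMap.ker_eq_bot']
      intro v hv
      exact hnd p0 hp0S v fun i => congrFun hv i
    exact LinearMap.injective_iff_surjective.mp hinj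
  have hH0 : H = 0 := by
    refine MvPolynomial.funext fun w => ?_
    obtain ⟨v, rfl⟩ := hDsurj w
    rw [hHD v, map_zero]
  have hc : coeff x0.2 H = l x0 := by
    rw [hH, coeff_sum, Finset.sum_eq_single x0]
    · rw [coeff_monomial, if_pos rfl, (hg p0 hp0S).1, ← hr, Nat.sub_self, pow_zero]
      ring
    · intro x hx hne'
      rw [coeff_monomial]
      split_ifs with h1
      · have h2 : x.1 ≠ x0.1 := by
          intro h3
          exact hne' (Prod.ext h3 h1)
        have h3 : eval p0 (g x.1) = 0 := by
          refine (hg x.1 x.1.2).2 p0 hp0S ?_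
          intro h4
          exact h2 (Subtype.ext h4.symm)
        rw [h3]
        ring
      · rfl
    · intro h
      exact absurd hx0 h
  rw [hH0, coeff_zero] at hc
  exact (Finsupp.mem_support_iff.mp hx0) hc.symm

end Pool.Agent.H755R2.NG
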