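import Pool.Agent.H755R2.NG.Stubs

namespace Pool.Agent.H755R2.NG

open Finset

/-- monomials of degree at most `D` -/
private noncomputable def BZ3_bd (σ : Type) [Fintype σ] [DecidableEq σ] (D : ℕ) :
    Finset (σ →₀ ℕ) :=
  (range (D + 1)).biUnion fun n => (univ : Finset σ).finsuppAntidiag n

private theorem BZ3_mem {σ : Type} [Fintype σ] [DecidableEq σ] {D : ℕ} {α : σ →₀ ℕ} :
    α ∈ BZ3_bd σ D ↔ α.degree ≤ D := by
  unfold BZ3_bd
  simp only [mem_biUnion, mem_range, mem_finsuppAntidiag, subset_univ, and_true]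
  have h : α.degree = ∑ i, α i := Finsupp.degree_eq_sum α
  rw [h]
  constructor
  · rintro ⟨n, hn, h1⟩
    have h2 : ∑ i, α i = n := h1
    omega
  · intro h1
    exact ⟨∑ i, α i, by omega, rfl⟩

private theorem BZ3_card {σ : Type} [Fintype σ] [DecidableEq σ] (D : ℕ) :
    (BZ3_bd σ D).card = (D + Fintype.card σ).choose (Fintype.card σ) := by
  have h1 : (BZ3_bd σ D).card = ∑ n ∈ range (D + 1), (Fintype.card σ + n - 1).choose n := by
    unfold BZ3_bd
    rw [card_biUnion]
    · refine sum_congr rfl fun n _ => ?_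
      rw [card_finsuppAntidiag_nat_eq_choose, card_univ]
    · intro n _ n' _ hnn
      rw [Function.onFun, disjoint_left]
      intro α h2 h3
      rw [mem_finsuppAntidiag] at h2 h3
      exact hnn (h2.1.symm.trans h3.1)
  have h2 : ∀ D : ℕ, ∑ n ∈ range (D + 1), (Fintype.card σ + n - 1).choose n =
      (Fintype.card σ + D).choose D := by
    intro D
    induction D with
    | zero => simp
    | succ D ih =>
      rw [sum_range_succ, ih]
      have h3 : Fintype.card σ + (D + 1) - 1 = Fintype.card σ + D := by omega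
      rw [h3, ← add_assoc, Nat.choose_succ_succ]
  rw [h1, h2, add_comm, ← Nat.choose_symm_add]

theorem t_BZ3 : S_BZ3 := by
  classical
  intro σ _ q c L M T _ h hli hM hdeg
  set D := q * L + c with hD
  let κ := {n : σ →₀ ℕ | (n.sum fun _ e => e) ≤ D}
  have hκ : ∀ n : σ →₀ ℕ, n ∈ κ ↔ n ∈ BZ3_bd σ D := by
    intro n
    rw [BZ3_mem]
    rfl
  let eκ : κ ≃ (BZ3_bd σ D) := Equiv.subtypeEquivRight hκ
  let b : Module.Basis (BZ3_bd σ D) ℂ (MvPolynomial.restrictTotalDegree σ ℂ D) :=
    (MvPolynomial.basisRestrictSupport ℂ {n : σ →₀ ℕ | (n.sum fun _ e => e) ≤ D}).reindex eκ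
  have : Module.Finite ℂ (MvPolynomial.restrictTotalDegree σ ℂ D) := Module.Finite.of_basis b
  have hfr : Module.finrank ℂ (MvPolynomial.restrictTotalDegree σ ℂ D) = (BZ3_bd σ D).card := by
    rw [Module.finrank_eq_card_basis b, Fintype.card_coe]
  let h' : T × (BZ3_bd σ L) → MvPolynomial.restrictTotalDegree σ ℂ D := fun x =>
    ⟨h (x.1, x.2.1), by
      rw [MvPolynomial.mem_restrictTotalDegree]
      refine (hdeg _).trans ?_
      have h1 : (x.2.1 : σ →₀ ℕ).degree ≤ L := BZ3_mem.1 x.2.2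
      exact Nat.add_le_add_right (Nat.mul_le_mul_left q h1) c⟩
  have hli' : LinearIndependent ℂ h' := by
    refine LinearIndependent.of_comp (Submodule.subtype _) ?_
    have h1 : (Submodule.subtype (MvPolynomial.restrictTotalDegree σ ℂ D)) ∘ h' =
        h ∘ (fun x : T × (BZ3_bd σ L) => (x.1, x.2.1)) := rfl
    rw [h1]
    refine hli.comp _ ?_
    rintro ⟨t, α⟩ ⟨t', α'⟩ hx
    simp only [Prod.mk.injEq] at hx
    exact Prod.ext hx.1 (Subtype.ext hx.2)
  have h1 := hli'.fintype_card_le_finrank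
  rw [hfr, BZ3_card, Fintype.card_prod, Fintype.card_coe, BZ3_card, hM] at h1
  exact h1

end Pool.Agent.H755R2.NG
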