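import Pool.Agent.H755R2.NG.Stubs
import Pool.Agent.H667R2.FG.THS

/-! # The volume inequality -/

namespace Pool.Agent.H755R2.NG

open MeasureTheory Matrix Filter Pool.Agent.H667R2.FG
open scoped Matrix.Norms.L2Operator ComplexConjugate ENNReal Topology

namespace C1

lemma co_sub {k : ℕ} (X Y : Mat k) : co (X - Y) = co X - co Y := by
  funext p
  simp only [co, Matrix.sub_apply, Complex.sub_re, Complex.sub_im, Pi.sub_apply]
  ring

end C1

theorem t_C1 (hco : S_CO) (hm : S_HM) (hav : S_AVG) (hder : S_DER) (har : S_AREA) (him : S_IMG)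
    (hvol : S_VOL) (hmu : S_MU2) (hlip : S_LIP) (hcin : S_CIN) : S_C1 := by
  intro d e F hF
  obtain ⟨q, hq⟩ := hmu (Fin d ⊕ Fin e) F
  choose CL hCL0 hCL using fun i => hlip (Fin d ⊕ Fin e) (F i)
  set CLs : ℝ := 1 + ∑ i, CL i with hCLs
  set CF : ℝ := 1 + ∑ i, (F i).sum (fun _ c => ‖c‖) with hCF
  have hFs0 : ∀ i, 0 ≤ (F i).sum (fun _ c => ‖c‖) := fun i => Finset.sum_nonneg fun _ _ => norm_nonneg _
  have hCLs1 : 1 ≤ CLs := by
    have : 0 ≤ ∑ i, CL i := Finset.sum_nonneg fun i _ => hCL0 i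
    linarith
  have hCF1 : 1 ≤ CF := by
    have : 0 ≤ ∑ i, (F i).sum (fun _ c => ‖c‖) := Finset.sum_nonneg fun i _ => hFs0 i
    linarith
  have hCLi : ∀ i, CL i ≤ CLs := fun i => by
    have := Finset.single_le_sum (f := CL) (fun j _ => hCL0 j) (Finset.mem_univ i)
    linarith
  have hCFi : ∀ i, (F i).sum (fun _ c => ‖c‖) ≤ CF := fun i => by
    have := Finset.single_le_sum (f := fun i => (F i).sum (fun _ c => ‖c‖)) (fun j _ => hFs0 j)
      (Finset.mem_univ i)
    linarith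
  set C : ℝ := ((q : ℝ) + 1) * CF ^ d * CLs ^ e with hC
  have hq1 : (1 : ℝ) ≤ (q : ℝ) + 1 := by
    have : (0 : ℝ) ≤ q := Nat.cast_nonneg q
    linarith
  have hC1 : 1 ≤ C := by
    have h1 : 1 ≤ CF ^ d := one_le_pow₀ hCF1
    have h2 : 1 ≤ CLs ^ e := one_le_pow₀ hCLs1
    calc (1 : ℝ) = 1 * 1 * 1 := by norm_num
      _ ≤ C := by
        rw [hC]
        exact mul_le_mul (mul_le_mul hq1 h1 zero_le_one (by positivity)) h2 zero_le_one (by positivity)
  refine ⟨C, hC1, ?_⟩
  intro k hk G hG c r hc hr hJ hfib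
  obtain ⟨hcayI, hcayC⟩ := hcin k
  obtain ⟨hco1, hco2⟩ := hco k
  -- Hermitian values
  have hherm : ∀ (U : (Fin d ⊕ Fin e) → UU k) (i : (Fin d ⊕ Fin e)), (pol U (F i) : Mat k)ᴴ = pol U (F i) :=
    fun U i => hm (Fin d ⊕ Fin e) k U (F i) (hF i)
  have hsk : (Real.sqrt k) ^ 2 = (k : ℝ) := Real.sq_sqrt (Nat.cast_nonneg k)
  have hsk0 : 0 < Real.sqrt k := Real.sqrt_pos.2 (by exact_mod_cast hk)
  -- the ball
  set V : ℝ → ℝ≥0∞ := fun R => volume {x : Vc k | sq x ≤ R ^ 2} with hV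
  obtain ⟨hv1, hv2, hv3, hv4⟩ := hvol k
  have hVs : ∀ R : ℝ, 0 < R → V R = ENNReal.ofReal (R ^ (k ^ 2)) * volume {x : Vc k | sq x ≤ 1} :=
    fun R hR => hv1 R hR
  have hVmul : ∀ R : ℝ, 0 < R → V (Real.sqrt k * R) = ENNReal.ofReal (R ^ (k ^ 2)) * V (Real.sqrt k) := by
    intro R hR
    rw [hVs _ (mul_pos hsk0 hR), hVs _ hsk0, mul_pow, mul_comm (Real.sqrt k ^ (k ^ 2)),
      ENNReal.ofReal_mul (by positivity), mul_assoc]
  have hV0 : V (Real.sqrt k) ≠ 0 := by
    rw [hVs _ hsk0]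
    refine mul_ne_zero ?_ hv2
    rw [Ne, ENNReal.ofReal_eq_zero, not_le]
    positivity
  have hVt : V (Real.sqrt k) ≠ ⊤ := by
    rw [hVs _ hsk0]
    exact ENNReal.mul_ne_top ENNReal.ofReal_ne_top hv3
  -- compactness of the ball
  have hsqc : Continuous (sq : Vc k → ℝ) := by
    unfold sq
    fun_prop
  have hball : IsCompact {x : Vc k | sq x ≤ (k : ℝ)} := by
    have h1 : {x : Vc k | sq x ≤ (k : ℝ)} ⊆ (fun x : Vc k => (Real.sqrt k) • x) '' {x : Vc k | sq x ≤ 1} := by
      intro x hx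
      refine ⟨(Real.sqrt k)⁻¹ • x, ?_, ?_⟩
      · have : sq ((Real.sqrt k)⁻¹ • x) = (k : ℝ)⁻¹ * sq x := by
          unfold sq
          rw [Finset.mul_sum]
          refine Finset.sum_congr rfl fun p _ => ?_
          rw [Pi.smul_apply, smul_eq_mul, mul_pow, inv_pow, hsk]
        rw [Set.mem_ofPred_eq] at hx ⊢
        rw [this, inv_mul_le_iff₀ (by exact_mod_cast hk), mul_one]
        exact hx
      · simp only
        rw [smul_smul, mul_inv_cancel₀ hsk0.ne', one_smul]
    refine IsCompact.of_isClosed_subset (hv4.image (continuous_const_smul _)) ?_ h1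
    exact isClosed_le hsqc continuous_const
  set B : Set ((Fin d ⊕ Fin e) → Vc k) := {A | ∀ i, sq (A i) ≤ (k : ℝ)} with hB
  have hBpi : B = Set.pi Set.univ (fun _ : (Fin d ⊕ Fin e) => {x : Vc k | sq x ≤ (k : ℝ)}) := by
    ext A; simp [hB]
  have hBc : IsCompact B := by
    rw [hBpi]
    exact isCompact_univ_pi fun _ => hball
  have hBm : MeasurableSet B := hBc.isClosed.measurableSet
  have hBv : volume B = V (Real.sqrt k) ^ (d + e) := by
    rw [hBpi, volume_pi_pi]
    simp only [Finset.prod_const, hV, hsk]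
    congr 1
    simp
  have hBt : volume B ≠ ⊤ := by
    rw [hBv]; exact ENNReal.pow_ne_top hVt
  obtain ⟨U₀, hU₀⟩ := hav (Fin d ⊕ Fin e) k G hG.measurableSet B hBm hBt
  have hchc : Continuous (chart U₀ : ((Fin d ⊕ Fin e) → Vc k) → ((Fin d ⊕ Fin e) → UU k)) := by
    unfold chart
    refine continuous_pi fun i => ?_
    exact continuous_const.mul (hcayC.comp (continuous_apply i))
  have hchi : Function.Injective (chart U₀ : ((Fin d ⊕ Fin e) → Vc k) → ((Fin d ⊕ Fin e) → UU k)) := by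
    intro A A' h
    funext i
    have h1 := congrFun h i
    simp only [chart] at h1
    exact hcayI (mul_left_cancel h1)
  set E : Set ((Fin d ⊕ Fin e) → Vc k) := {A ∈ B | chart U₀ A ∈ G} with hE
  have hEc : IsCompact E := by
    have : E = B ∩ (chart U₀) ⁻¹' G := rfl
    rw [this]
    exact hBc.inter_right (hG.preimage hchc)
  choose P' hP' hP'det using fun A => hder (Fin d ⊕ Fin e) k U₀ F hF A
  have hPsic : Continuous (Psi U₀ F : ((Fin d ⊕ Fin e) → Vc k) → ((Fin d ⊕ Fin e) → Vc k)) :=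
    continuous_iff_continuousAt.2 fun A => (hP' A).continuousAt
  set Y : Set ((Fin d ⊕ Fin e) → Vc k) := Psi U₀ F '' E with hY
  have hYc : IsCompact Y := hEc.image hPsic
  -- recover the values from Psi
  have hrec : ∀ (A : (Fin d ⊕ Fin e) → Vc k) (i : (Fin d ⊕ Fin e)), herm (Psi U₀ F A i) = (pol (chart U₀ A) (F i) : Mat k) := by
    intro A i
    exact (hco2 _ (hherm (chart U₀ A) i)).1
  have harea := har ((Fin d ⊕ Fin e) → Vc k) volume (Psi U₀ F) P' E hEc.isClosed.measurableSet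
    (fun x _ => hP' x) c hc
    (fun x hx => (hJ _ hx.2).trans (hP'det x hx.1)) (q ^ (k ^ 2))
    (by
      intro z T hT
      have h1 : (T.image (chart U₀)).card ≤ q ^ (k ^ 2) := by
        apply hq k (fun i => herm (z i)) (T.image (chart U₀))
        intro U hU
        rw [Finset.mem_image] at hU
        obtain ⟨x, hx, rfl⟩ := hU
        obtain ⟨hxE, hxz⟩ := hT x hx
        refine ⟨fun i => ?_, ?_⟩
        · rw [← hrec x i, hxz]
        · intro h0
          have := hJ _ hxE.2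
          rw [h0, norm_zero] at this
          linarith
      rwa [Finset.card_image_of_injective _ hchi] at h1)
    Y hYc.isClosed.measurableSet (le_refl _)
  have hsqhs : ∀ X : Mat k, Xᴴ = X → sq (co X) = k * hs X ^ 2 := fun X hX => (hco2 X hX).2
  have himg := him d e k Y hYc.isClosed.measurableSet (Real.sqrt k * CF) (Real.sqrt k * (CLs * r))
    (by positivity) (by positivity)
    (by
      rintro z ⟨A, _, rfl⟩ i
      have h1 : sq (Psi U₀ F A i) = k * hs (pol (chart U₀ A) (F i) : Mat k) ^ 2 :=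
        hsqhs _ (hherm _ i)
      rw [h1, mul_pow, hsk]
      refine mul_le_mul_of_nonneg_left ?_ (Nat.cast_nonneg k)
      refine pow_le_pow_left₀ (THS.hs_nonneg _) ?_ 2
      exact (THS.hs_le_norm _).trans ((THS.norm_pol_le _ _).trans (hCFi i)))
    (by
      rintro z ⟨A, hA, rfl⟩ z' ⟨A', hA', rfl⟩ hzz i
      have h1 : ∀ j, (pol (chart U₀ A) (F (Sum.inl j)) : Mat k) = pol (chart U₀ A') (F (Sum.inl j)) := by
        intro j
        rw [← hrec A (Sum.inl j), ← hrec A' (Sum.inl j), hzz j]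
      have h2 := hfib _ hA.2 _ hA'.2 h1
      have h3 := hCL (Sum.inr i) k (chart U₀ A) (chart U₀ A') r hr.le h2
      have h4 : Psi U₀ F A (Sum.inr i) - Psi U₀ F A' (Sum.inr i) =
          co ((pol (chart U₀ A) (F (Sum.inr i)) : Mat k) - pol (chart U₀ A') (F (Sum.inr i))) := by
        rw [C1.co_sub]; rfl
      have h5 : ((pol (chart U₀ A) (F (Sum.inr i)) : Mat k) - pol (chart U₀ A') (F (Sum.inr i)))ᴴ =
          (pol (chart U₀ A) (F (Sum.inr i)) : Mat k) - pol (chart U₀ A') (F (Sum.inr i)) := by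
        rw [Matrix.conjTranspose_sub, hherm, hherm]
      rw [h4, hsqhs _ h5, mul_pow, hsk]
      refine mul_le_mul_of_nonneg_left ?_ (Nat.cast_nonneg k)
      refine pow_le_pow_left₀ (THS.hs_nonneg _) ?_ 2
      exact h3.trans (mul_le_mul_of_nonneg_right (hCLi _) hr.le))
  have himg' : volume Y ≤ V (Real.sqrt k * CF) ^ d * V (Real.sqrt k * (CLs * r)) ^ e := himg
  rw [hVmul CF (by linarith), hVmul (CLs * r) (by positivity)] at himg'
  -- assemble
  have h1 : (haarP k (Fin d ⊕ Fin e) G * ENNReal.ofReal c) * V (Real.sqrt k) ^ (d + e) ≤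
      ENNReal.ofReal ((C * r ^ e) ^ (k ^ 2)) * V (Real.sqrt k) ^ (d + e) := by
    calc (haarP k (Fin d ⊕ Fin e) G * ENNReal.ofReal c) * V (Real.sqrt k) ^ (d + e)
        = ENNReal.ofReal c * (haarP k (Fin d ⊕ Fin e) G * volume B) := by rw [hBv]; ring
      _ ≤ ENNReal.ofReal c * volume E := by gcongr
      _ ≤ ((q ^ (k ^ 2) : ℕ) : ℝ≥0∞) * volume Y := harea
      _ ≤ ((q ^ (k ^ 2) : ℕ) : ℝ≥0∞) * ((ENNReal.ofReal (CF ^ (k ^ 2)) * V (Real.sqrt k)) ^ d *
            (ENNReal.ofReal ((CLs * r) ^ (k ^ 2)) * V (Real.sqrt k)) ^ e) := by gcongr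
      _ = (((q ^ (k ^ 2) : ℕ) : ℝ≥0∞) * (ENNReal.ofReal (CF ^ (k ^ 2)) ^ d *
            ENNReal.ofReal ((CLs * r) ^ (k ^ 2)) ^ e)) * V (Real.sqrt k) ^ (d + e) := by
          rw [pow_add]; ring
      _ ≤ _ := by
          gcongr
          rw [← ENNReal.ofReal_pow (by positivity), ← ENNReal.ofReal_pow (by positivity),
            ← ENNReal.ofReal_natCast, ← ENNReal.ofReal_mul (by positivity),
            ← ENNReal.ofReal_mul (by positivity)]
          apply ENNReal.ofReal_le_ofReal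
          have e1 : (C * r ^ e) ^ (k ^ 2) = ((q : ℝ) + 1) ^ (k ^ 2) *
              ((CF ^ (k ^ 2)) ^ d * ((CLs * r) ^ (k ^ 2)) ^ e) := by
            rw [hC]
            simp only [mul_pow, ← pow_mul]
            rw [mul_comm d (k ^ 2), mul_comm e (k ^ 2)]
            ring
          rw [e1]
          refine mul_le_mul_of_nonneg_right ?_ (by positivity)
          push_cast
          exact pow_le_pow_left₀ (Nat.cast_nonneg q) (by linarith) _
  have h2 : V (Real.sqrt k) ^ (d + e) ≠ 0 := pow_ne_zero _ hV0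
  have h3 : V (Real.sqrt k) ^ (d + e) ≠ ⊤ := ENNReal.pow_ne_top hVt
  exact (ENNReal.mul_le_mul_iff_left h2 h3).1 h1

end Pool.Agent.H755R2.NG
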