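import Pool.Agent.H755R2.NG.Stubs
import Pool.Agent.H667R2.FG.HS

namespace Pool.Agent.H755R2.NG

open MeasureTheory Matrix Filter Pool.Agent.H667R2.FG Pool.Agent.H667R2.FG.P
open scoped Matrix.Norms.L2Operator ComplexConjugate ENNReal Topology

namespace C2aux

theorem integrable_hs {ι : Type} [Fintype ι] (k : ℕ) (a : FreeGroup ι →₀ ℂ) :
    Integrable (fun U : ι → UU k => hs (pol U a : Mat k) ^ 2) (haarP k ι) := by
  have hc : Continuous fun U : ι → UU k => hs (pol U a : Mat k) ^ 2 :=
    (continuous_hs.comp (continuous_pol a)).pow 2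
  exact hc.integrable_of_hasCompactSupport (HasCompactSupport.of_compactSpace _)

end C2aux

open C2aux in
theorem t_C2 (hlim : S_MIC) (hrep : S_REP) (hn : S_NRM) (hvn : S_VN) : S_C2 := by
  intro ι _ _ d F hSA hmem r hr
  set n : ℝ := (Fintype.card ι : ℝ) with hnd
  have hn0 : 0 ≤ n := Nat.cast_nonneg _
  set ρ : ℝ := r / (8 * (n + 1)) with hρd
  have hρ : 0 < ρ := by positivity
  choose Q hQ using fun i : ι => hvn ι d F hSA hmem i ρ hρ
  choose a ha using fun i : ι => hrep ι d F i (Q i)
  have hnorm : ∀ i, ∑ g ∈ (a i).support, ‖a i g‖ ^ 2 ≤ ρ ^ 2 := by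
    intro i
    rw [← hn ι (a i)]
    have h1 := ha i (Ell (FreeGroup ι) →L[ℂ] Ell (FreeGroup ι)) (lamU ι)
    rw [h1]
    have h2 := hQ i
    have h3 : ((lamU ι i : unitary (Ell (FreeGroup ι) →L[ℂ] Ell (FreeGroup ι))) : 
      Ell (FreeGroup ι) →L[ℂ] Ell (FreeGroup ι)) = lam (FreeGroup.of i) := rfl
    rw [h3]
    exact pow_le_pow_left₀ (norm_nonneg _) h2 2
  have hev : ∀ᶠ k : ℕ in atTop, ∀ i, ∫ U, hs (pol U (a i) : Mat k) ^ 2 ∂(haarP k ι) < 2 * ρ ^ 2 := by
    rw [eventually_all]
    intro i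
    refine (hlim ι (a i)).eventually_lt_const ?_
    have := hnorm i
    have h2 : 0 < ρ ^ 2 := by positivity
    linarith
  filter_upwards [hev] with k hk
  refine ⟨{U | ∀ i, hs (pol U (a i) : Mat k) ≤ r / 2}, ?_, ?_, ?_⟩
  · rw [Set.ofPred_forall]
    exact isClosed_iInter fun i => isClosed_le (continuous_hs.comp (continuous_pol (a i))) continuous_const
  · set G : Set (ι → UU k) := {U | ∀ i, hs (pol U (a i) : Mat k) ≤ r / 2} with hG
    have hGc : IsClosed G := by
      rw [hG, Set.ofPred_forall]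
      exact isClosed_iInter fun i => 
        isClosed_le (continuous_hs.comp (continuous_pol (a i))) continuous_const
    have h1 : ∀ i, (haarP k ι).real {U | (r / 2) ^ 2 ≤ hs (pol U (a i) : Mat k) ^ 2} ≤ 
        2 * ρ ^ 2 / (r / 2) ^ 2 := by
      intro i
      have h2 := mul_meas_ge_le_integral_of_nonneg (μ := haarP k ι) 
        (Eventually.of_forall fun U => sq_nonneg (hs (pol U (a i) : Mat k))) (integrable_hs k (a i)) 
        ((r / 2) ^ 2)
      rw [le_div_iff₀ (by positivity), mul_comm]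
      exact h2.trans (hk i).le
    have h3 : (haarP k ι).real Gᶜ ≤ 1 / 8 := by
      have hsub : Gᶜ ⊆ ⋃ i, {U | (r / 2) ^ 2 ≤ hs (pol U (a i) : Mat k) ^ 2} := by
        intro U hU
        have : ¬ ∀ i, hs (pol U (a i) : Mat k) ≤ r / 2 := hU
        push Not at this
        obtain ⟨i, hi⟩ := this
        rw [Set.mem_iUnion]
        exact ⟨i, pow_le_pow_left₀ (by linarith) hi.le 2⟩
      have h4 : (haarP k ι).real Gᶜ ≤ ∑ i : ι, 2 * ρ ^ 2 / (r / 2) ^ 2 := 
        (measureReal_mono hsub).trans ((measureReal_iUnion_fintype_le _).trans 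
          (Finset.sum_le_sum fun i _ => h1 i))
      rw [Finset.sum_const, Finset.card_univ, nsmul_eq_mul] at h4
      refine h4.trans ?_
      rw [hρd, ← hnd]
      have e1 : n * (2 * (r / (8 * (n + 1))) ^ 2 / (r / 2) ^ 2) = n / (8 * (n + 1) ^ 2) := by
        field_simp
        ring
      rw [e1, div_le_div_iff₀ (by positivity) (by norm_num)]
      nlinarith
    have h5 : (haarP k ι).real G = 1 - (haarP k ι).real Gᶜ := by
      have := measureReal_compl (μ := haarP k ι) hGc.measurableSet
      rw [this, probReal_univ]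
      ring
    rw [ENNReal.ofReal_le_iff_le_toReal (measure_ne_top _ _)]
    show 7 / 8 ≤ (haarP k ι).real G
    rw [h5]
    linarith
  · intro U hU U' hU' hF i
    have e1 := ha i (Mat k) U
    have e2 := ha i (Mat k) U'
    have e3 : (fun j => (pol U (F j) : Mat k)) = fun j => pol U' (F j) := funext hF
    rw [e3] at e1
    have e4 : (U i : Mat k) - (U' i : Mat k) = pol U (a i) - pol U' (a i) := by
      rw [e1, e2]
      abel
    rw [e4]
    refine (hs_sub_le _ _).trans ?_
    have := hU i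
    have := hU' i
    linarith

end Pool.Agent.H755R2.NG
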