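import Pool.Agent.H755R2.NG.Stubs

/-! CAY: the Cayley transform of a Hermitian matrix is unitary. -/

set_option autoImplicit false

namespace Pool.Agent.H755R2.NG

open MeasureTheory Matrix Filter Pool.Agent.H667R2.FG
open scoped Matrix.Norms.L2Operator ComplexConjugate ENNReal Topology ComplexOrder

namespace CAYaux

variable {k : ℕ}

theorem herm_conj (S : Vc k) : (herm S)ᴴ = herm S := by
  ext i j
  simp only [Matrix.conjTranspose_apply, herm, Complex.star_def, map_add, map_mul,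
    Complex.conj_ofReal, Complex.conj_I]
  push_cast
  ring

theorem isUnit_one_add_smul (H : Mat k) (hH : Hᴴ = H) (c : ℂ) (hc : c.re = 0) :
    IsUnit (1 + c • H) := by
  rw [Matrix.isUnit_iff_isUnit_det, isUnit_iff_ne_zero]
  intro hdet
  obtain ⟨v, hv, hv0⟩ := Matrix.exists_mulVec_eq_zero_iff.2 hdet
  have h1 : v + c • (H *ᵥ v) = 0 := by
    rw [Matrix.add_mulVec, Matrix.one_mulVec, Matrix.smul_mulVec] at hv0
    exact hv0
  have h2 : star v ⬝ᵥ v + c * (star v ⬝ᵥ (H *ᵥ v)) = 0 := by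
    have := congrArg (fun u => star v ⬝ᵥ u) h1
    simpa [dotProduct_add, dotProduct_smul] using this
  have h3 : (star v ⬝ᵥ (H *ᵥ v)).im = 0 :=
    Matrix.IsHermitian.im_star_dotProduct_mulVec_self (𝕜 := ℂ) (A := H) hH v
  have h4 : (star v ⬝ᵥ v).im = 0 := by
    have := Matrix.IsHermitian.im_star_dotProduct_mulVec_self (𝕜 := ℂ) (A := (1 : Mat k))
      (Matrix.isHermitian_one) v
    rwa [Matrix.one_mulVec] at this
  have h5 : (star v ⬝ᵥ v).re = 0 := by
    have := congrArg Complex.re h2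
    simpa [Complex.add_re, Complex.mul_re, hc, h3] using this
  have h6 : star v ⬝ᵥ v = 0 := Complex.ext h5 h4
  exact hv (dotProduct_star_self_eq_zero.1 h6)

end CAYaux

open CAYaux in
theorem t_CAY : S_CAY := by
  intro k S
  set H := herm S with hHdef
  have hH : Hᴴ = H := herm_conj S
  have hu1 : IsUnit (1 - Complex.I • H) := by
    have := isUnit_one_add_smul H hH (-Complex.I) (by simp)
    rwa [neg_smul, ← sub_eq_add_neg] at this
  have hu2 : IsUnit (1 + Complex.I • H) := isUnit_one_add_smul H hH Complex.I (by simp)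
  refine ⟨?_, hu1, hu2⟩
  set P := 1 - Complex.I • H with hP
  set Q := 1 + Complex.I • H with hQ
  have hPQ : P + Q = (2 : ℂ) • 1 := by
    rw [hP, hQ, two_smul]; abel
  have hcomm : P * Q = Q * P := by
    rw [hP, hQ]
    simp only [mul_add, add_mul, sub_mul, mul_sub, one_mul, mul_one]
    abel
  have hPi : P * P⁻¹ = 1 := Matrix.mul_nonsing_inv _ ((Matrix.isUnit_iff_isUnit_det _).1 hu1)
  have hPi' : P⁻¹ * P = 1 := Matrix.nonsing_inv_mul _ ((Matrix.isUnit_iff_isUnit_det _).1 hu1)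
  have hQi : Q * Q⁻¹ = 1 := Matrix.mul_nonsing_inv _ ((Matrix.isUnit_iff_isUnit_det _).1 hu2)
  have hQi' : Q⁻¹ * Q = 1 := Matrix.nonsing_inv_mul _ ((Matrix.isUnit_iff_isUnit_det _).1 hu2)
  have hc : cayM H = Q * P⁻¹ := by
    have h : (2 : ℂ) • P⁻¹ = (P + Q) * P⁻¹ := by rw [hPQ, smul_mul_assoc, one_mul]
    rw [cayM, ← hP, h, add_mul, hPi]
    abel
  have hstarP : star P = Q := by
    rw [hP, hQ, Matrix.star_eq_conjTranspose, Matrix.conjTranspose_sub,
      Matrix.conjTranspose_one, Matrix.conjTranspose_smul, hH]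
    simp
  have hstarQ : star Q = P := by rw [← hstarP, star_star]
  have hstar : star (cayM H) = Q⁻¹ * P := by
    rw [hc, star_mul, hstarQ]
    congr 1
    rw [Matrix.star_eq_conjTranspose, Matrix.conjTranspose_nonsing_inv,
      ← Matrix.star_eq_conjTranspose, hstarP]
  rw [Matrix.mem_unitaryGroup_iff, hstar, hc]
  have h1 : P⁻¹ * Q⁻¹ = Q⁻¹ * P⁻¹ := by
    rw [← Matrix.mul_inv_rev, ← Matrix.mul_inv_rev, hcomm]
  calc Q * P⁻¹ * (Q⁻¹ * P) = Q * (P⁻¹ * Q⁻¹) * P := by simp only [mul_assoc]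
    _ = Q * (Q⁻¹ * P⁻¹) * P := by rw [h1]
    _ = (Q * Q⁻¹) * (P⁻¹ * P) := by simp only [mul_assoc]
    _ = 1 := by rw [hQi, hPi', one_mul]

end Pool.Agent.H755R2.NG
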