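import Pool.Agent.H755R2.NG.Stubs

namespace Pool.Agent.H755R2.NG

open MeasureTheory Matrix Filter Pool.Agent.H667R2.FG
open scoped Matrix.Norms.L2Operator ComplexConjugate ENNReal

theorem CIN_herm_cont (k : ℕ) : Continuous (fun S : Vc k => (herm S : Mat k)) := by
  refine continuous_pi (fun i => continuous_pi (fun j => ?_))
  unfold herm
  fun_prop

theorem CIN_cayM_cont (hC : S_CAY) (k : ℕ) :
    Continuous (fun S : Vc k => (cayM (herm S) : Mat k)) := by
  have h1 : Continuous (fun S : Vc k => (1 - Complex.I • herm S : Mat k)) :=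
    continuous_const.sub ((CIN_herm_cont k).const_smul Complex.I)
  have h2 : Continuous (fun S : Vc k => ((1 - Complex.I • herm S)⁻¹ : Mat k)) := by
    have h3 : (fun S : Vc k => ((1 - Complex.I • herm S)⁻¹ : Mat k)) = fun S : Vc k =>
        ((1 - Complex.I • herm S : Mat k).det)⁻¹ • (1 - Complex.I • herm S : Mat k).adjugate := by
      funext S
      rw [Matrix.inv_def, Ring.inverse_eq_inv']
    rw [h3]
    refine Continuous.smul (Continuous.inv₀ h1.matrix_det (fun S => ?_)) h1.matrix_adjugate
    have h4 := (hC k S).2.1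
    exact ((Matrix.isUnit_iff_isUnit_det _).mp h4).ne_zero
  exact (h2.const_smul (2 : ℂ)).sub continuous_const

theorem t_CIN (hC : S_CAY) (hco : S_CO) : S_CIN := by
  intro k
  have hval : ∀ S : Vc k, ((cay S : UU k) : Mat k) = cayM (herm S) := by
    intro S
    unfold cay
    rw [dif_pos (hC k S).1]
  refine ⟨fun S S' h => ?_, ?_⟩
  · have h1 : cayM (herm S) = cayM (herm S') := by rw [← hval, ← hval, h]
    unfold cayM at h1
    have h2 : (2 : ℂ) • (1 - Complex.I • herm S : Mat k)⁻¹ =
        (2 : ℂ) • (1 - Complex.I • herm S' : Mat k)⁻¹ := sub_left_injective h1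
    have h3 : (1 - Complex.I • herm S : Mat k)⁻¹ = (1 - Complex.I • herm S' : Mat k)⁻¹ :=
      smul_right_injective _ (two_ne_zero) h2
    have h4 : (1 - Complex.I • herm S : Mat k) = 1 - Complex.I • herm S' := by
      have e1 := Matrix.nonsing_inv_nonsing_inv _ ((Matrix.isUnit_iff_isUnit_det _).mp (hC k S).2.1)
      have e2 := Matrix.nonsing_inv_nonsing_inv _
        ((Matrix.isUnit_iff_isUnit_det _).mp (hC k S').2.1)
      rw [← e1, ← e2, h3]
    have h5 : Complex.I • herm S = Complex.I • herm S' := sub_right_injective h4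
    have h6 : herm S = herm S' := smul_right_injective _ Complex.I_ne_zero h5
    rw [← ((hco k).1 S).2, ← ((hco k).1 S').2, h6]
  · refine Continuous.congr (f := fun S : Vc k => (⟨cayM (herm S), (hC k S).1⟩ : UU k)) ?_ ?_
    · exact Continuous.subtype_mk (CIN_cayM_cont hC k) _
    · intro S
      exact Subtype.ext (hval S).symm

end Pool.Agent.H755R2.NG
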