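import Pool.Agent.H755R2.NG.Stubs

set_option autoImplicit false

open MeasureTheory Set
open scoped ENNReal

namespace Pool.Agent.H755R2.NG

namespace CIRCaux

theorem sin_ge {x : ℝ} (h1 : 1 / 2 ≤ x) (h2 : x ≤ 2) : 2 / 5 ≤ Real.sin x := by
  have h0 : 2 / 5 ≤ Real.sin (1 / 2) := by
    have := Real.sin_gt_sub_cube (x := 1 / 2) (by norm_num)
    norm_num at this ⊢
    linarith
  have hpi : 3 < Real.pi := Real.pi_gt_three
  rcases le_total x (Real.pi / 2) with h | h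
  · exact h0.trans (Real.sin_le_sin_of_le_of_le_pi_div_two (by linarith) h h1)
  · rw [← Real.sin_pi_sub]
    exact h0.trans (Real.sin_le_sin_of_le_of_le_pi_div_two (by linarith) (by linarith) (by linarith))

theorem cos_sub {x y : ℝ} (hx : x ∈ Icc (1 / 2 : ℝ) 2) (hy : y ∈ Icc (1 / 2 : ℝ) 2) (h : x ≤ y) :
    2 / 5 * (y - x) ≤ Real.cos x - Real.cos y := by
  have := (convex_Icc (1 / 2 : ℝ) 2).mul_sub_le_image_sub_of_le_deriv (f := fun t => -Real.cos t)
    (Real.continuous_cos.neg.continuousOn) (Real.differentiable_cos.neg.differentiableOn)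
    (C := 2 / 5) (by
      intro t ht
      rw [interior_Icc] at ht
      have hd : deriv (fun t => -Real.cos t) t = Real.sin t := by
        have := (Real.hasDerivAt_cos t).neg
        simp only [neg_neg] at this
        exact this.deriv
      rw [hd]
      exact sin_ge ht.1.le ht.2.le) x hx y hy h
  linarith

theorem exists_phi (a : ℝ) : ∃ ψ ∈ Icc (1 / 2 : ℝ) 2, ∀ φ ∈ Icc (1 / 2 : ℝ) 2,
    2 / 5 * |φ - ψ| ≤ |Real.cos φ - a| := by
  have m1 : (1 / 2 : ℝ) ∈ Icc (1 / 2 : ℝ) 2 := ⟨le_refl _, by norm_num⟩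
  have m2 : (2 : ℝ) ∈ Icc (1 / 2 : ℝ) 2 := ⟨by norm_num, le_refl _⟩
  by_cases h1 : Real.cos (1 / 2) ≤ a
  · refine ⟨1 / 2, m1, fun φ hφ => ?_⟩
    have h := cos_sub m1 hφ hφ.1
    rw [abs_of_nonneg (by linarith [hφ.1]), abs_sub_comm]
    refine le_trans ?_ (le_abs_self _)
    linarith
  by_cases h2 : a ≤ Real.cos 2
  · refine ⟨2, m2, fun φ hφ => ?_⟩
    have h := cos_sub hφ m2 hφ.2
    rw [abs_sub_comm φ 2, abs_of_nonneg (by linarith [hφ.2])]
    refine le_trans ?_ (le_abs_self _)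
    linarith
  push Not at h1 h2
  obtain ⟨ψ, hψ, he⟩ := intermediate_value_Icc' (by norm_num : (1 / 2 : ℝ) ≤ 2)
    (Real.continuous_cos.continuousOn) (⟨h2.le, h1.le⟩ : a ∈ Icc (Real.cos 2) (Real.cos (1 / 2)))
  refine ⟨ψ, hψ, fun φ hφ => ?_⟩
  rw [← he]
  rcases le_total φ ψ with h | h
  · have := cos_sub hφ hψ h
    rw [abs_sub_comm φ ψ, abs_of_nonneg (by linarith)]
    exact this.trans (le_abs_self _)
  · have := cos_sub hψ hφ h
    rw [abs_of_nonneg (by linarith), abs_sub_comm]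
    exact this.trans (le_abs_self _)

theorem fin_aux (α : ℝ) (h1 : α ≤ 1 / 2) :
    ∫⁻ s in Icc (-2 : ℝ) 2, (ENNReal.ofReal (2 / 5 * |s|)) ^ (-α) ≠ ⊤ := by
  have hi : IntegrableOn (fun s : ℝ => (2 / 5 * |s|) ^ (-α)) (Icc (-2 : ℝ) 2) := by
    have h0 : IntervalIntegrable (fun s : ℝ => |s| ^ (-α)) volume 0 2 := by
      have := intervalIntegral.intervalIntegrable_rpow' (a := 0) (b := 2) (r := -α) (by linarith)
      refine this.congr ?_
      intro x hx
      rw [uIoc_of_le (by norm_num)] at hx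
      simp only
      rw [abs_of_pos hx.1]
    have h2 : IntervalIntegrable (fun s : ℝ => |s| ^ (-α)) volume (-2) 0 := by
      have := (IntervalIntegrable.iff_comp_neg (f := fun s : ℝ => |s| ^ (-α)) (a := 0) (b := 2)).1 h0
      simpa using this.symm
    have h3 := h2.trans h0
    rw [intervalIntegrable_iff_integrableOn_Icc_of_le (by norm_num)] at h3
    have h5 : IntegrableOn (fun s : ℝ => (2 / 5 : ℝ) ^ (-α) * |s| ^ (-α)) (Icc (-2 : ℝ) 2) :=
      h3.const_mul ((2 / 5 : ℝ) ^ (-α))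
    refine IntegrableOn.congr_fun h5 ?_ measurableSet_Icc
    intro x _
    simp only
    rw [Real.mul_rpow (by norm_num) (abs_nonneg x)]
  have h4 := hi.lintegral_lt_top
  refine ne_of_lt (lt_of_le_of_lt (le_of_eq ?_) h4)
  refine lintegral_congr_ae ?_
  have hz : ∀ᵐ s : ℝ ∂(volume.restrict (Icc (-2 : ℝ) 2)), s ≠ 0 :=
    ae_restrict_of_ae (by
      have : ∀ᵐ s : ℝ, s ∉ ({0} : Set ℝ) := measure_eq_zero_iff_ae_notMem.1 (by simp)
      filter_upwards [this] with s hs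
      simpa using hs)
  filter_upwards [hz] with s hs
  exact ENNReal.ofReal_rpow_of_pos (by have := abs_pos.2 hs; positivity)

end CIRCaux

open CIRCaux in
theorem t_CIRC : S_CIRC := by
  intro α hα hα1
  refine ⟨(∫⁻ s in Icc (-2 : ℝ) 2, (ENNReal.ofReal (2 / 5 * |s|)) ^ (-α)) + 1, ?_, ?_, ?_⟩
  · simp
  · exact ENNReal.add_ne_top.2 ⟨fin_aux α hα1, ENNReal.one_ne_top⟩
  · intro w
    obtain ⟨ψ, hψ, h⟩ := exists_phi w.re
    refine le_trans ?_ (le_add_of_nonneg_right zero_le_one)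
    set f : ℝ → ℝ≥0∞ := (Icc (-2 : ℝ) 2).indicator fun s => (ENNReal.ofReal (2 / 5 * |s|)) ^ (-α)
      with hf
    have h1 : ∫⁻ s in Icc (-2 : ℝ) 2, (ENNReal.ofReal (2 / 5 * |s|)) ^ (-α) = ∫⁻ φ, f (φ - ψ) := by
      rw [lintegral_sub_right_eq_self (μ := (volume : Measure ℝ)) f ψ, hf,
        lintegral_indicator measurableSet_Icc]
    rw [h1, ← lintegral_indicator measurableSet_Icc]
    refine lintegral_mono fun φ => ?_
    by_cases hφ : φ ∈ Icc (1 / 2 : ℝ) 2
    · rw [indicator_of_mem hφ]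
      have hm : φ - ψ ∈ Icc (-2 : ℝ) 2 := ⟨by linarith [hφ.1, hψ.2], by linarith [hφ.2, hψ.1]⟩
      rw [hf, indicator_of_mem hm]
      rw [ENNReal.rpow_neg, ENNReal.rpow_neg, ENNReal.inv_le_inv]
      refine ENNReal.rpow_le_rpow ?_ hα.le
      rw [← ofReal_norm_eq_enorm]
      refine ENNReal.ofReal_le_ofReal ((h φ hφ).trans ?_)
      have := Complex.abs_re_le_norm (Complex.exp (φ * Complex.I) - w)
      rwa [Complex.sub_re, Complex.exp_ofReal_mul_I_re] at this
    · rw [indicator_of_notMem hφ]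
      exact zero_le

end Pool.Agent.H755R2.NG
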