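import Mathlib
import Pool.Agent.H755R2.NG.Stubs

/-! # CONT: continuity of the Jacobian (helper196) -/

namespace Pool.Agent.H755R2.NG

open MeasureTheory Matrix Filter Pool.Agent.H667R2.FG
open scoped Matrix.Norms.L2Operator ComplexConjugate ENNReal Topology

namespace CONTx

variable {k : ℕ} {ι : Type}

theorem cont_lt (i : ι) (b : Bool) : Continuous fun U : ι → UU k => lt U i b := by
  unfold lt
  by_cases hb : b
  · simp only [hb, if_true]
    exact continuous_subtype_val.comp (continuous_apply i)
  · simp only [hb]
    have : (fun U : ι → UU k => (((U i)⁻¹ : UU k) : Mat k)) = fun U => star ((U i : UU k) : Mat k) := by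
      funext U; rfl
    simp only [if_neg Bool.false_ne_true]
    rw [this]
    exact continuous_star.comp (continuous_subtype_val.comp (continuous_apply i))

theorem cont_dlt (h : ι → Mat k) (i : ι) (b : Bool) :
    Continuous fun U : ι → UU k => dlt U h i b := by
  unfold dlt
  by_cases hb : b
  · simp only [hb, if_true]
    exact (continuous_subtype_val.comp (continuous_apply i)).mul continuous_const
  · simp only [hb]
    have : (fun U : ι → UU k => (((U i)⁻¹ : UU k) : Mat k)) = fun U => star ((U i : UU k) : Mat k) := by
      funext U; rfl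
    have hc : Continuous (fun U : ι → UU k => (((U i)⁻¹ : UU k) : Mat k)) := by
      rw [this]
      exact continuous_star.comp (continuous_subtype_val.comp (continuous_apply i))
    exact (continuous_const.mul hc).neg

theorem cont_pL (w : List (ι × Bool)) : Continuous fun U : ι → UU k => pL U w := by
  induction w with
  | nil => unfold pL; simp only [List.map_nil, List.prod_nil]; exact continuous_const
  | cons s w ih =>
    have : (fun U : ι → UU k => pL U (s :: w)) = fun U => lt U s.1 s.2 * pL U w := by
      funext U; simp [pL]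
    rw [this]
    exact (cont_lt s.1 s.2).mul ih

theorem cont_dL (h : ι → Mat k) (w : List (ι × Bool)) :
    Continuous fun U : ι → UU k => dL U h w := by
  induction w with
  | nil => exact continuous_const
  | cons s w ih =>
    have : (fun U : ι → UU k => dL U h (s :: w)) =
        fun U => dlt U h s.1 s.2 * pL U w + lt U s.1 s.2 * dL U h w := rfl
    rw [this]
    exact ((cont_dlt h s.1 s.2).mul (cont_pL w)).add ((cont_lt s.1 s.2).mul ih)

theorem cont_dF [DecidableEq ι] (h : ι → Mat k) (f : FreeGroup ι →₀ ℂ) :
    Continuous fun U : ι → UU k => dF U h f := by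
  unfold dF
  unfold Finsupp.sum
  refine continuous_finsetSum _ (fun w _ => ?_)
  exact (cont_dL h w.toWord).const_smul (f w)

theorem dF_add_smul [DecidableEq ι] (U : ι → UU k) (h : ι → Mat k) (f g : FreeGroup ι →₀ ℂ)
    (c : ℂ) : dF U h (f + c • g) = dF U h f + c • dF U h g := by
  unfold dF
  rw [Finsupp.sum_add_index' (by simp) (by intro a b1 b2; rw [add_smul]),
    Finsupp.sum_smul_index' (by simp), Finsupp.smul_sum]
  congr 1
  refine Finsupp.sum_congr fun w _ => ?_
  rw [smul_eq_mul, mul_smul]

end CONTx

open CONTx in
theorem t_CONT : S_CONT := by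
  intro ι _ _ k f
  set b := Module.finBasis ℂ (ι → Mat k) with hb
  have h1 : (fun p : ℝ × (ι → UU k) => Jd p.2 (fun i => f i + (p.1 : ℂ) • bb i)) =
      fun p : ℝ × (ι → UU k) =>
        (LinearMap.toMatrix b b (DD p.2 (fun i => f i + (p.1 : ℂ) • bb i))).det := by
    funext p
    rw [Jd, LinearMap.det_toMatrix]
  rw [h1]
  apply Continuous.matrix_det
  apply continuous_matrix
  intro r s
  have h2 : (fun p : ℝ × (ι → UU k) =>
      LinearMap.toMatrix b b (DD p.2 (fun i => f i + (p.1 : ℂ) • bb i)) r s) =
      fun p => (b.coord r) (fun i => dF p.2 (b s) (f i) + (p.1 : ℂ) • dF p.2 (b s) (bb i)) := by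
    funext p
    rw [LinearMap.toMatrix_apply]
    have : DD p.2 (fun i => f i + (p.1 : ℂ) • bb i) (b s) =
        fun i => dF p.2 (b s) (f i) + (p.1 : ℂ) • dF p.2 (b s) (bb i) := by
      funext i
      exact dF_add_smul p.2 (b s) (f i) (bb i) (p.1 : ℂ)
    rw [this]
    rfl
  rw [h2]
  have hlin : Continuous (b.coord r) := LinearMap.continuous_of_finiteDimensional _
  apply hlin.comp
  apply continuous_pi
  intro i
  exact ((cont_dF (b s) (f i)).comp continuous_snd).add
    ((Complex.continuous_ofReal.comp continuous_fst).smul ((cont_dF (b s) (bb i)).comp continuous_snd))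

end Pool.Agent.H755R2.NG
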