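import Mathlib
import Pool.Agent.H755R2.NG.Stubs

namespace Pool.Agent.H755R2.NG

open MeasureTheory Matrix Filter Pool.Agent.H667R2.FG
open scoped Matrix.Norms.L2Operator ComplexConjugate ENNReal Topology

theorem continuous_Jd (hK : S_CONT) (ι : Type) [Fintype ι] [DecidableEq ι] (k : ℕ)
    (F : ι → FreeGroup ι →₀ ℂ) : Continuous fun U : ι → UU k => Jd U F := by
  have h := (hK ι k F).comp (Continuous.prodMk_right (0 : ℝ))
  refine h.congr fun U => ?_
  simp

theorem t_CORE (h1 : S_C1) (h2 : S_C2) (hK : S_CONT) : S_CORE := by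
  intro d e he F hF L hL hfreq
  by_contra hcon
  push Not at hcon
  obtain ⟨C, hC1, hC⟩ := h1 d e F hF
  set r : ℝ := 1 / (4 * Real.exp L * C) with hr
  have hCpos : 0 < C := by linarith
  have hden : (0 : ℝ) < 4 * Real.exp L * C := by positivity
  have hrpos : 0 < r := by positivity
  have hexp1 : 1 ≤ Real.exp L := Real.one_le_exp hL
  have hden4 : (4 : ℝ) ≤ 4 * Real.exp L * C := by nlinarith
  have hr1 : r ≤ 1 := by
    rw [hr, div_le_one hden]; linarith
  have hre : r ^ e ≤ r := by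
    calc r ^ e ≤ r ^ 1 := pow_le_pow_of_le_one hrpos.le hr1 he
      _ = r := pow_one r
  have hkey : Real.exp L * (C * r ^ e) ≤ 1 / 4 := by
    have : Real.exp L * (C * r) = 1 / 4 := by
      rw [hr]; field_simp
    calc Real.exp L * (C * r ^ e) ≤ Real.exp L * (C * r) := by gcongr
      _ = 1 / 4 := this
  have h3 := h2 (Fin d ⊕ Fin e) d (fun j => F (Sum.inl j)) (fun j => hF _) hcon r hrpos
  obtain ⟨k, hk1, ⟨G, hGc, hGm, hGf⟩, hk3⟩ :=
    (hfreq.and_eventually (h3.and (eventually_gt_atTop 0))).exists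
  set S : Set (Fin d ⊕ Fin e → UU k) := {U | Real.exp (-(L * k ^ 2)) ≤ ‖Jd U F‖} with hS
  have hSc : IsClosed S := isClosed_le continuous_const (continuous_Jd hK _ k F).norm
  have hmeas : ENNReal.ofReal (5 / 8) ≤ haarP k (Fin d ⊕ Fin e) (G ∩ S) := by
    have e1 := measure_union_add_inter (μ := haarP k (Fin d ⊕ Fin e)) G hSc.measurableSet
    have e2 : haarP k (Fin d ⊕ Fin e) (G ∪ S) ≤ 1 := prob_le_one
    have e3 : ENNReal.ofReal (7 / 8) + ENNReal.ofReal (3 / 4) ≤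
        1 + haarP k (Fin d ⊕ Fin e) (G ∩ S) := by
      calc ENNReal.ofReal (7 / 8) + ENNReal.ofReal (3 / 4)
          ≤ haarP k (Fin d ⊕ Fin e) G + haarP k (Fin d ⊕ Fin e) S := add_le_add hGm hk1
        _ = haarP k (Fin d ⊕ Fin e) (G ∪ S) + haarP k (Fin d ⊕ Fin e) (G ∩ S) := e1.symm
        _ ≤ 1 + haarP k (Fin d ⊕ Fin e) (G ∩ S) := by gcongr
    have e4 : ENNReal.ofReal (7 / 8) + ENNReal.ofReal (3 / 4) = 1 + ENNReal.ofReal (5 / 8) := by
      rw [← ENNReal.ofReal_add (by norm_num) (by norm_num), ← ENNReal.ofReal_one,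
        ← ENNReal.ofReal_add (by norm_num) (by norm_num)]
      norm_num
    rw [e4] at e3
    exact (ENNReal.add_le_add_iff_left ENNReal.one_ne_top).1 e3
  have h5 := hC k hk3 (G ∩ S) (hGc.inter hSc) (Real.exp (-(L * k ^ 2))) r (Real.exp_pos _) hrpos
    (fun U hU => hU.2) (fun U hU U' hU' h => hGf U hU.1 U' hU'.1 h)
  have h6 : ENNReal.ofReal (5 / 8 * Real.exp (-(L * k ^ 2))) ≤
      ENNReal.ofReal ((C * r ^ e) ^ (k ^ 2)) := by
    rw [ENNReal.ofReal_mul (by norm_num)]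
    exact (mul_le_mul_left hmeas _).trans h5
  have h7 : 5 / 8 * Real.exp (-(L * k ^ 2)) ≤ (C * r ^ e) ^ (k ^ 2) :=
    (ENNReal.ofReal_le_ofReal_iff (by positivity)).1 h6
  have h8 : Real.exp (L * k ^ 2) = Real.exp L ^ (k ^ 2) := by
    rw [← Real.exp_nat_mul]; congr 1; push_cast; ring
  have h9 : 5 / 8 ≤ (Real.exp L * (C * r ^ e)) ^ (k ^ 2) := by
    rw [mul_pow, ← h8]
    have : 5 / 8 = Real.exp (L * k ^ 2) * (5 / 8 * Real.exp (-(L * k ^ 2))) := by
      rw [mul_left_comm, ← Real.exp_add]; simp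
    rw [this]
    exact mul_le_mul_of_nonneg_left h7 (Real.exp_pos _).le
  have h10 : (Real.exp L * (C * r ^ e)) ^ (k ^ 2) ≤ 1 / 4 := by
    calc (Real.exp L * (C * r ^ e)) ^ (k ^ 2) ≤ (1 / 4 : ℝ) ^ (k ^ 2) :=
          pow_le_pow_left₀ (by positivity) hkey _
      _ ≤ (1 / 4 : ℝ) ^ 1 := pow_le_pow_of_le_one (by norm_num) (by norm_num)
          (Nat.pos_of_ne_zero (by positivity))
      _ = 1 / 4 := pow_one _
  linarith

end Pool.Agent.H755R2.NG
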