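import Pool.Agent.H755R2.NG.Stubs

namespace Pool.Agent.H755R2.NG

open MeasureTheory Matrix Filter Pool.Agent.H667R2.FG
open scoped Matrix.Norms.L2Operator ComplexConjugate ENNReal

namespace DERaux

/-- `co` as a real-linear map -/
noncomputable def coLin (k : ℕ) : Mat k →ₗ[ℝ] Vc k where
  toFun X := co X
  map_add' X Y := by
    funext p
    simp [co]
    ring
  map_smul' r X := by
    funext p
    simp [co]
    ring

noncomputable def coPi (ι : Type) [Fintype ι] (k : ℕ) : (ι → Mat k) →ₗ[ℝ] (ι → Vc k) where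
  toFun X := fun i => co (X i)
  map_add' X Y := by
    funext i
    exact (coLin k).map_add (X i) (Y i)
  map_smul' r X := by
    funext i
    exact (coLin k).map_smul r (X i)

/-- `X ↦ X - Xᴴ` -/
noncomputable def skew (ι : Type) [Fintype ι] (k : ℕ) : (ι → Mat k) →ₗ[ℝ] (ι → Mat k) where
  toFun X := fun i => X i - (X i)ᴴ
  map_add' X Y := by
    funext i
    simp only [Pi.add_apply, conjTranspose_add]
    abel
  map_smul' r X := by
    funext i
    ext a b
    simp [mul_sub]

end DERaux

theorem t_DER (h1 : S_DER1) (h2 : S_DER2) (h3 : S_DER3) (hco : S_CO) (hm : S_HM) : S_DER := by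
  intro ι _ _ k U₀ F hF A
  obtain ⟨G', hG, hGx⟩ := h1 ι k U₀ F A
  set C : (ι → Mat k) →L[ℝ] (ι → Vc k) := LinearMap.toContinuousLinearMap (DERaux.coPi ι k) with hC
  set D : (ι → Mat k) →L[ℝ] (ι → Mat k) := LinearMap.toContinuousLinearMap (DERaux.skew ι k) with hD
  have hCa : ∀ X : ι → Mat k, C X = fun i => co (X i) := fun X => rfl
  have hDa : ∀ X : ι → Mat k, D X = fun i => X i - (X i)ᴴ := fun X => rfl
  -- the derivative is Hermitian
  have hsk : D.comp G' = 0 := by
    have e1 : HasFDerivAt (fun A' : ι → Vc k => D (fun i => (pol (chart U₀ A') (F i) : Mat k)))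
        (D.comp G') A := D.hasFDerivAt.comp A hG
    have e2 : (fun A' : ι → Vc k => D (fun i => (pol (chart U₀ A') (F i) : Mat k))) =
        fun _ => 0 := by
      funext A'
      rw [hDa]
      funext i
      rw [hm ι k (chart U₀ A') (F i) (hF i), sub_self]
      rfl
    rw [e2] at e1
    exact e1.unique (hasFDerivAt_const 0 A)
  have hherm : ∀ x i, (G' x i)ᴴ = G' x i := by
    intro x i
    have e1 : D (G' x) = 0 := by
      have := congrArg (fun T : (ι → Vc k) →L[ℝ] (ι → Mat k) => T x) hsk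
      simpa using this
    rw [hDa] at e1
    have e2 := congrFun e1 i
    exact (sub_eq_zero.1 e2).symm
  refine ⟨C.comp G', ?_, ?_⟩
  · have e1 : HasFDerivAt (fun A' : ι → Vc k => C (fun i => (pol (chart U₀ A') (F i) : Mat k)))
        (C.comp G') A := C.hasFDerivAt.comp A hG
    exact e1
  · intro hA
    have hR : ∀ x : ι → Vc k, ((DD (chart U₀ A) F) ∘ₗ (MM A)) (fun i => herm (x i)) =
        fun i => herm (((C.comp G' : (ι → Vc k) →L[ℝ] (ι → Vc k)) :
          (ι → Vc k) →ₗ[ℝ] (ι → Vc k)) x i) := by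
      intro x
      rw [LinearMap.comp_apply, ← hGx x]
      funext i
      exact ((hco k).2 (G' x i) (hherm x i)).1.symm
    have hdet := h2 ι k _ _ hR
    rw [LinearMap.det_comp] at hdet
    have h4 : |(C.comp G').det| = ‖LinearMap.det (DD (chart U₀ A) F)‖ * ‖LinearMap.det (MM A)‖ := by
      rw [← norm_mul, hdet, Complex.norm_real, Real.norm_eq_abs]
    rw [h4]
    unfold Jd
    calc ‖LinearMap.det (DD (chart U₀ A) F)‖ = ‖LinearMap.det (DD (chart U₀ A) F)‖ * 1 := (mul_one _).symm
      _ ≤ _ := mul_le_mul_of_nonneg_left (h3 ι k A hA) (norm_nonneg _)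

end Pool.Agent.H755R2.NG
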