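import Pool.Agent.H755R2.NG.Stubs

/-! # DER1: the derivative of the map `A ↦ (pol (chart U₀ A) (F i))_i` (helper228) -/

namespace Pool.Agent.H755R2.NG

open MeasureTheory Matrix Filter Pool.Agent.H667R2.FG
open scoped Matrix.Norms.L2Operator ComplexConjugate ENNReal Topology

namespace TDER1

variable {k : ℕ} {ι : Type}

theorem herm_add (S T : Vc k) : (herm (S + T) : Mat k) = herm S + herm T := by
  ext i j
  simp only [herm, Pi.add_apply, Matrix.add_apply]
  push_cast
  ring

theorem herm_smul (c : ℝ) (S : Vc k) : (herm (c • S) : Mat k) = c • herm S := by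
  ext i j
  simp only [herm, Pi.smul_apply, Matrix.smul_apply, smul_eq_mul, Complex.real_smul]
  push_cast
  ring

/-- `herm` as a continuous linear map -/
noncomputable def hermL (k : ℕ) : Vc k →L[ℝ] Mat k :=
  LinearMap.toContinuousLinearMap
    { toFun := fun S => herm S
      map_add' := herm_add
      map_smul' := herm_smul }

theorem hermL_apply (S : Vc k) : hermL k S = herm S := rfl

theorem cay_coe (hc : S_CAY) (S : Vc k) : ((cay S : UU k) : Mat k) = cayM (herm S) := by
  unfold cay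
  rw [dif_pos (hc k S).1]

/-- derivative of the Cayley transform -/
theorem cay_deriv (hc : S_CAY) (S : Vc k) :
    ∃ G : Vc k →L[ℝ] Mat k, HasFDerivAt (fun S' : Vc k => ((cay S' : UU k) : Mat k)) G S ∧
      ∀ x, G x = ((cay S : UU k) : Mat k) * ((2 * Complex.I) • ((1 + Complex.I • herm S)⁻¹ *
        herm x * (1 - Complex.I • herm S)⁻¹)) := by
  obtain ⟨u, hu⟩ := (hc k S).2.1
  have hu' : ((u⁻¹ : (Mat k)ˣ) : Mat k) = (1 - Complex.I • (herm S : Mat k))⁻¹ := by
    rw [Matrix.coe_units_inv, hu]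
  have h1 : HasFDerivAt (fun S' : Vc k => (1 : Mat k) - Complex.I • herm S')
      (-(Complex.I • hermL k)) S := by
    have h11 : HasFDerivAt (fun S' : Vc k => Complex.I • hermL k S') (Complex.I • hermL k) S :=
      ((hermL k).hasFDerivAt).const_smul Complex.I
    exact h11.const_sub 1
  have h2 := hasFDerivAt_ringInverse (𝕜 := ℝ) u
  rw [hu] at h2
  have h3 := h2.comp S h1
  have h4 : HasFDerivAt (fun S' : Vc k => (2 : ℂ) • (1 - Complex.I • (herm S' : Mat k))⁻¹ - 1)
      ((2 : ℂ) • ((-(ContinuousLinearMap.mulLeftRight ℝ (Mat k)) ↑u⁻¹ ↑u⁻¹).comp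
        (-(Complex.I • hermL k)))) S := by
    have h5 : (fun S' : Vc k => (2 : ℂ) • (1 - Complex.I • (herm S' : Mat k))⁻¹ - 1) =
        fun S' : Vc k => (2 : ℂ) • (Ring.inverse ∘ fun S' : Vc k =>
          (1 : Mat k) - Complex.I • herm S') S' - 1 := by
      funext S'
      rw [Function.comp, Matrix.nonsing_inv_eq_ringInverse]
    rw [h5]
    exact (h3.const_smul (2 : ℂ)).sub_const 1
  refine ⟨(2 : ℂ) • ((-(ContinuousLinearMap.mulLeftRight ℝ (Mat k)) ↑u⁻¹ ↑u⁻¹).comp
        (-(Complex.I • hermL k))), ?_, ?_⟩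
  · have h6 : (fun S' : Vc k => ((cay S' : UU k) : Mat k)) =
        fun S' : Vc k => (2 : ℂ) • (1 - Complex.I • (herm S' : Mat k))⁻¹ - 1 := by
      funext S'
      rw [cay_coe hc]
      rfl
    rw [h6]
    exact h4
  · intro x
    rw [cay_coe hc]
    have e1 : (1 - Complex.I • (herm S : Mat k)) * (1 - Complex.I • (herm S : Mat k))⁻¹ = 1 :=
      Matrix.mul_nonsing_inv _ ((Matrix.isUnit_iff_isUnit_det _).1 (hc k S).2.1)
    have e1' : (1 - Complex.I • (herm S : Mat k))⁻¹ * (1 - Complex.I • (herm S : Mat k)) = 1 :=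
      Matrix.nonsing_inv_mul _ ((Matrix.isUnit_iff_isUnit_det _).1 (hc k S).2.1)
    have e2 : (1 + Complex.I • (herm S : Mat k)) * (1 + Complex.I • (herm S : Mat k))⁻¹ = 1 :=
      Matrix.mul_nonsing_inv _ ((Matrix.isUnit_iff_isUnit_det _).1 (hc k S).2.2)
    have e3 : cayM (herm S : Mat k) = (1 - Complex.I • (herm S : Mat k))⁻¹ *
        (1 + Complex.I • (herm S : Mat k)) := by
      have : (1 + Complex.I • (herm S : Mat k)) = (2 : ℂ) • 1 - (1 - Complex.I • (herm S : Mat k)) := by
        rw [two_smul]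
        abel
      rw [this, mul_sub, e1', mul_smul_comm, mul_one]
      rfl
    have e4 : cayM (herm S : Mat k) * (1 + Complex.I • (herm S : Mat k))⁻¹ =
        (1 - Complex.I • (herm S : Mat k))⁻¹ := by
      rw [e3, mul_assoc, e2, mul_one]
    rw [mul_smul_comm, ← mul_assoc, ← mul_assoc, e4]
    simp only [_root_.smul_apply, ContinuousLinearMap.comp_apply,
      _root_.neg_apply, ContinuousLinearMap.mulLeftRight_apply, hermL_apply, hu',
      mul_neg, neg_mul, neg_neg, mul_smul_comm, smul_mul_assoc, smul_smul]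

/-- derivative of the `i`-th coordinate of the chart -/
theorem chart_deriv [Fintype ι] (hc : S_CAY) (U₀ : ι → UU k) (A : ι → Vc k) (i : ι) :
    ∃ G : (ι → Vc k) →L[ℝ] Mat k,
      HasFDerivAt (fun A' : ι → Vc k => ((chart U₀ A' i : UU k) : Mat k)) G A ∧
      ∀ x, G x = ((chart U₀ A i : UU k) : Mat k) * MM A (fun i => herm (x i)) i := by
  obtain ⟨G, hG, hG'⟩ := cay_deriv hc (A i)
  have h1 : HasFDerivAt (fun A' : ι → Vc k => ((cay (A' i) : UU k) : Mat k))
      (G.comp (ContinuousLinearMap.proj i)) A :=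
    HasFDerivAt.comp (g := fun S' : Vc k => ((cay S' : UU k) : Mat k))
      (f := fun A' : ι → Vc k => A' i) A hG
      (ContinuousLinearMap.proj (R := ℝ) (φ := fun _ : ι => Vc k) i).hasFDerivAt
  have h2 := h1.const_mul ((U₀ i : UU k) : Mat k)
  have e : ∀ A' : ι → Vc k, ((chart U₀ A' i : UU k) : Mat k) =
      ((U₀ i : UU k) : Mat k) * ((cay (A' i) : UU k) : Mat k) := fun A' => rfl
  refine ⟨((U₀ i : UU k) : Mat k) • (G.comp (ContinuousLinearMap.proj i)), ?_, fun x => ?_⟩
  · simp only [e]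
    exact h2
  · have e2 : MM A (fun i => (herm (x i) : Mat k)) i = (2 * Complex.I) •
        ((1 + Complex.I • herm (A i))⁻¹ * herm (x i) * (1 - Complex.I • herm (A i))⁻¹) := rfl
    rw [e, e2, mul_assoc, ← hG']
    rfl

/-- derivative of a letter -/
theorem lt_deriv [Fintype ι] (hc : S_CAY) (U₀ : ι → UU k) (A : ι → Vc k) (i : ι) (b : Bool) :
    ∃ G : (ι → Vc k) →L[ℝ] Mat k,
      HasFDerivAt (fun A' : ι → Vc k => lt (chart U₀ A') i b) G A ∧
      ∀ x, G x = dlt (chart U₀ A) (MM A (fun i => herm (x i))) i b := by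
  obtain ⟨G, hG, hG'⟩ := chart_deriv hc U₀ A i
  cases b with
  | true =>
    refine ⟨G, hG, fun x => ?_⟩
    rw [hG']
    simp [dlt]
  | false =>
    set u : (Mat k)ˣ := Unitary.toUnits (chart U₀ A i) with hu
    have hu1 : (u : Mat k) = ((chart U₀ A i : UU k) : Mat k) := rfl
    have hu2 : ((u⁻¹ : (Mat k)ˣ) : Mat k) = (((chart U₀ A i)⁻¹ : UU k) : Mat k) := rfl
    have h2 := hasFDerivAt_ringInverse (𝕜 := ℝ) u
    rw [hu1] at h2
    have h3 := h2.comp A hG
    have h4 : (fun A' : ι → Vc k => lt (chart U₀ A') i false) =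
        Ring.inverse ∘ fun A' : ι → Vc k => ((chart U₀ A' i : UU k) : Mat k) := by
      funext A'
      have : ((chart U₀ A' i : UU k) : Mat k) = (Unitary.toUnits (chart U₀ A' i) : (Mat k)ˣ) := rfl
      rw [Function.comp, this, Ring.inverse_unit]
      rfl
    rw [h4]
    refine ⟨_, h3, fun x => ?_⟩
    have e : (((chart U₀ A i)⁻¹ : UU k) : Mat k) * ((chart U₀ A i : UU k) : Mat k) = 1 := by
      rw [← Submonoid.coe_mul, inv_mul_cancel]
      rfl
    simp only [ContinuousLinearMap.comp_apply, _root_.neg_apply,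
      ContinuousLinearMap.mulLeftRight_apply, hG', hu2, dlt, Bool.false_eq_true, if_false]
    rw [← mul_assoc, e, one_mul]

/-- derivative of a product of letters -/
theorem pL_deriv [Fintype ι] (hc : S_CAY) (U₀ : ι → UU k) (A : ι → Vc k)
    (w : List (ι × Bool)) :
    ∃ G : (ι → Vc k) →L[ℝ] Mat k,
      HasFDerivAt (fun A' : ι → Vc k => pL (chart U₀ A') w) G A ∧
      ∀ x, G x = dL (chart U₀ A) (MM A (fun i => herm (x i))) w := by
  induction w with
  | nil => exact ⟨0, by simpa [pL] using hasFDerivAt_const (1 : Mat k) A, fun x => by simp [dL]⟩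
  | cons s w ih =>
    obtain ⟨G1, h1, h1'⟩ := lt_deriv hc U₀ A s.1 s.2
    obtain ⟨G2, h2, h2'⟩ := ih
    have h3 := h1.mul' h2
    have h4 : (fun A' : ι → Vc k => pL (chart U₀ A') (s :: w)) =
        (fun A' : ι → Vc k => lt (chart U₀ A') s.1 s.2) *
          fun A' : ι → Vc k => pL (chart U₀ A') w := by
      funext A'
      simp [pL]
    rw [h4]
    refine ⟨_, h3, fun x => ?_⟩
    simp only [_root_.add_apply, _root_.smul_apply, h1', h2', dL,
      smul_eq_mul, MulOpposite.smul_eq_mul_unop, MulOpposite.unop_op]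
    rw [add_comm]

theorem wd_eq [DecidableEq ι] (U : ι → UU k) (w : FreeGroup ι) :
    (wd U w : Mat k) = pL U w.toWord := by
  unfold wd pL
  conv_lhs => rw [← FreeGroup.mk_toWord (x := w)]
  rw [FreeGroup.lift_mk, Submonoid.coe_list_prod, List.map_map]
  congr 1
  refine List.map_congr_left fun p _ => ?_
  simp only [Function.comp, lt]
  cases p.2 <;> rfl

end TDER1

open TDER1

theorem t_DER1 (hc : S_CAY) : S_DER1 := by
  intro ι _ _ k U₀ F A
  have key : ∀ i : ι, ∃ G : (ι → Vc k) →L[ℝ] Mat k,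
      HasFDerivAt (fun A' : ι → Vc k => (pol (chart U₀ A') (F i) : Mat k)) G A ∧
      ∀ x, G x = DD (chart U₀ A) F (MM A (fun i => herm (x i))) i := by
    intro i
    choose G hG hG' using fun w => pL_deriv hc U₀ A w
    have h1 : HasFDerivAt (fun A' : ι → Vc k =>
        ∑ w ∈ (F i).support, (F i w) • pL (chart U₀ A') w.toWord)
        (∑ w ∈ (F i).support, (F i w) • G w.toWord) A :=
      HasFDerivAt.fun_sum fun w _ => (hG w.toWord).const_smul (F i w)
    refine ⟨∑ w ∈ (F i).support, (F i w) • G w.toWord, ?_, ?_⟩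
    · have h2 : (fun A' : ι → Vc k => (pol (chart U₀ A') (F i) : Mat k)) =
          fun A' : ι → Vc k => ∑ w ∈ (F i).support, (F i w) • pL (chart U₀ A') w.toWord := by
        funext A'
        unfold pol Finsupp.sum
        exact Finset.sum_congr rfl fun w _ => by simp only [wd_eq]
      rw [h2]
      exact h1
    · intro x
      simp only [_root_.sum_apply, _root_.smul_apply, hG']
      rfl
  choose G hG hG' using key
  exact ⟨ContinuousLinearMap.pi G, hasFDerivAt_pi.2 hG, fun x => funext fun i => hG' i x⟩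

end Pool.Agent.H755R2.NG
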