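import Pool.Agent.H755R2.NG.Stubs

set_option autoImplicit false

namespace Pool.Agent.H755R2.NG

open Matrix Pool.Agent.H667R2.FG

namespace DER2

/-- complexification of `herm` -/
noncomputable def hE (k : ℕ) : (Fin k × Fin k → ℂ) ≃ₗ[ℂ] Mat k where
  toFun S := fun i j => ((1 + Complex.I) / 2) * S (i, j) + ((1 - Complex.I) / 2) * S (j, i)
  invFun X := fun p => ((1 - Complex.I) / 2) * X p.1 p.2 + ((1 + Complex.I) / 2) * X p.2 p.1
  map_add' S S' := by
    ext i j
    simp only [Pi.add_apply, Matrix.add_apply]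
    ring
  map_smul' c S := by
    ext i j
    simp only [Pi.smul_apply, Matrix.smul_apply, smul_eq_mul, RingHom.id_apply]
    ring
  left_inv S := by
    funext p
    obtain ⟨i, j⟩ := p
    have hI : Complex.I ^ 2 = -1 := Complex.I_sq
    show ((1 - Complex.I) / 2) * (((1 + Complex.I) / 2) * S (i, j) + ((1 - Complex.I) / 2) * S (j, i)) +
      ((1 + Complex.I) / 2) * (((1 + Complex.I) / 2) * S (j, i) + ((1 - Complex.I) / 2) * S (i, j)) =
      S (i, j)
    linear_combination (-(1 / 2) * S (i, j) + (1 / 2) * S (j, i)) * hI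
  right_inv X := by
    ext i j
    have hI : Complex.I ^ 2 = -1 := Complex.I_sq
    show ((1 + Complex.I) / 2) * (((1 - Complex.I) / 2) * X i j + ((1 + Complex.I) / 2) * X j i) +
      ((1 - Complex.I) / 2) * (((1 - Complex.I) / 2) * X j i + ((1 + Complex.I) / 2) * X i j) =
      X i j
    linear_combination (-(1 / 2) * X i j + (1 / 2) * X j i) * hI

theorem hE_real (k : ℕ) (S : Fin k × Fin k → ℝ) : hE k (fun p => (S p : ℂ)) = herm S := by
  ext i j
  show ((1 + Complex.I) / 2) * (S (i, j) : ℂ) + ((1 - Complex.I) / 2) * (S (j, i) : ℂ) =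
    (((S (i, j) + S (j, i)) / 2 : ℝ) : ℂ) + (((S (i, j) - S (j, i)) / 2 : ℝ) : ℂ) * Complex.I
  push_cast
  ring

end DER2

open DER2

theorem t_DER2 : S_DER2 := by
  intro ι _ _ k T R hTR
  let Φ : (ι → Fin k × Fin k → ℂ) ≃ₗ[ℂ] (ι → Mat k) := LinearEquiv.piCongrRight (fun _ => hE k)
  have hΦ : ∀ x : ι → Fin k × Fin k → ℝ, Φ (fun i p => (x i p : ℂ)) = fun i => herm (x i) := by
    intro x
    funext i
    exact hE_real k (x i)
  set T' : (ι → Fin k × Fin k → ℂ) →ₗ[ℂ] (ι → Fin k × Fin k → ℂ) :=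
    (Φ.symm : (ι → Mat k) →ₗ[ℂ] (ι → Fin k × Fin k → ℂ)) ∘ₗ T ∘ₗ
      (Φ.symm.symm : (ι → Fin k × Fin k → ℂ) →ₗ[ℂ] (ι → Mat k)) with hT'
  have hdet : LinearMap.det T' = LinearMap.det T := LinearMap.det_conj T Φ.symm
  have hT'R : ∀ x : ι → Fin k × Fin k → ℝ, T' (fun i p => (x i p : ℂ)) = fun i p => (R x i p : ℂ) := by
    intro x
    show Φ.symm (T (Φ (fun i p => (x i p : ℂ)))) = _
    rw [hΦ, hTR, LinearEquiv.symm_apply_eq, hΦ]
  rw [← hdet]
  set bC := Pi.basis (fun _ : ι => Pi.basisFun ℂ (Fin k × Fin k)) with hbC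
  set bR := Pi.basis (fun _ : ι => Pi.basisFun ℝ (Fin k × Fin k)) with hbR
  have hb : ∀ j, bC j = fun i p => ((bR j i p : ℝ) : ℂ) := by
    intro j
    funext i p
    rw [hbC, hbR, Pi.basis_apply, Pi.basis_apply, Pi.basisFun_apply, Pi.basisFun_apply]
    by_cases h1 : i = j.1
    · subst h1
      simp only [Pi.single_eq_same]
      by_cases h2 : p = j.2
      · subst h2
        simp
      · rw [Pi.single_eq_of_ne h2, Pi.single_eq_of_ne h2]
        simp
    · rw [Pi.single_eq_of_ne h1, Pi.single_eq_of_ne h1]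
      simp
  rw [← LinearMap.det_toMatrix bC T', ← LinearMap.det_toMatrix bR R]
  have hM : LinearMap.toMatrix bC bC T' = (LinearMap.toMatrix bR bR R).map Complex.ofRealHom := by
    ext i j
    rw [Matrix.map_apply, LinearMap.toMatrix_apply, LinearMap.toMatrix_apply, hb j, hT'R, hbC,
      Pi.basis_repr, Pi.basisFun_repr]
    conv_rhs => rw [hbR, Pi.basis_repr, Pi.basisFun_repr]
    rfl
  rw [hM]
  have h := RingHom.map_det Complex.ofRealHom (LinearMap.toMatrix bR bR R)
  rw [RingHom.mapMatrix_apply] at h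
  rw [← h]
  rfl

end Pool.Agent.H755R2.NG
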