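import Pool.Agent.H755R2.NG.Stubs

set_option autoImplicit false

namespace Pool.Agent.H755R2.NG

open Polynomial

theorem t_DETP : S_DETP := by
  intro V _ _ _ A B
  set b := Module.finBasis ℂ V with hb
  refine ⟨Matrix.det ((X : Polynomial ℂ) • (LinearMap.toMatrix b b A).map C +
    (LinearMap.toMatrix b b B).map C), ?_, ?_, ?_⟩
  · have h := Polynomial.natDegree_det_X_add_C_le (LinearMap.toMatrix b b A)
      (LinearMap.toMatrix b b B)
    rwa [Fintype.card_fin] at h
  · have h := Polynomial.coeff_det_X_add_C_card (LinearMap.toMatrix b b A)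
      (LinearMap.toMatrix b b B)
    rw [Fintype.card_fin] at h
    rw [h, LinearMap.det_toMatrix]
  · intro t
    rw [← Polynomial.coe_evalRingHom, RingHom.map_det, ← LinearMap.det_toMatrix b (t • A + B)]
    congr 1
    ext i j
    simp only [RingHom.mapMatrix_apply, Matrix.map_apply, Matrix.add_apply, Matrix.smul_apply,
      smul_eq_mul, map_add, map_smul, Polynomial.coe_evalRingHom, Polynomial.eval_X,
      Polynomial.eval_mul, Polynomial.eval_add, Polynomial.eval_C]

end Pool.Agent.H755R2.NG
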