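import Pool.Agent.H755R2.NG.Stubs

namespace Pool.Agent.H755R2.NG

open MeasureTheory Matrix Filter Pool.Agent.H667R2.FG
open scoped Matrix.Norms.L2Operator ComplexConjugate ENNReal Topology

theorem HM_wd_inv {ι : Type} {k : ℕ} (U : ι → UU k) (w : FreeGroup ι) :
    (wd U w : Mat k)ᴴ = wd U w⁻¹ := by
  unfold wd
  rw [map_inv]
  rfl

theorem t_HM : S_HM := by
  intro ι k U f hf
  classical
  unfold pol
  rw [Finsupp.sum, Matrix.conjTranspose_sum]
  have h1 : ∀ w ∈ f.support, (f w • wd U w : Mat k)ᴴ = f w⁻¹ • wd U w⁻¹ := by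
    intro w _
    rw [Matrix.conjTranspose_smul, HM_wd_inv, hf w]
    rfl
  rw [Finset.sum_congr rfl h1]
  refine Finset.sum_nbij' (fun w => w⁻¹) (fun w => w⁻¹) ?_ ?_ ?_ ?_ ?_
  · intro w hw
    rw [Finsupp.mem_support_iff] at hw ⊢
    rw [hf w]
    simpa using hw
  · intro w hw
    rw [Finsupp.mem_support_iff] at hw ⊢
    rw [hf w]
    simpa using hw
  · intro w _; exact inv_inv w
  · intro w _; exact inv_inv w
  · intro w _; rfl

end Pool.Agent.H755R2.NG
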