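import Pool.Agent.H755R2.NG.Stubs

/-! # Volume of the image (task IMG, helper781) -/

namespace Pool.Agent.H755R2.NG

open MeasureTheory Matrix Filter
open scoped ENNReal

theorem t_IMG : S_IMG := by
  intro d e k Y hY R r hR hr hz hzz
  set φ := MeasurableEquiv.sumPiEquivProdPi (fun _ : Fin d ⊕ Fin e => Vc k) with hφd
  have hφ : MeasurePreserving φ volume volume :=
    volume_measurePreserving_sumPiEquivProdPi (fun _ : Fin d ⊕ Fin e => Vc k)
  have h1 : volume (φ.symm ⁻¹' Y) = volume Y :=
    (hφ.symm φ).measure_preimage_equiv Y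
  have hY' : MeasurableSet (φ.symm ⁻¹' Y) := φ.symm.measurable hY
  rw [← h1, Measure.volume_eq_prod, Measure.prod_apply hY']
  have hmr : MeasurableSet {x : Vc k | sq x ≤ r ^ 2} := by
    refine measurableSet_le ?_ measurable_const
    unfold sq
    fun_prop
  -- sections
  have hsec : ∀ y : (i : Fin d) → Vc k,
      volume (Prod.mk y ⁻¹' (φ.symm ⁻¹' Y)) ≤
        (Set.univ.pi fun _ : Fin d => {x : Vc k | sq x ≤ R ^ 2}).indicator
          (fun _ => (volume {x : Vc k | sq x ≤ r ^ 2}) ^ e) y := by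
    intro y
    rcases Set.eq_empty_or_nonempty (Prod.mk y ⁻¹' (φ.symm ⁻¹' Y)) with h0 | ⟨w₀, hw₀⟩
    · rw [h0]; simp
    · have hy : y ∈ Set.univ.pi fun _ : Fin d => {x : Vc k | sq x ≤ R ^ 2} := by
        intro j _
        exact hz (φ.symm (y, w₀)) hw₀ (Sum.inl j)
      rw [Set.indicator_of_mem hy]
      have hsub : (Prod.mk y ⁻¹' (φ.symm ⁻¹' Y)) ⊆
          Set.univ.pi fun i : Fin e => (fun x : Vc k => x - w₀ i) ⁻¹' {x : Vc k | sq x ≤ r ^ 2} := by
        intro w hw i _
        exact hzz (φ.symm (y, w)) hw (φ.symm (y, w₀)) hw₀ (fun j => rfl) i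
      refine (measure_mono hsub).trans ?_
      have hp : ∀ i, volume ((fun x : Vc k => x - w₀ i) ⁻¹' {x : Vc k | sq x ≤ r ^ 2}) =
          volume {x : Vc k | sq x ≤ r ^ 2} := fun i =>
        (measurePreserving_sub_right volume (w₀ i)).measure_preimage hmr.nullMeasurableSet
      rw [volume_pi_pi]
      simp only [hp]
      simp
  refine (lintegral_mono hsec).trans ?_
  have hms : MeasurableSet (Set.univ.pi fun _ : Fin d => {x : Vc k | sq x ≤ R ^ 2}) := by
    refine MeasurableSet.univ_pi fun _ => ?_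
    refine measurableSet_le ?_ measurable_const
    unfold sq
    fun_prop
  rw [lintegral_indicator hms, setLIntegral_const, volume_pi_pi]
  simp [mul_comm]

end Pool.Agent.H755R2.NG
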