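import Pool.Agent.H755R2.NG.Stubs
import Pool.Agent.H667R2.FG.THS

/-! LIP: words are Lipschitz in the normalised Hilbert-Schmidt norm (helper368). -/

namespace Pool.Agent.H755R2.NG

open MeasureTheory Matrix Filter Pool.Agent.H667R2.FG
open scoped Matrix.Norms.L2Operator ComplexConjugate ENNReal Topology

theorem LIP_list {k : ℕ} {ι : Type} (x y : ι → UU k) (ε : ℝ)
    (h : ∀ i, hs ((x i : Mat k) - (y i : Mat k)) ≤ ε) (L : List (ι × Bool)) :
    hs (((FreeGroup.lift x (FreeGroup.mk L) : UU k) : Mat k)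
      - ((FreeGroup.lift y (FreeGroup.mk L) : UU k) : Mat k)) ≤ L.length * ε := by
  induction L with
  | nil =>
    have : (FreeGroup.mk ([] : List (ι × Bool))) = 1 := rfl
    rw [this, map_one, map_one, sub_self, hs_zero]
    simp
  | cons p L ih =>
    have e : (FreeGroup.mk (p :: L)) = FreeGroup.mk [p] * FreeGroup.mk L := by
      rw [FreeGroup.mul_mk]; rfl
    have hl : hs (((FreeGroup.lift x (FreeGroup.mk [p]) : UU k) : Mat k)
      - ((FreeGroup.lift y (FreeGroup.mk [p]) : UU k) : Mat k)) ≤ ε := by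
      obtain ⟨i, b⟩ := p
      cases b with
      | true =>
        have : (FreeGroup.mk [(i, true)]) = FreeGroup.of i := rfl
        rw [this, FreeGroup.lift_apply_of, FreeGroup.lift_apply_of]
        exact h i
      | false =>
        have : (FreeGroup.mk [(i, false)]) = (FreeGroup.of i)⁻¹ := rfl
        rw [this, map_inv, map_inv, FreeGroup.lift_apply_of, FreeGroup.lift_apply_of, THS.coe_inv,
          THS.coe_inv, ← Matrix.conjTranspose_sub, THS.hs_conjTranspose]
        exact h i
    rw [e, map_mul, map_mul]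
    generalize (FreeGroup.lift x (FreeGroup.mk [p]) : UU k) = a at hl ⊢
    generalize (FreeGroup.lift y (FreeGroup.mk [p]) : UU k) = a' at hl ⊢
    generalize (FreeGroup.lift x (FreeGroup.mk L) : UU k) = b at ih ⊢
    generalize (FreeGroup.lift y (FreeGroup.mk L) : UU k) = b' at ih ⊢
    have e2 : ((a * b : UU k) : Mat k) - ((a' * b' : UU k) : Mat k)
        = ((a : Mat k) - (a' : Mat k)) * (b : Mat k) + (a' : Mat k) * ((b : Mat k) - (b' : Mat k)) := by
      simp only [Submonoid.coe_mul, Matrix.sub_mul, Matrix.mul_sub]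
      abel
    rw [e2]
    have h1 : hs (((a : Mat k) - (a' : Mat k)) * (b : Mat k)) ≤ ε := by
      rw [THS.hs_mul_unitary]; exact hl
    have h2 : hs ((a' : Mat k) * ((b : Mat k) - (b' : Mat k))) ≤ L.length * ε := by
      rw [THS.hs_unitary_mul]; exact ih
    refine (THS.hs_add_le _ _).trans ((add_le_add h1 h2).trans (le_of_eq ?_))
    rw [List.length_cons]
    push_cast
    ring

theorem LIP_wd {k : ℕ} {ι : Type} [DecidableEq ι] (x y : ι → UU k) (ε : ℝ)
    (h : ∀ i, hs ((x i : Mat k) - (y i : Mat k)) ≤ ε) (w : FreeGroup ι) :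
    hs ((wd x w : Mat k) - wd y w) ≤ w.toWord.length * ε := by
  have := LIP_list x y ε h w.toWord
  rw [FreeGroup.mk_toWord] at this
  exact this

theorem LIP_sum {k : ℕ} {α : Type} (s : Finset α) (g : α → Mat k) :
    hs (∑ a ∈ s, g a) ≤ ∑ a ∈ s, hs (g a) := by
  classical
  induction s using Finset.induction_on with
  | empty => simp [THS.hs_zero]
  | insert a s ha ih =>
    rw [Finset.sum_insert ha, Finset.sum_insert ha]
    exact (THS.hs_add_le _ _).trans (add_le_add le_rfl ih)

theorem t_LIP : S_LIP := by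
  intro ι _ _ f
  refine ⟨∑ w ∈ f.support, ‖f w‖ * w.toWord.length,
    Finset.sum_nonneg fun w _ => mul_nonneg (norm_nonneg _) (Nat.cast_nonneg _), ?_⟩
  intro k U U' r _ h
  unfold pol Finsupp.sum
  rw [← Finset.sum_sub_distrib, Finset.sum_mul]
  refine (LIP_sum _ _).trans (Finset.sum_le_sum fun w _ => ?_)
  rw [← smul_sub, THS.hs_smul, mul_assoc]
  exact mul_le_mul_of_nonneg_left (LIP_wd U U' r h w) (norm_nonneg _)

end Pool.Agent.H755R2.NG
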