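import Mathlib
import Pool.Agent.H755R2.NG.Stubs
import Pool.Agent.H667R2.FG.TAF
import Pool.Agent.H667R2.FG.THS

/-! MIC: the expected squared 2-norm of a noncommutative polynomial in independent Haar unitaries
converges to the squared `ℓ²` norm of its coefficients. -/

namespace Pool.Agent.H755R2.NG

open MeasureTheory Matrix Filter Pool.Agent.H667R2.FG
open scoped Matrix.Norms.L2Operator ComplexConjugate ENNReal Topology

namespace MICaux

variable {ι : Type}

/-- the syllable word of a list of letters -/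
def sy (k : ℕ) (L : List (ι × Bool)) : List (Syl k ι) := L.map fun p => (p.1, p.2, 1)

lemma wd_mk {k : ℕ} (U : ι → UU k) (L : List (ι × Bool)) :
    (wd U (FreeGroup.mk L) : Mat k) = evS U (sy k L) := by
  induction L with
  | nil =>
    have : (FreeGroup.mk ([] : List (ι × Bool))) = 1 := rfl
    rw [this, wd_one]; rfl
  | cons p L ih =>
    have e : (FreeGroup.mk (p :: L)) = FreeGroup.mk [p] * FreeGroup.mk L := by
      rw [FreeGroup.mul_mk]; rfl
    rw [e, wd_mul, ih]
    have e2 : (wd U (FreeGroup.mk [p]) : Mat k) = lt U p.1 p.2 := by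
      obtain ⟨i, b⟩ := p
      cases b with
      | true =>
        have : (FreeGroup.mk [(i, true)]) = FreeGroup.of i := rfl
        rw [this]
        unfold wd lt
        rw [FreeGroup.lift_apply_of]; rfl
      | false =>
        have : (FreeGroup.mk [(i, false)]) = (FreeGroup.of i)⁻¹ := rfl
        rw [this]
        unfold wd lt
        rw [map_inv, FreeGroup.lift_apply_of]; rfl
    rw [e2]
    simp [sy, evS]

lemma good_sy [DecidableEq ι] (k : ℕ) (w : FreeGroup ι) : GoodW (sy k w.toWord) := by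
  unfold GoodW sy
  rw [List.isChain_map]
  have h := FreeGroup.isReduced_toWord (x := w)
  unfold FreeGroup.IsReduced at h
  refine h.imp ?_
  intro a b hab h1 h2
  exact absurd (hab h1) h2

lemma nrm_sy (k : ℕ) (L : List (ι × Bool)) : nrm (sy k L) ≤ 1 := by
  induction L with
  | nil => simp [sy, nrm]
  | cons p L ih =>
    have h0 : 0 ≤ nrm (sy k L) := TAF.nrm_nonneg _
    have : nrm (sy k (p :: L)) = ‖(1 : Mat k)‖ * nrm (sy k L) := by simp [sy, nrm]
    rw [this]
    have h1 : ‖(1 : Mat k)‖ ≤ 1 := TAF.norm_one_le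
    calc _ ≤ 1 * nrm (sy k L) := by gcongr
      _ ≤ 1 := by simpa using ih

lemma integrable_cont [Fintype ι] {k : ℕ} {E : Type*} [NormedAddCommGroup E]
    {f : (ι → UU k) → E} (hf : Continuous f) : Integrable f (haarP k ι) :=
  TAF.integrable_cont hf

lemma tend_wd [Fintype ι] [DecidableEq ι] (w : FreeGroup ι) (hw : w ≠ 1) :
    Tendsto (fun k : ℕ => ∫ U, ntr (wd U w : Mat k) ∂(haarP k ι)) atTop (𝓝 0) := by
  obtain ⟨C, hC, h⟩ := asympFree
  rw [tendsto_zero_iff_norm_tendsto_zero]
  have hb : ∀ᶠ k : ℕ in atTop, ‖∫ U, ntr (wd U w : Mat k) ∂(haarP k ι)‖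
      ≤ Real.sqrt (C (w.toWord.length)) / (k : ℝ) := by
    filter_upwards [eventually_gt_atTop 0] with k hk
    have hk' : (0 : ℝ) < k := by exact_mod_cast hk
    have h1 := h k hk ι (sy k w.toWord) (by
      intro h0
      have : w.toWord = [] := by simpa [sy] using h0
      exact hw (FreeGroup.toWord_eq_nil_iff.mp this)) (good_sy k w)
    have e : ∀ U : ι → UU k, (wd U w : Mat k) = evS U (sy k w.toWord) := by
      intro U
      rw [← wd_mk, FreeGroup.mk_toWord]
    have hlen : (sy k w.toWord).length = w.toWord.length := by simp [sy]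
    rw [hlen] at h1
    have h2 : ∫ U, ‖ntr (wd U w : Mat k)‖ ^ 2 ∂(haarP k ι) ≤ C w.toWord.length / (k : ℝ) ^ 2 := by
      simp only [e]
      refine h1.trans ?_
      have h3 := nrm_sy k w.toWord
      have h4 : 0 ≤ nrm (sy k w.toWord) := TAF.nrm_nonneg _
      have h5 : nrm (sy k w.toWord) ^ 2 ≤ 1 := by nlinarith
      have := hC w.toWord.length
      gcongr
      nlinarith
    have hc : Continuous fun U : ι → UU k => ntr (wd U w : Mat k) :=
      continuous_ntr.comp (continuous_wd w)
    refine (norm_integral_le_integral_norm _).trans ?_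
    have h6 : (∫ U, ‖ntr (wd U w : Mat k)‖ ∂(haarP k ι)) ^ 2
        ≤ ∫ U, ‖ntr (wd U w : Mat k)‖ ^ 2 ∂(haarP k ι) := by
      have h7 : 0 ≤ ∫ U, (‖ntr (wd U w : Mat k)‖ - ∫ V, ‖ntr (wd V w : Mat k)‖ ∂(haarP k ι)) ^ 2
        ∂(haarP k ι) := integral_nonneg fun U => sq_nonneg _
      set m := ∫ V, ‖ntr (wd V w : Mat k)‖ ∂(haarP k ι) with hm
      have i1 : Integrable (fun U : ι → UU k => ‖ntr (wd U w : Mat k)‖ ^ 2) (haarP k ι) :=
        integrable_cont (hc.norm.pow 2)
      have i2 : Integrable (fun U : ι → UU k => ‖ntr (wd U w : Mat k)‖) (haarP k ι) :=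
        integrable_cont hc.norm
      have e1 : ∀ U : ι → UU k, (‖ntr (wd U w : Mat k)‖ - m) ^ 2
        = ‖ntr (wd U w : Mat k)‖ ^ 2 - (2 * m) * ‖ntr (wd U w : Mat k)‖ + m ^ 2 := by
        intro U; ring
      simp only [e1] at h7
      have i3 : Integrable (fun U : ι → UU k => ‖ntr (wd U w : Mat k)‖ ^ 2
        - (2 * m) * ‖ntr (wd U w : Mat k)‖) (haarP k ι) := i1.sub (i2.const_mul _)
      rw [integral_add i3 (integrable_const _), integral_sub i1
        (i2.const_mul _), integral_const_mul, ← hm, integral_const] at h7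
      simp only [measureReal_def, measure_univ, ENNReal.toReal_one, one_smul] at h7
      nlinarith
    have h8 : 0 ≤ ∫ U, ‖ntr (wd U w : Mat k)‖ ∂(haarP k ι) := integral_nonneg fun U => norm_nonneg _
    have h9 : Real.sqrt (C (w.toWord.length)) / (k : ℝ)
        = Real.sqrt (C (w.toWord.length) / (k : ℝ) ^ 2) := by
      rw [Real.sqrt_div (hC _), Real.sqrt_sq hk'.le]
    rw [h9]
    exact Real.le_sqrt_of_sq_le (h6.trans h2)
  refine squeeze_zero' (Eventually.of_forall fun k => norm_nonneg _) hb ?_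
  exact tendsto_const_div_atTop_nhds_zero_nat _

lemma hs_pol_sq {k : ℕ} (U : ι → UU k) (a : FreeGroup ι →₀ ℂ) :
    ((hs (pol U a : Mat k) ^ 2 : ℝ) : ℂ) = ∑ g ∈ a.support, ∑ h ∈ a.support,
      (conj (a g) * a h) * ntr (wd U (g⁻¹ * h) : Mat k) := by
  classical
  rw [hs_sq_tr]
  have e1 : (pol U a : Mat k) = ∑ h ∈ a.support, a h • (wd U h : Mat k) := rfl
  have e2 : (pol U a : Mat k)ᴴ = ∑ g ∈ a.support, conj (a g) • (wd U g : Mat k)ᴴ := by
    rw [e1, conjTranspose_sum]
    refine Finset.sum_congr rfl fun g _ => ?_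
    rw [conjTranspose_smul]; rfl
  rw [e2, e1, Finset.sum_mul]
  have ns : ∀ (s : Finset (FreeGroup ι)) (f : FreeGroup ι → Mat k),
      ntr (∑ x ∈ s, f x) = ∑ x ∈ s, ntr (f x) := by
    intro s f
    unfold ntr
    rw [trace_sum, Finset.mul_sum]
  rw [ns]
  refine Finset.sum_congr rfl fun g _ => ?_
  rw [Finset.mul_sum, ns]
  refine Finset.sum_congr rfl fun h _ => ?_
  rw [wd_mul, wd_inv, smul_mul_smul_comm, ntr_smul]

end MICaux

open MICaux in
theorem t_MIC : S_MIC := by
  intro ι _ _ a
  have key : Tendsto (fun k : ℕ => ((∫ U, hs (pol U a : Mat k) ^ 2 ∂(haarP k ι) : ℝ) : ℂ)) atTop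
      (𝓝 ((∑ g ∈ a.support, ‖a g‖ ^ 2 : ℝ) : ℂ)) := by
    have e : ∀ k : ℕ, ((∫ U, hs (pol U a : Mat k) ^ 2 ∂(haarP k ι) : ℝ) : ℂ)
        = ∑ g ∈ a.support, ∑ h ∈ a.support, (conj (a g) * a h) *
          ∫ U, ntr (wd U (g⁻¹ * h) : Mat k) ∂(haarP k ι) := by
      intro k
      rw [← integral_complex_ofReal]
      simp only [hs_pol_sq]
      have hi : ∀ g h : FreeGroup ι, Integrable (fun U : ι → UU k => (conj (a g) * a h) *
          ntr (wd U (g⁻¹ * h) : Mat k)) (haarP k ι) := by
        intro g h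
        exact integrable_cont (continuous_const.mul (continuous_ntr.comp (continuous_wd _)))
      rw [integral_finsetSum _ (fun g _ => integrable_finsetSum _ fun h _ => hi g h)]
      refine Finset.sum_congr rfl fun g _ => ?_
      rw [integral_finsetSum _ (fun h _ => hi g h)]
      refine Finset.sum_congr rfl fun h _ => ?_
      rw [integral_const_mul]
    simp only [e]
    have hl : ∀ g h : FreeGroup ι, Tendsto (fun k : ℕ => (conj (a g) * a h) *
          ∫ U, ntr (wd U (g⁻¹ * h) : Mat k) ∂(haarP k ι)) atTop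
          (𝓝 (if h = g then (conj (a g) * a h) else 0)) := by
      intro g h
      by_cases hgh : h = g
      · subst hgh
        simp only [if_true]
        refine tendsto_const_nhds.congr' ?_
        filter_upwards [eventually_gt_atTop 0] with k hk
        have : ∀ U : ι → UU k, ntr (wd U (h⁻¹ * h) : Mat k) = 1 := by
          intro U
          rw [inv_mul_cancel, wd_one, ntr_one hk]
        simp only [this]
        simp
      · rw [if_neg hgh]
        have h0 : g⁻¹ * h ≠ 1 := by
          intro h1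
          exact hgh (inv_mul_eq_one.mp h1).symm
        simpa using (tend_wd (g⁻¹ * h) h0).const_mul (conj (a g) * a h)
    have hsum := tendsto_finsetSum a.support (fun g _ =>
      tendsto_finsetSum a.support (fun h _ => hl g h))
    refine hsum.trans (le_of_eq ?_)
    congr 1
    rw [Complex.ofReal_sum]
    refine Finset.sum_congr rfl fun g hg => ?_
    rw [Finset.sum_ite_eq' a.support g (fun h => conj (a g) * a h), if_pos hg]
    rw [mul_comm, Complex.mul_conj, Complex.normSq_eq_norm_sq]
  have := (Complex.continuous_re.tendsto _).comp key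
  simp only [Function.comp_def, Complex.ofReal_re] at this
  exact this

end Pool.Agent.H755R2.NG
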