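import Mathlib
import Pool.Agent.H755R2.NG.Stubs

/-!
# MU1: words as polynomials in the entries
-/

namespace Pool.Agent.H755R2.NG

open Pool.Agent.H667R2.FG

namespace MU1

/-- the entries of a word as polynomials in the entries of the letters -/
noncomputable def PP {ι : Type} {k : ℕ} : List (ι × Bool) → Fin k → Fin k →
    MvPolynomial ((ι × Bool) × Fin k × Fin k) ℂ
  | [], a, b => MvPolynomial.C ((1 : Mat k) a b)
  | s :: w, a, b => ∑ c : Fin k, MvPolynomial.X (s, a, c) * PP w c b

theorem PP_deg {ι : Type} {k : ℕ} (w : List (ι × Bool)) :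
    ∀ a b : Fin k, (PP w a b).totalDegree ≤ w.length := by
  induction w with
  | nil =>
    intro a b
    simp [PP]
  | cons s w ih =>
    intro a b
    rw [PP]
    refine MvPolynomial.totalDegree_finsetSum_le ?_
    intro c _
    refine (MvPolynomial.totalDegree_mul _ _).trans ?_
    rw [MvPolynomial.totalDegree_X, List.length_cons]
    have := ih c b
    omega

theorem PP_eval {ι : Type} {k : ℕ} (x : ι × Bool → Mat k) (w : List (ι × Bool)) :
    ∀ a b : Fin k, MvPolynomial.eval (fun v => x v.1 v.2.1 v.2.2) (PP w a b) = pM x w a b := by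
  induction w with
  | nil =>
    intro a b
    simp [PP, pM]
  | cons s w ih =>
    intro a b
    rw [PP, map_sum]
    have h : pM x (s :: w) = x s * pM x w := by simp [pM]
    rw [h, Matrix.mul_apply]
    refine Finset.sum_congr rfl fun c _ => ?_
    rw [map_mul, MvPolynomial.eval_X, ih c b]

theorem PP_deriv {ι : Type} [Fintype ι] [DecidableEq ι] {k : ℕ} (x y : ι × Bool → Mat k)
    (w : List (ι × Bool)) : ∀ a b : Fin k, ∑ v, y v.1 v.2.1 v.2.2 *
      MvPolynomial.eval (fun v => x v.1 v.2.1 v.2.2) (MvPolynomial.pderiv v (PP w a b)) =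
        dM x y w a b := by
  induction w with
  | nil =>
    intro a b
    simp [PP, dM]
  | cons s w ih =>
    intro a b
    rw [dM, Matrix.add_apply, Matrix.mul_apply, Matrix.mul_apply]
    have h1 : ∀ v : (ι × Bool) × Fin k × Fin k, y v.1 v.2.1 v.2.2 *
        MvPolynomial.eval (fun v => x v.1 v.2.1 v.2.2)
          (MvPolynomial.pderiv v (PP (s :: w) a b)) =
        ∑ c : Fin k, (if v = (s, a, c) then y s a c * pM x w c b else 0) +
          ∑ c : Fin k, x s a c * (y v.1 v.2.1 v.2.2 *
            MvPolynomial.eval (fun v => x v.1 v.2.1 v.2.2)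
              (MvPolynomial.pderiv v (PP w c b))) := by
      intro v
      rw [PP, map_sum, map_sum, Finset.mul_sum, ← Finset.sum_add_distrib]
      refine Finset.sum_congr rfl fun c _ => ?_
      rw [MvPolynomial.pderiv_mul, map_add, map_mul, map_mul, MvPolynomial.eval_X, PP_eval,
        MvPolynomial.pderiv_X]
      by_cases hv : v = (s, a, c)
      · subst hv
        rw [Pi.single_eq_same, map_one, if_pos rfl]
        ring
      · rw [Pi.single_eq_of_ne (fun h => hv h.symm), map_zero, if_neg hv]
        ring
    rw [Finset.sum_congr rfl fun v _ => h1 v, Finset.sum_add_distrib, Finset.sum_comm]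
    congr 1
    · refine Finset.sum_congr rfl fun c _ => ?_
      rw [Finset.sum_ite_eq' Finset.univ ((s, a, c) : (ι × Bool) × Fin k × Fin k)
        (fun _ => y s a c * pM x w c b), if_pos (Finset.mem_univ _)]
    · rw [Finset.sum_comm]
      refine Finset.sum_congr rfl fun c _ => ?_
      rw [← Finset.mul_sum, ih c b]

end MU1

/-- MU1: words as polynomials in the entries. -/
theorem t_MU1 : S_MU1 := by
  intro ι _ _ k w a b
  exact ⟨MU1.PP w a b, MU1.PP_deg w a b, fun x => MU1.PP_eval x w a b,
    fun x y => MU1.PP_deriv x y w a b⟩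

end Pool.Agent.H755R2.NG
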