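import Pool.Agent.H755R2.NG.Stubs

set_option autoImplicit false

namespace Pool.Agent.H755R2.NG

open Matrix Pool.Agent.H667R2.FG

namespace MU2

variable {k : ℕ} {ι : Type}

/-- the letters of `U` -/
noncomputable def xx (U : ι → UU k) (s : ι × Bool) : Mat k := lt U s.1 s.2

theorem pM_xx (U : ι → UU k) (w : List (ι × Bool)) : pM (xx U) w = pL U w := rfl

theorem dM_xx (U : ι → UU k) (h : ι → Mat k) (w : List (ι × Bool)) :
    dM (xx U) (fun s => dlt U h s.1 s.2) w = dL U h w := by
  induction w with
  | nil => rfl
  | cons s w ih =>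
    show dlt U h s.1 s.2 * pM (xx U) w + xx U s * dM (xx U) (fun s => dlt U h s.1 s.2) w = _
    rw [ih]
    rfl

theorem wd_eq [DecidableEq ι] (U : ι → UU k) (w : FreeGroup ι) :
    (wd U w : Mat k) = pL U w.toWord := by
  unfold wd pL
  conv_lhs => rw [← FreeGroup.mk_toWord (x := w), FreeGroup.lift_mk]
  generalize w.toWord = L
  induction L with
  | nil => rfl
  | cons s L ih =>
    rw [List.map_cons, List.prod_cons, List.map_cons, List.prod_cons]
    rw [← ih]
    have : ((cond s.2 (U s.1) (U s.1)⁻¹ : UU k) : Mat k) = lt U s.1 s.2 := by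
      unfold lt
      cases s.2 <;> rfl
    rw [← this]
    rfl

theorem xx_true (U : ι → UU k) (i : ι) : xx U (i, true) = (U i : Mat k) := by
  unfold xx lt; simp

theorem xx_false (U : ι → UU k) (i : ι) : xx U (i, false) = (((U i)⁻¹ : UU k) : Mat k) := by
  unfold xx lt; simp

theorem U_inv (U : ι → UU k) (i : ι) : (U i : Mat k) * (((U i)⁻¹ : UU k) : Mat k) = 1 := by
  have h : (U i) * (U i)⁻¹ = 1 := mul_inv_cancel _
  have h2 := congrArg (fun x : UU k => (x : Mat k)) h
  simpa using h2

theorem inv_U (U : ι → UU k) (i : ι) : (((U i)⁻¹ : UU k) : Mat k) * (U i : Mat k) = 1 := by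
  have h : (U i)⁻¹ * (U i) = 1 := inv_mul_cancel _
  have h2 := congrArg (fun x : UU k => (x : Mat k)) h
  simpa using h2

end MU2

open MU2

theorem t_MU2 (hB : S_BEZ) (hM : S_MU1) : S_MU2 := by
  intro ι _ _ F
  classical
  -- the degree
  set D : ℕ := 2 + ∑ i, ∑ w ∈ (F i).support, w.toWord.length with hD
  refine ⟨D ^ (Fintype.card ι * 2), ?_⟩
  intro k z T hT
  choose P hPdeg hPval hPder using fun (w : List (ι × Bool)) (a b : Fin k) => hM ι k w a b
  -- the equations
  let f : (ι × Bool) × Fin k × Fin k → MvPolynomial ((ι × Bool) × Fin k × Fin k) ℂ := fun e =>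
    if e.1.2 then (∑ w ∈ (F e.1.1).support, MvPolynomial.C (F e.1.1 w) * P w.toWord e.2.1 e.2.2) -
      MvPolynomial.C (z e.1.1 e.2.1 e.2.2)
    else P [(e.1.1, true), (e.1.1, false)] e.2.1 e.2.2 -
      MvPolynomial.C ((1 : Mat k) e.2.1 e.2.2)
  let pt : (ι → UU k) → ((ι × Bool) × Fin k × Fin k → ℂ) := fun U v => xx U v.1 v.2.1 v.2.2
  have hinj : Function.Injective pt := by
    intro U U' h
    funext i
    apply Subtype.ext
    ext a b
    have h1 := congrFun h ((i, true), a, b)
    show (U i : Mat k) a b = (U' i : Mat k) a b
    have h2 : xx U (i, true) a b = xx U' (i, true) a b := h1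
    rwa [xx_true, xx_true] at h2
  have hcard : (T.image pt).card = T.card := Finset.card_image_of_injective T hinj
  rw [← hcard]
  have hD0 : 0 < D := by omega
  have hmain := hB ((ι × Bool) × Fin k × Fin k) D hD0 f ?_ (T.image pt) ?_ ?_
  · refine hmain.trans (le_of_eq ?_)
    rw [← pow_mul]
    congr 1
    rw [Fintype.card_prod, Fintype.card_prod, Fintype.card_prod, Fintype.card_fin, Fintype.card_bool]
    ring
  · -- degrees
    intro e
    obtain ⟨⟨i, b⟩, a, c⟩ := e
    cases b
    · show (P [(i, true), (i, false)] a c - MvPolynomial.C ((1 : Mat k) a c)).totalDegree ≤ D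
      refine (MvPolynomial.totalDegree_sub _ _).trans ?_
      rw [MvPolynomial.totalDegree_C]
      have := hPdeg [(i, true), (i, false)] a c
      simp only [List.length_cons, List.length_nil] at this
      apply max_le <;> omega
    · show ((∑ w ∈ (F i).support, MvPolynomial.C (F i w) * P w.toWord a c) -
        MvPolynomial.C (z i a c)).totalDegree ≤ D
      refine (MvPolynomial.totalDegree_sub _ _).trans ?_
      rw [MvPolynomial.totalDegree_C]
      apply max_le _ (Nat.zero_le _)
      apply MvPolynomial.totalDegree_finsetSum_le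
      intro w hw
      refine (MvPolynomial.totalDegree_mul _ _).trans ?_
      rw [MvPolynomial.totalDegree_C, zero_add]
      refine (hPdeg w.toWord a c).trans ?_
      have h1 : w.toWord.length ≤ ∑ w ∈ (F i).support, w.toWord.length :=
        Finset.single_le_sum (f := fun w : FreeGroup ι => w.toWord.length)
          (fun _ _ => Nat.zero_le _) hw
      have h2 : ∑ w ∈ (F i).support, w.toWord.length ≤
          ∑ i, ∑ w ∈ (F i).support, w.toWord.length :=
        Finset.single_le_sum (f := fun i => ∑ w ∈ (F i).support, w.toWord.length)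
          (fun _ _ => Nat.zero_le _) (Finset.mem_univ i)
      omega
  · -- zeros
    intro p hp e
    rw [Finset.mem_image] at hp
    obtain ⟨U, hU, rfl⟩ := hp
    obtain ⟨hz, -⟩ := hT U hU
    obtain ⟨⟨i, b⟩, a, c⟩ := e
    cases b
    · show MvPolynomial.eval (pt U) (P [(i, true), (i, false)] a c -
        MvPolynomial.C ((1 : Mat k) a c)) = 0
      rw [map_sub, MvPolynomial.eval_C]
      have h := hPval [(i, true), (i, false)] a c (xx U)
      have h' : MvPolynomial.eval (pt U) (P [(i, true), (i, false)] a c) =
        pM (xx U) [(i, true), (i, false)] a c := h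
      rw [h']
      have h2 : pM (xx U) [(i, true), (i, false)] = 1 := by
        show xx U (i, true) * (xx U (i, false) * 1) = 1
        rw [mul_one, xx_true, xx_false, U_inv]
      rw [h2, sub_self]
    · show MvPolynomial.eval (pt U) ((∑ w ∈ (F i).support, MvPolynomial.C (F i w) * P w.toWord a c) -
        MvPolynomial.C (z i a c)) = 0
      rw [map_sub, MvPolynomial.eval_C, map_sum, ← hz i]
      have h3 : (pol U (F i) : Mat k) a c = ∑ w ∈ (F i).support, F i w * pL U w.toWord a c := by
        unfold pol
        rw [Finsupp.sum, Matrix.sum_apply]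
        apply Finset.sum_congr rfl
        intro w _
        rw [wd_eq, Matrix.smul_apply, smul_eq_mul]
      rw [h3, sub_eq_zero]
      apply Finset.sum_congr rfl
      intro w _
      rw [map_mul, MvPolynomial.eval_C]
      have h := hPval w.toWord a c (xx U)
      have h' : MvPolynomial.eval (pt U) (P w.toWord a c) = pM (xx U) w.toWord a c := h
      rw [h', pM_xx]
  · -- nondegenerate
    intro p hp v hv
    rw [Finset.mem_image] at hp
    obtain ⟨U, hU, rfl⟩ := hp
    obtain ⟨-, hJ⟩ := hT U hU
    let y : ι × Bool → Mat k := fun s a b => v (s, a, b)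
    have hder : ∀ (w : List (ι × Bool)) (a b : Fin k),
        ∑ j, v j * MvPolynomial.eval (pt U) (MvPolynomial.pderiv j (P w a b)) = dM (xx U) y w a b :=
      fun w a b => hPder w a b (xx U) y
    have e1 : ∀ i, y (i, true) * (((U i)⁻¹ : UU k) : Mat k) + (U i : Mat k) * y (i, false) = 0 := by
      intro i
      ext a b
      have h := hv ((i, false), a, b)
      have h2 : ∀ j, MvPolynomial.pderiv j (f ((i, false), a, b)) =
          MvPolynomial.pderiv j (P [(i, true), (i, false)] a b) := by
        intro j
        show MvPolynomial.pderiv j (P [(i, true), (i, false)] a b -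
          MvPolynomial.C ((1 : Mat k) a b)) = _
        rw [map_sub, MvPolynomial.pderiv_C, sub_zero]
      simp only [h2] at h
      rw [hder] at h
      have h3 : dM (xx U) y [(i, true), (i, false)] =
          y (i, true) * (((U i)⁻¹ : UU k) : Mat k) + (U i : Mat k) * y (i, false) := by
        show y (i, true) * (xx U (i, false) * 1) +
          xx U (i, true) * (y (i, false) * 1 + xx U (i, false) * 0) = _
        rw [xx_true, xx_false]
        simp
      rw [h3] at h
      exact h
    have e2 : ∀ i, ∑ w ∈ (F i).support, (F i w) • dM (xx U) y w.toWord = 0 := by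
      intro i
      ext a b
      have h := hv ((i, true), a, b)
      have h2 : ∀ j, MvPolynomial.pderiv j (f ((i, true), a, b)) =
          ∑ w ∈ (F i).support, MvPolynomial.C (F i w) *
            MvPolynomial.pderiv j (P w.toWord a b) := by
        intro j
        show MvPolynomial.pderiv j ((∑ w ∈ (F i).support, MvPolynomial.C (F i w) * P w.toWord a b) -
          MvPolynomial.C (z i a b)) = _
        rw [map_sub, MvPolynomial.pderiv_C, sub_zero, map_sum]
        apply Finset.sum_congr rfl
        intro w _
        rw [MvPolynomial.pderiv_C_mul]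
      simp only [h2, map_sum, map_mul, MvPolynomial.eval_C] at h
      rw [Matrix.sum_apply, Matrix.zero_apply]
      have h4 : ∑ w ∈ (F i).support, ((F i w) • dM (xx U) y w.toWord) a b =
          ∑ w ∈ (F i).support, F i w *
            ∑ j, v j * MvPolynomial.eval (pt U) (MvPolynomial.pderiv j (P w.toWord a b)) := by
        apply Finset.sum_congr rfl
        intro w _
        rw [hder, Matrix.smul_apply, smul_eq_mul]
      rw [h4, ← h]
      simp only [Finset.mul_sum]
      rw [Finset.sum_comm]
      apply Finset.sum_congr rfl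
      intro j _
      apply Finset.sum_congr rfl
      intro w _
      ring
    -- the direction `h`
    let h : ι → Mat k := fun i => (((U i)⁻¹ : UU k) : Mat k) * y (i, true)
    have hy : y = fun s => dlt U h s.1 s.2 := by
      funext s
      obtain ⟨i, b⟩ := s
      cases b
      · show y (i, false) = dlt U h i false
        have h5 : dlt U h i false = -(h i * (((U i)⁻¹ : UU k) : Mat k)) := by
          unfold dlt; simp
        rw [h5]
        have h6 := congrArg (fun M : Mat k => (((U i)⁻¹ : UU k) : Mat k) * M) (e1 i)
        simp only [mul_add, mul_zero] at h6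
        rw [← mul_assoc, ← mul_assoc, inv_U, one_mul] at h6
        exact eq_neg_of_add_eq_zero_right h6
      · show y (i, true) = dlt U h i true
        have h5 : dlt U h i true = (U i : Mat k) * h i := by
          unfold dlt; simp
        rw [h5]
        show y (i, true) = (U i : Mat k) * ((((U i)⁻¹ : UU k) : Mat k) * y (i, true))
        rw [← mul_assoc, U_inv, one_mul]
    have hDD : DD U F h = 0 := by
      funext i
      show dF U h (F i) = 0
      unfold dF
      rw [Finsupp.sum, ← e2 i]
      apply Finset.sum_congr rfl
      intro w _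
      rw [hy, dM_xx]
    have hh0 : h = 0 := by
      have hunit : IsUnit (DD U F) := by
        rw [LinearMap.isUnit_iff_isUnit_det]
        exact isUnit_iff_ne_zero.mpr hJ
      have hker := (LinearMap.isUnit_iff_ker_eq_bot (DD U F)).mp hunit
      exact (LinearMap.ker_eq_bot'.mp hker) h hDD
    funext j
    obtain ⟨s, a, b⟩ := j
    have h7 : y s = 0 := by
      rw [hy, hh0]
      show dlt U 0 s.1 s.2 = 0
      unfold dlt
      split_ifs <;> simp
    have h8 : y s a b = 0 := by rw [h7]; rfl
    exact h8

end Pool.Agent.H755R2.NG
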