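import Pool.Agent.H755R2.NG.Stubs

/-! # Negative moments of polynomials -/

namespace Pool.Agent.H755R2.NG

open MeasureTheory Matrix Filter Pool.Agent.H667R2.FG
open scoped Matrix.Norms.L2Operator ComplexConjugate ENNReal Topology

namespace Naux

theorem enorm_finset_prod {ι : Type*} (s : Finset ι) (f : ι → ℂ) :
    ‖∏ i ∈ s, f i‖ₑ = ∏ i ∈ s, ‖f i‖ₑ := by
  classical
  induction s using Finset.induction_on with
  | empty => simp
  | insert a s ha ih => rw [Finset.prod_insert ha, Finset.prod_insert ha, enorm_mul, ih]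

theorem exists_roots {p : Polynomial ℂ} {D : ℕ} (hp : p.natDegree = D) :
    ∃ w : Fin D → ℂ, ∀ z, p.eval z = p.coeff D * ∏ i, (z - w i) := by
  subst hp
  have hs := IsAlgClosed.splits p
  have hcard : p.roots.toList.length = p.natDegree := by
    rw [Multiset.length_toList, ← hs.natDegree_eq_card_roots]
  refine ⟨fun i => p.roots.toList.get (i.cast hcard.symm), fun z => ?_⟩
  have h1 := congrArg (Polynomial.eval z) hs.eq_prod_roots
  rw [Polynomial.eval_mul, Polynomial.eval_C, Polynomial.eval_multiset_prod, Multiset.map_map] at h1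
  rw [h1]
  congr 1
  have h2 : (p.roots.map ((Polynomial.eval z) ∘ fun a => Polynomial.X - Polynomial.C a)).prod =
      (p.roots.toList.map fun a => z - a).prod := by
    conv_lhs => rw [← Multiset.coe_toList p.roots, Multiset.map_coe, Multiset.prod_coe]
    simp [Function.comp_def]
  rw [h2]
  have h3 : (p.roots.toList.map fun a => z - a) =
      List.ofFn (fun i : Fin p.natDegree => z - p.roots.toList.get (i.cast hcard.symm)) := by
    apply List.ext_getElem
    · simp [hcard]
    · intro i h1 h2
      simp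
  rw [h3, List.prod_ofFn]

end Naux

open Naux in
theorem t_N : S_N := by
  intro Ω _ ν ζ hζ α hα K hK hb D hD p hp
  have hDR : (0 : ℝ) < D := by exact_mod_cast hD
  have hβ : 0 < α / D := by positivity
  by_cases h0 : p.coeff D = 0
  · rw [h0, enorm_zero, ENNReal.zero_rpow_of_neg (by linarith), ENNReal.mul_top hK]
    exact le_top
  · have hdeg : p.natDegree = D :=
      le_antisymm hp (Polynomial.le_natDegree_of_ne_zero h0)
    obtain ⟨w, hw⟩ := exists_roots hdeg
    have hptw : ∀ x, ‖p.eval (ζ x)‖ₑ ^ (-(α / D)) =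
        ‖p.coeff D‖ₑ ^ (-(α / D)) * ∏ i : Fin D, (‖ζ x - w i‖ₑ ^ (-α)) ^ (1 / (D : ℝ)) := by
      intro x
      rw [hw, enorm_mul, enorm_finset_prod, ENNReal.mul_rpow_of_ne_top enorm_ne_top
        (ENNReal.prod_ne_top fun i _ => enorm_ne_top),
        ← ENNReal.prod_rpow_of_ne_top (fun i _ => enorm_ne_top)]
      congr 1
      apply Finset.prod_congr rfl
      intro i _
      rw [← ENNReal.rpow_mul]
      congr 1
      ring
    have hmeas : ∀ i : Fin D, Measurable fun x => ‖ζ x - w i‖ₑ ^ (-α) := fun i =>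
      (hζ.sub_const (w i)).enorm.pow_const _
    simp only [hptw]
    rw [lintegral_const_mul _ (Finset.measurable_prod _ fun i _ => (hmeas i).pow_const _), mul_comm]
    gcongr
    refine (ENNReal.lintegral_prod_norm_pow_le Finset.univ (fun i _ => (hmeas i).aemeasurable)
      (p := fun _ => 1 / (D : ℝ)) ?_ (fun _ _ => by positivity)).trans ?_
    · rw [Finset.sum_const, Finset.card_univ, Fintype.card_fin, nsmul_eq_mul]
      field_simp
    · calc ∏ i : Fin D, (∫⁻ x, ‖ζ x - w i‖ₑ ^ (-α) ∂ν) ^ (1 / (D : ℝ))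
          ≤ ∏ _i : Fin D, K ^ (1 / (D : ℝ)) :=
            Finset.prod_le_prod' fun i _ => ENNReal.rpow_le_rpow (hb (w i)) (by positivity)
        _ = K := by
            rw [Finset.prod_const, Finset.card_univ, Fintype.card_fin, ← ENNReal.rpow_natCast,
              ← ENNReal.rpow_mul, one_div, inv_mul_cancel₀ hDR.ne', ENNReal.rpow_one]

end Pool.Agent.H755R2.NG
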