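import Pool.Agent.H755R2.NG.Stubs

/-! NRM: norm of `a δ_1` -/

namespace Pool.Agent.H755R2.NG

open MeasureTheory Matrix Filter Pool.Agent.H667R2.FG
open scoped Matrix.Norms.L2Operator ComplexConjugate ENNReal InnerProductSpace

/-- the left regular representation as a homomorphism to the unitary group -/
noncomputable def NRM_hom (G : Type) [Group G] : G →* unitary (Ell G →L[ℂ] Ell G) where
  toFun g := ⟨lam g, lam_unitary g⟩
  map_one' := Subtype.ext lam_one
  map_mul' g h := Subtype.ext (lam_mul g h)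

theorem NRM_wd (ι : Type) (w : FreeGroup ι) : wd (lamU ι) w = lam w := by
  have h : FreeGroup.lift (lamU ι) = NRM_hom (FreeGroup ι) := by
    apply FreeGroup.ext_hom
    intro i
    rw [FreeGroup.lift_apply_of]
    rfl
  unfold wd
  rw [h]
  rfl

theorem t_NRM : S_NRM := by
  classical
  intro ι a
  have h1 : (pol (lamU ι) a : Ell (FreeGroup ι) →L[ℂ] Ell (FreeGroup ι)) (delta 1) =
      ∑ g ∈ a.support, a g • delta g := by
    unfold pol
    rw [Finsupp.sum, ContinuousLinearMap.sum_apply]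
    refine Finset.sum_congr rfl fun g _ => ?_
    rw [NRM_wd, ContinuousLinearMap.smul_apply, lam_delta, mul_one]
  rw [h1]
  set x : Ell (FreeGroup ι) := ∑ g ∈ a.support, a g • delta g with hx
  have h2 : ∀ g, ⟪(delta g : Ell (FreeGroup ι)), x⟫_ℂ = a g := by
    intro g
    rw [hx, inner_sum]
    have h3 : ∀ h ∈ a.support, ⟪(delta g : Ell (FreeGroup ι)), a h • delta h⟫_ℂ =
        if h = g then a h else 0 := by
      intro h _
      rw [inner_smul_right, TL2.inner_delta, TL2.delta_apply]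
      by_cases hh : g = h
      · subst hh; simp
      · simp [hh, Ne.symm hh]
    rw [Finset.sum_congr rfl h3, Finset.sum_ite_eq']
    split_ifs with hg
    · rfl
    · exact (Finsupp.notMem_support_iff.mp hg).symm
  have h4 : ⟪x, x⟫_ℂ = ((∑ g ∈ a.support, ‖a g‖ ^ 2 : ℝ) : ℂ) := by
    conv_lhs => rw [show ⟪x, x⟫_ℂ = ⟪∑ g ∈ a.support, a g • delta g, x⟫_ℂ from by rw [← hx]]
    rw [sum_inner]
    push_cast
    refine Finset.sum_congr rfl fun g _ => ?_
    rw [inner_smul_left, h2, Complex.conj_mul']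
  rw [inner_self_eq_norm_sq_to_K] at h4
  have h5 : ((‖x‖ ^ 2 : ℝ) : ℂ) = ((∑ g ∈ a.support, ‖a g‖ ^ 2 : ℝ) : ℂ) := by
    rw [← h4, Complex.ofReal_pow]
    rfl
  exact Complex.ofReal_injective h5

end Pool.Agent.H755R2.NG
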