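import Pool.Agent.H755R2.NG.Stubs

/-! REP: polynomials in `F_j` are combinations of words -/

namespace Pool.Agent.H755R2.NG

open MeasureTheory Matrix Filter Pool.Agent.H667R2.FG
open scoped Matrix.Norms.L2Operator ComplexConjugate ENNReal

/-- the word map as a monoid homomorphism -/
def REP_hom {ι A : Type} [Ring A] [StarRing A] (V : ι → unitary A) : FreeGroup ι →* A :=
  (unitary A).subtype.comp (FreeGroup.lift V)

theorem REP_pol {ι A : Type} [Ring A] [StarRing A] [Algebra ℂ A] (V : ι → unitary A)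
    (f : FreeGroup ι →₀ ℂ) : pol V f =
      MonoidAlgebra.lift ℂ A (FreeGroup ι) (REP_hom V) (MonoidAlgebra.ofCoeff f) := by
  rw [MonoidAlgebra.lift_apply]
  rfl

theorem t_REP : S_REP := by
  intro ι d F i Q
  refine ⟨Finsupp.single (FreeGroup.of i) 1 -
    (FreeAlgebra.lift ℂ (fun j => MonoidAlgebra.ofCoeff (F j)) Q).coeff, ?_⟩
  intro A _ _ _ V
  have h1 : ∀ x : MonoidAlgebra ℂ (FreeGroup ι), pol V x.coeff =
      MonoidAlgebra.lift ℂ A (FreeGroup ι) (REP_hom V) x := fun x => REP_pol V x.coeff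
  have h2 : pol V (Finsupp.single (FreeGroup.of i) (1 : ℂ)) = (V i : A) := by
    unfold pol wd
    rw [Finsupp.sum_single_index (by simp)]
    simp
  have h3 : ∀ f g : FreeGroup ι →₀ ℂ, pol V (f - g) = pol V f - pol V g := by
    intro f g
    unfold pol
    exact Finsupp.sum_sub_index (fun a b c => sub_smul _ _ _)
  have h4 : (MonoidAlgebra.lift ℂ A (FreeGroup ι) (REP_hom V)).comp
      (FreeAlgebra.lift ℂ (fun j => MonoidAlgebra.ofCoeff (F j))) =
      FreeAlgebra.lift ℂ (fun j => pol V (F j)) := by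
    apply FreeAlgebra.hom_ext
    funext j
    simp only [Function.comp_apply, AlgHom.comp_apply, FreeAlgebra.lift_ι_apply]
    exact (REP_pol V (F j)).symm
  rw [h3, h2, h1, ← h4]
  rfl

end Pool.Agent.H755R2.NG
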