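import Pool.Agent.H755R2.NG.Stubs

/-! # Task ROT1: rotation (helper819) -/

namespace Pool.Agent.H755R2.NG

open MeasureTheory Matrix Filter Pool.Agent.H667R2.FG
open scoped Matrix.Norms.L2Operator ComplexConjugate ENNReal

namespace ROT1

variable {k : ℕ} {ι : Type}

/-- left multiplications -/
noncomputable def AA (U : ι → UU k) : (ι → Mat k) →ₗ[ℂ] (ι → Mat k) where
  toFun h := fun i => (U i : Mat k) * h i
  map_add' h h' := by
    funext i
    simp [mul_add]
  map_smul' c h := by
    funext i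
    simp

/-- right multiplications -/
noncomputable def BB (U : ι → UU k) : (ι → Mat k) →ₗ[ℂ] (ι → Mat k) where
  toFun h := fun i => -(h i * (((U i)⁻¹ : UU k) : Mat k))
  map_add' h h' := by
    funext i
    simp [add_mul]
    abel
  map_smul' c h := by
    funext i
    simp

theorem dL_single (U : ι → UU k) (h : ι → Mat k) (i : ι) (b : Bool) :
    dL U h [(i, b)] = dlt U h i b := by
  simp [dL, pL]

theorem DD_bb [DecidableEq ι] (U : ι → UU k) : DD U bb = AA U + BB U := by
  apply LinearMap.ext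
  intro h
  funext i
  change dF U h (bb i) = (U i : Mat k) * h i + -(h i * (((U i)⁻¹ : UU k) : Mat k))
  have hlin : ∀ f g : FreeGroup ι →₀ ℂ, dF U h (f + g) = dF U h f + dF U h g := fun f g =>
    Finsupp.sum_add_index' (fun _ => zero_smul _ _) (fun _ _ _ => add_smul _ _ _)
  have hs : ∀ g : FreeGroup ι, dF U h (Finsupp.single g 1) = dL U h g.toWord := by
    intro g
    have h1 : dF U h (Finsupp.single g 1) = (1 : ℂ) • dL U h g.toWord := by
      unfold dF
      exact Finsupp.sum_single_index (zero_smul ℂ (dL U h g.toWord))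
    rw [h1, one_smul]
  unfold bb
  rw [hlin, hs, hs, FreeGroup.toWord_inv, FreeGroup.toWord_of]
  have e : FreeGroup.invRev [(i, true)] = [(i, false)] := rfl
  rw [e, dL_single, dL_single]
  unfold dlt
  simp

theorem norm_expI (φ : ℝ) : ‖Complex.exp (φ * Complex.I)‖ = 1 := Complex.norm_exp_ofReal_mul_I φ

theorem AA_ph (U : ι → UU k) (φ : ℝ) :
    AA (fun i => ph k φ * U i) = Complex.exp (φ * Complex.I) • AA U := by
  apply LinearMap.ext
  intro h
  funext i
  change ((ph k φ * U i : UU k) : Mat k) * h i =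
    Complex.exp (φ * Complex.I) • ((U i : Mat k) * h i)
  have : ((ph k φ * U i : UU k) : Mat k) = Complex.exp (φ * Complex.I) • (U i : Mat k) := by
    change (Complex.exp (φ * Complex.I) • (1 : Mat k)) * (U i : Mat k) = _
    rw [smul_mul_assoc, one_mul]
  rw [this, smul_mul_assoc]

theorem BB_ph (U : ι → UU k) (φ : ℝ) :
    BB (fun i => ph k φ * U i) = conj (Complex.exp (φ * Complex.I)) • BB U := by
  apply LinearMap.ext
  intro h
  funext i
  change -(h i * (((ph k φ * U i)⁻¹ : UU k) : Mat k)) =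
    conj (Complex.exp (φ * Complex.I)) • (-(h i * (((U i)⁻¹ : UU k) : Mat k)))
  have : (((ph k φ * U i)⁻¹ : UU k) : Mat k) =
      conj (Complex.exp (φ * Complex.I)) • (((U i)⁻¹ : UU k) : Mat k) := by
    change star ((Complex.exp (φ * Complex.I) • (1 : Mat k)) * (U i : Mat k)) =
      conj (Complex.exp (φ * Complex.I)) • star (U i : Mat k)
    rw [smul_mul_assoc, one_mul, star_smul]
    rfl
  rw [this, mul_smul_comm, smul_neg]

/-- coordinates -/
noncomputable def eq (k : ℕ) (ι : Type) : (ι → Mat k) ≃ₗ[ℂ] (ι × Fin k × Fin k → ℂ) where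
  toFun h := fun x => h x.1 x.2.1 x.2.2
  map_add' h h' := by
    funext x
    rfl
  map_smul' c h := by
    funext x
    rfl
  invFun g := fun i => Matrix.of fun p q => g (i, p, q)
  left_inv h := by
    funext i
    ext p q
    rfl
  right_inv g := by
    funext x
    rfl

/-- the matrix of `AA U` -/
noncomputable def MA [DecidableEq ι] (U : ι → UU k) :
    Matrix (ι × Fin k × Fin k) (ι × Fin k × Fin k) ℂ :=
  fun x y => if x.1 = y.1 ∧ x.2.2 = y.2.2 then (U x.1 : Mat k) x.2.1 y.2.1 else 0

theorem toLin_MA [Fintype ι] [DecidableEq ι] (U : ι → UU k) :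
    Matrix.toLin' (MA U) = (eq k ι : (ι → Mat k) →ₗ[ℂ] _) ∘ₗ AA U ∘ₗ
      ((eq k ι).symm : (ι × Fin k × Fin k → ℂ) →ₗ[ℂ] _) := by
  apply LinearMap.ext
  intro g
  funext x
  rw [Matrix.toLin'_apply]
  change ∑ y, MA U x y * g y = ((U x.1 : Mat k) * (Matrix.of fun p q => g (x.1, p, q))) x.2.1 x.2.2
  rw [Fintype.sum_prod_type, Finset.sum_eq_single x.1, Fintype.sum_prod_type, Matrix.mul_apply]
  · refine Finset.sum_congr rfl fun p _ => ?_
    rw [Finset.sum_eq_single x.2.2]
    · simp [MA]
    · intro q _ hq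
      simp [MA, Ne.symm hq]
    · intro h; exact absurd (Finset.mem_univ _) h
  · intro i _ hi
    refine Finset.sum_eq_zero fun q _ => ?_
    simp [MA, Ne.symm hi]
  · intro h; exact absurd (Finset.mem_univ _) h

theorem MA_unitary [Fintype ι] [DecidableEq ι] (U : ι → UU k) :
    MA U ∈ Matrix.unitaryGroup (ι × Fin k × Fin k) ℂ := by
  rw [Matrix.mem_unitaryGroup_iff]
  ext x z
  rw [Matrix.mul_apply, Fintype.sum_prod_type, Finset.sum_eq_single x.1, Fintype.sum_prod_type]
  · have h1 : ∀ p : Fin k, ∑ q : Fin k, MA U x (x.1, p, q) * star (MA U) (x.1, p, q) z =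
        (U x.1 : Mat k) x.2.1 p * (if z.1 = x.1 ∧ z.2.2 = x.2.2 then
          star ((U x.1 : Mat k) z.2.1 p) else 0) := by
      intro p
      rw [Finset.sum_eq_single x.2.2]
      · rw [Matrix.star_apply]
        unfold MA
        by_cases h : z.1 = x.1 ∧ z.2.2 = x.2.2
        · rw [if_pos ⟨rfl, rfl⟩, if_pos h, if_pos h, h.1]
        · rw [if_pos ⟨rfl, rfl⟩, if_neg h, if_neg h, star_zero]
      · intro q _ hq
        simp [MA, Ne.symm hq]
      · intro h; exact absurd (Finset.mem_univ _) h
    rw [Finset.sum_congr rfl fun p _ => h1 p]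
    by_cases h : z.1 = x.1 ∧ z.2.2 = x.2.2
    · simp only [if_pos h]
      have h2 : (U x.1 : Mat k) * star (U x.1 : Mat k) = 1 :=
        Matrix.mem_unitaryGroup_iff.mp (U x.1).2
      have h3 := congrFun (congrFun h2 x.2.1) z.2.1
      rw [Matrix.mul_apply] at h3
      simp only [Matrix.star_apply] at h3
      rw [h3, Matrix.one_apply, Matrix.one_apply]
      obtain ⟨x1, x2, x3⟩ := x
      obtain ⟨z1, z2, z3⟩ := z
      obtain ⟨rfl, rfl⟩ := h
      simp
    · simp only [if_neg h, mul_zero, Finset.sum_const_zero]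
      rw [Matrix.one_apply, if_neg]
      rintro rfl
      exact h ⟨rfl, rfl⟩
  · intro i _ hi
    refine Finset.sum_eq_zero fun q _ => ?_
    simp [MA, Ne.symm hi]
  · intro h; exact absurd (Finset.mem_univ _) h

theorem norm_det_AA [Fintype ι] [DecidableEq ι] (U : ι → UU k) :
    ‖LinearMap.det (AA U)‖ = 1 := by
  have h1 : LinearMap.det (AA U) = (MA U).det := by
    rw [← LinearMap.det_toLin', toLin_MA, LinearMap.det_conj]
  rw [h1]
  have h2 := Matrix.det_of_mem_unitary (MA_unitary U)
  exact CStarRing.norm_of_mem_unitary h2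

end ROT1

open ROT1 in
theorem t_ROT1 (h : S_DETP) : S_ROT1 := by
  intro ι _ _ k hk U
  have hfin : Module.finrank ℂ (ι → Mat k) = Fintype.card ι * k ^ 2 := by
    rw [Module.finrank_pi_fintype]
    simp only [Module.finrank_matrix, Fintype.card_fin, Module.finrank_self, mul_one,
      Finset.sum_const, Finset.card_univ, smul_eq_mul]
    ring
  obtain ⟨p, hp1, hp2, hp3⟩ := h (ι → Mat k) (AA U) (BB U)
  rw [hfin] at hp1 hp2
  refine ⟨p, hp1, ?_, fun φ => ?_⟩
  · rw [hp2, norm_det_AA]
  · rw [hp3]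
    unfold Jd
    rw [DD_bb, AA_ph, BB_ph]
    have hn : ‖Complex.exp (((φ / 2 : ℝ) : ℂ) * Complex.I)‖ = 1 := norm_expI (φ / 2)
    have hz : Complex.exp (φ * Complex.I) =
        Complex.exp (((φ / 2 : ℝ) : ℂ) * Complex.I) * Complex.exp (((φ / 2 : ℝ) : ℂ) * Complex.I) := by
      rw [← Complex.exp_add]
      congr 1
      push_cast
      ring
    have hcz : conj (Complex.exp (((φ / 2 : ℝ) : ℂ) * Complex.I)) *
        Complex.exp (((φ / 2 : ℝ) : ℂ) * Complex.I) = 1 := by
      rw [mul_comm, Complex.mul_conj, Complex.normSq_eq_norm_sq, hn]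
      simp
    generalize Complex.exp (((φ / 2 : ℝ) : ℂ) * Complex.I) = z at hn hz hcz
    have e : z • AA U + conj z • BB U = conj z • (Complex.exp (φ * Complex.I) • AA U + BB U) := by
      rw [smul_add, smul_smul, hz, ← mul_assoc, hcz, one_mul]
    rw [e, LinearMap.det_smul, norm_mul, norm_pow]
    have : ‖conj z‖ = 1 := by rw [RCLike.norm_conj, hn]
    rw [this, one_pow, one_mul]

end Pool.Agent.H755R2.NG
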