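import Pool.Agent.H755R2.NG.Stubs

/-! Task ROT2: Haar bound for the base Jacobian -/

namespace Pool.Agent.H755R2.NG

open MeasureTheory Matrix Filter Pool.Agent.H667R2.FG
open scoped Matrix.Norms.L2Operator ComplexConjugate ENNReal

theorem ROT2_sc (k : ℕ) : SecondCountableTopology (UU k) := by
  have h : SecondCountableTopology (Mat k) :=
    inferInstanceAs (SecondCountableTopology (Fin k → Fin k → ℂ))
  exact TopologicalSpace.Subtype.secondCountableTopology _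

theorem ROT2_ph_cont (k : ℕ) : Continuous (ph k) := by
  unfold ph
  refine Continuous.subtype_mk ?_ _
  have : Continuous fun φ : ℝ => Complex.exp (φ * Complex.I) := by fun_prop
  exact this.smul continuous_const

theorem ROT2_Jcont (hK : S_CONT) (ι : Type) [Fintype ι] [DecidableEq ι] (k : ℕ) :
    Continuous fun U : ι → UU k => Jd U bb := by
  have h := (hK ι k (fun _ => 0)).comp (Continuous.prodMk_right (1 : ℝ))
  have e : (fun U : ι → UU k => Jd U bb) =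
      (fun p : ℝ × (ι → UU k) => Jd p.2 (fun i => (0 : FreeGroup ι →₀ ℂ) + (p.1 : ℂ) • bb i)) ∘
        (fun U => ((1 : ℝ), U)) := by
    funext U
    simp only [Function.comp_apply, Complex.ofReal_one, one_smul, zero_add]
  rw [e]
  exact h

theorem t_ROT2 (hN : S_N) (hC : S_CIRC) (hR : S_ROT1) (hK : S_CONT) : S_ROT2 := by
  intro ι _ _ _ α hα hα2
  obtain ⟨K, hK0, hKtop, hpot⟩ := hC α hα hα2
  refine ⟨K, hKtop, fun k hk => ?_⟩
  have hsc := ROT2_sc k
  have hDpos : 0 < Fintype.card ι * k ^ 2 := Nat.mul_pos Fintype.card_pos (pow_pos hk 2)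
  obtain ⟨s, hs⟩ : ∃ s : ℝ, s = -(α / (Fintype.card ι * k ^ 2 : ℕ)) := ⟨_, rfl⟩
  rw [← hs]
  -- the inner integral over the rotations
  have key : ∀ U : ι → UU k, ∫⁻ φ in Set.Icc (1 / 2 : ℝ) 2,
      ‖Jd (fun i => ph k (φ / 2) * U i) bb‖ₑ ^ s ≤ K := by
    intro U
    obtain ⟨p, hp1, hp2, hp3⟩ := hR ι k hk U
    have h1 := hN ℝ (volume.restrict (Set.Icc (1 / 2 : ℝ) 2))
      (fun φ : ℝ => Complex.exp (φ * Complex.I)) (by fun_prop) α hα K hK0 hpot
      (Fintype.card ι * k ^ 2) hDpos p hp1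
    rw [← hs] at h1
    have e : ‖p.coeff (Fintype.card ι * k ^ 2)‖ₑ = 1 := by
      rw [← ofReal_norm, hp2, ENNReal.ofReal_one]
    rw [e, ENNReal.one_rpow, mul_one] at h1
    refine le_trans (le_of_eq ?_) h1
    refine lintegral_congr fun φ => ?_
    rw [← ofReal_norm, hp3, ofReal_norm]
  have hcont : Continuous fun q : (ι → UU k) × ℝ =>
      Jd (fun i => ph k (q.2 / 2) * q.1 i) bb := by
    refine (ROT2_Jcont hK ι k).comp ?_
    refine continuous_pi fun i => ?_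
    refine Continuous.mul ?_ ((continuous_apply i).comp continuous_fst)
    exact (ROT2_ph_cont k).comp (continuous_snd.div_const 2)
  have hmeas : Measurable fun q : (ι → UU k) × ℝ =>
      ‖Jd (fun i => ph k (q.2 / 2) * q.1 i) bb‖ₑ ^ s := (hcont.measurable.enorm).pow_const s
  have h2 : ∫⁻ U : ι → UU k, ∫⁻ φ in Set.Icc (1 / 2 : ℝ) 2,
      ‖Jd (fun i => ph k (φ / 2) * U i) bb‖ₑ ^ s ∂volume ∂(haarP k ι) ≤ K := by
    calc _ ≤ ∫⁻ _ : ι → UU k, K ∂(haarP k ι) := lintegral_mono key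
      _ = K := by rw [lintegral_const, measure_univ, mul_one]
  rw [lintegral_lintegral_swap hmeas.aemeasurable] at h2
  have h3 : ∀ φ : ℝ, ∫⁻ U : ι → UU k, ‖Jd (fun i => ph k (φ / 2) * U i) bb‖ₑ ^ s ∂(haarP k ι) =
      ∫⁻ U : ι → UU k, ‖Jd U bb‖ₑ ^ s ∂(haarP k ι) := by
    intro φ
    exact lintegral_mul_left_eq_self (μ := haarP k ι) (fun U : ι → UU k => ‖Jd U bb‖ₑ ^ s)
      (fun _ => ph k (φ / 2))
  simp only [h3] at h2
  rw [lintegral_const, Measure.restrict_apply_univ, Real.volume_Icc] at h2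
  have h4 : (1 : ℝ≥0∞) ≤ ENNReal.ofReal (2 - 1 / 2) := by
    rw [← ENNReal.ofReal_one]
    exact ENNReal.ofReal_le_ofReal (by norm_num)
  calc ∫⁻ U : ι → UU k, ‖Jd U bb‖ₑ ^ s ∂(haarP k ι)
      = (∫⁻ U : ι → UU k, ‖Jd U bb‖ₑ ^ s ∂(haarP k ι)) * 1 := (mul_one _).symm
    _ ≤ (∫⁻ U : ι → UU k, ‖Jd U bb‖ₑ ^ s ∂(haarP k ι)) * ENNReal.ofReal (2 - 1 / 2) :=
        mul_le_mul_right h4 _
    _ ≤ K := h2

end Pool.Agent.H755R2.NG
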