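import Mathlib
import Pool.Agent.H755R2.NG.Stubs

/-! # VN: bicommutant implies 2-norm approximation (helper475) -/

namespace Pool.Agent.H755R2.NG

open MeasureTheory Matrix Filter Pool.Agent.H667R2.FG
open scoped ComplexConjugate InnerProductSpace

theorem vn_gen {H : Type} [NormedAddCommGroup H] [InnerProductSpace ℂ H] [CompleteSpace H]
    {d : ℕ} (x : Fin d → H →L[ℂ] H) (hx : ∀ j, star (x j) = x j) (T : H →L[ℂ] H)
    (hT : T ∈ Set.centralizer (Set.centralizer (Set.range x))) (ξ : H) (ρ : ℝ) (hρ : 0 < ρ) :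
    ∃ Q : FreeAlgebra ℂ (Fin d), ‖(T - FreeAlgebra.lift ℂ x Q) ξ‖ ≤ ρ := by
  classical
  let L : FreeAlgebra ℂ (Fin d) →ₗ[ℂ] H :=
    { toFun := fun Q => (FreeAlgebra.lift ℂ x Q) ξ
      map_add' := fun a b => by simp
      map_smul' := fun c a => by simp }
  let K0 : Submodule ℂ H := LinearMap.range L
  let K : Submodule ℂ H := K0.topologicalClosure
  have hKc : IsClosed (K : Set H) := K0.isClosed_topologicalClosure
  have : CompleteSpace K := hKc.completeSpace_coe
  have hinv : ∀ j, ∀ v ∈ K, x j v ∈ K := by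
    intro j v hv
    have hmap : Set.MapsTo (x j) (K0 : Set H) (K0 : Set H) := by
      rintro _ ⟨Q, rfl⟩
      refine ⟨FreeAlgebra.ι ℂ j * Q, ?_⟩
      show (FreeAlgebra.lift ℂ x (FreeAlgebra.ι ℂ j * Q)) ξ = x j ((FreeAlgebra.lift ℂ x Q) ξ)
      rw [map_mul, FreeAlgebra.lift_ι_apply]
      rfl
    exact hmap.closure (x j).continuous hv
  have hinvo : ∀ j, ∀ v ∈ Kᗮ, x j v ∈ Kᗮ := by
    intro j v hv
    rw [Submodule.mem_orthogonal] at hv ⊢
    intro u hu
    have h1 : (⟪u, x j v⟫_ℂ) = ⟪x j u, v⟫_ℂ := by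
      have h2 := ContinuousLinearMap.adjoint_inner_left (x j) v u
      rw [← ContinuousLinearMap.star_eq_adjoint, hx j] at h2
      exact h2.symm
    rw [h1]
    exact hv _ (hinv j u hu)
  have hcomm : K.starProjection ∈ Set.centralizer (Set.range x) := by
    rw [Set.mem_centralizer_iff]
    rintro _ ⟨j, rfl⟩
    ext v
    show x j (K.starProjection v) = K.starProjection (x j v)
    symm
    refine Submodule.eq_starProjection_of_mem_orthogonal ?_ ?_
    · exact hinv j _ (Submodule.starProjection_apply_mem K v)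
    · rw [← map_sub]
      exact hinvo j _ (Submodule.sub_starProjection_mem_orthogonal v)
  have hTP := (Set.mem_centralizer_iff.1 hT) _ hcomm
  have hξ : ξ ∈ K := by
    refine K0.le_topologicalClosure ⟨1, ?_⟩
    show (FreeAlgebra.lift ℂ x 1) ξ = ξ
    rw [map_one]
    rfl
  have hTξ : T ξ ∈ K := by
    have h1 := congrArg (fun A : H →L[ℂ] H => A ξ) hTP
    have h2 : K.starProjection (T ξ) = T (K.starProjection ξ) := h1
    rw [Submodule.starProjection_eq_self_iff.2 hξ] at h2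
    exact Submodule.starProjection_eq_self_iff.1 h2
  have h3 : T ξ ∈ closure (K0 : Set H) := hTξ
  rw [Metric.mem_closure_iff] at h3
  obtain ⟨_, ⟨Q, rfl⟩, hQ⟩ := h3 ρ hρ
  refine ⟨Q, ?_⟩
  rw [dist_eq_norm] at hQ
  exact hQ.le

theorem star_pol_lamU {ι : Type} (f : FreeGroup ι →₀ ℂ) (hf : SA f) :
    star (pol (lamU ι) f : Ell (FreeGroup ι) →L[ℂ] Ell (FreeGroup ι)) = pol (lamU ι) f := by
  classical
  unfold pol
  rw [Finsupp.sum, star_sum]
  have h1 : ∀ w ∈ f.support, star (f w • (wd (lamU ι) w :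
      Ell (FreeGroup ι) →L[ℂ] Ell (FreeGroup ι))) = f w⁻¹ • wd (lamU ι) w⁻¹ := by
    intro w _
    rw [star_smul, hf w]
    congr 1
    unfold wd
    rw [map_inv]
    rfl
  rw [Finset.sum_congr rfl h1]
  refine Finset.sum_nbij' (fun w => w⁻¹) (fun w => w⁻¹) ?_ ?_ ?_ ?_ ?_
  · intro w hw
    rw [Finsupp.mem_support_iff] at hw ⊢
    rw [hf w]
    simpa using hw
  · intro w hw
    rw [Finsupp.mem_support_iff] at hw ⊢
    rw [hf w]
    simpa using hw
  · intro w _; simp
  · intro w _; simp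
  · intro w _; rfl

theorem t_VN : S_VN := by
  intro ι d F hF hc i ρ hρ
  exact vn_gen (fun j => (pol (lamU ι) (F j) : Ell (FreeGroup ι) →L[ℂ] Ell (FreeGroup ι)))
    (fun j => star_pol_lamU (F j) (hF j)) _ (hc i) (delta 1) ρ hρ

end Pool.Agent.H755R2.NG
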