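import Pool.Agent.H755R2.NG.Stubs

/-!
# VOL: balls (helper602)
-/

set_option autoImplicit false

namespace Pool.Agent.H755R2.NG

open MeasureTheory Matrix Filter Pool.Agent.H667R2.FG
open scoped Matrix.Norms.L2Operator ComplexConjugate ENNReal Pointwise

namespace VOLaux

theorem sq_cont (k : ℕ) : Continuous (sq : Vc k → ℝ) := by
  unfold sq
  fun_prop

theorem sq_smul {k : ℕ} (r : ℝ) (x : Vc k) : sq (r • x) = r ^ 2 * sq x := by
  unfold sq
  rw [Finset.mul_sum]
  refine Finset.sum_congr rfl fun p _ => ?_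
  rw [Pi.smul_apply, smul_eq_mul, mul_pow]

theorem set_eq {k : ℕ} {R : ℝ} (hR : 0 < R) :
    {x : Vc k | sq x ≤ R ^ 2} = R • {x : Vc k | sq x ≤ 1} := by
  ext x
  rw [Set.mem_smul_set_iff_inv_smul_mem₀ hR.ne', Set.mem_setOf_eq, Set.mem_setOf_eq, sq_smul,
    inv_pow, inv_mul_le_iff₀ (by positivity), mul_one]

end VOLaux

open VOLaux in
theorem t_VOL : S_VOL := by
  intro k
  refine ⟨fun R hR => ?_, ?_⟩
  · rw [set_eq hR, Measure.addHaar_smul, Module.finrank_fintype_fun_eq_card, Fintype.card_prod,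
      Fintype.card_fin, abs_of_nonneg (by positivity), ← pow_two]
  · have hcl : IsClosed {x : Vc k | sq x ≤ 1} := isClosed_le (sq_cont k) continuous_const
    have hb : {x : Vc k | sq x ≤ 1} ⊆ Metric.closedBall 0 1 := by
      intro x hx
      rw [mem_closedBall_zero_iff, pi_norm_le_iff_of_nonneg zero_le_one]
      intro p
      have h1 : x p ^ 2 ≤ sq x :=
        Finset.single_le_sum (f := fun p => x p ^ 2) (fun _ _ => sq_nonneg _) (Finset.mem_univ p)
      have h2 : x p ^ 2 ≤ 1 := h1.trans hx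
      rw [Real.norm_eq_abs]
      exact (sq_le_one_iff_abs_le_one _).1 h2
    have hc : IsCompact {x : Vc k | sq x ≤ 1} :=
      Metric.isCompact_of_isClosed_isBounded hcl (Metric.isBounded_closedBall.subset hb)
    refine ⟨?_, hc.measure_lt_top.ne, hc⟩
    have ho : IsOpen {x : Vc k | sq x < 1} := isOpen_lt (sq_cont k) continuous_const
    have hne : ({x : Vc k | sq x < 1}).Nonempty := ⟨0, by
      show sq (0 : Vc k) < 1
      unfold sq
      simp⟩
    have hpos := ho.measure_pos volume hne
    exact (lt_of_lt_of_le hpos (measure_mono fun x (hx : sq x < 1) => hx.le)).ne'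

end Pool.Agent.H755R2.NG
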