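import Mathlib
import Pool.Agent.H755R2.NG.Final
import Pool.Agent.H755R2.NG.T_CORE
import Pool.Agent.H755R2.NG.T_N
import Pool.Agent.H755R2.NG.T_CIRC
import Pool.Agent.H755R2.NG.T_DETP
import Pool.Agent.H755R2.NG.T_ROT1
import Pool.Agent.H755R2.NG.T_CONT
import Pool.Agent.H755R2.NG.T_ROT2
import Pool.Agent.H755R2.NG.T_A1
import Pool.Agent.H755R2.NG.T_A2
import Pool.Agent.H755R2.NG.T_CAY
import Pool.Agent.H755R2.NG.T_CIN
import Pool.Agent.H755R2.NG.T_CO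
import Pool.Agent.H755R2.NG.T_HM
import Pool.Agent.H755R2.NG.T_AVG
import Pool.Agent.H755R2.NG.T_DER1
import Pool.Agent.H755R2.NG.T_DER2
import Pool.Agent.H849R2.DER3
import Pool.Agent.H755R2.NG.T_DER
import Pool.Agent.H755R2.NG.T_AREA
import Pool.Agent.H755R2.NG.T_IMG
import Pool.Agent.H755R2.NG.T_VOL
import Pool.Agent.H755R2.NG.T_BZ1
import Pool.Agent.H755R2.NG.T_BZ2
import Pool.Agent.H755R2.NG.T_BZ3
import Pool.Agent.H755R2.NG.T_BZ4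
import Pool.Agent.H755R2.NG.T_BEZ
import Pool.Agent.H755R2.NG.T_MU1
import Pool.Agent.H755R2.NG.T_MU2
import Pool.Agent.H755R2.NG.T_LIP
import Pool.Agent.H755R2.NG.T_MIC
import Pool.Agent.H755R2.NG.T_REP
import Pool.Agent.H755R2.NG.T_NRM
import Pool.Agent.H755R2.NG.T_VN
import Pool.Agent.H755R2.NG.T_C1
import Pool.Agent.H755R2.NG.T_C2

namespace Pool.Agent.H755R2.NG

theorem all_ROT2 : S_ROT2 := t_ROT2 t_N t_CIRC (t_ROT1 t_DETP) t_CONT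

theorem all_A2 : S_A2 := t_A2 (t_A1 t_N t_DETP all_ROT2 t_CONT) t_CONT

theorem all_CIN : S_CIN := t_CIN t_CAY t_CO

theorem all_DER : S_DER :=
  t_DER (t_DER1 t_CAY) t_DER2 (Pool.Agent.H849R2.DER3.der3 t_CAY) t_CO t_HM

theorem all_BEZ : S_BEZ := t_BEZ t_BZ1 t_BZ2 t_BZ3 t_BZ4

theorem all_C1 : S_C1 :=
  t_C1 t_CO t_HM (t_AVG all_CIN) all_DER t_AREA t_IMG t_VOL (t_MU2 all_BEZ t_MU1) t_LIP all_CIN

theorem all_C2 : S_C2 := t_C2 t_MIC t_REP t_NRM t_VN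

theorem all_CORE : S_CORE := t_CORE all_C1 all_C2 t_CONT

end Pool.Agent.H755R2.NG
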