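import Pool.Agent.H755R2.NG.Stubs

set_option autoImplicit false

namespace Pool.Agent.H755R2.NG

open Filter Topology

theorem t_BZ4 : S_BZ4 := by
  intro m q c M _ h
  have h1 : ∀ L : ℕ, M * (L + 1) ^ m ≤ (q * L + c + m) ^ m := by
    intro L
    calc M * (L + 1) ^ m ≤ M * (L + 1).ascFactorial m :=
          Nat.mul_le_mul_left _ (Nat.pow_succ_le_ascFactorial _ _)
      _ = m.factorial * (M * (L + m).choose m) := by
          rw [Nat.ascFactorial_eq_factorial_mul_choose]; ring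
      _ ≤ m.factorial * (q * L + c + m).choose m := Nat.mul_le_mul_left _ (h L)
      _ = (q * L + c + 1).ascFactorial m := by
          rw [Nat.ascFactorial_eq_factorial_mul_choose]
      _ ≤ (q * L + c + m) ^ m := Nat.ascFactorial_le_pow_add _ _
  have h2 : ∀ L : ℕ, (M : ℝ) ≤ ((q : ℝ) + ((c : ℝ) + m - q) * (1 / ((L : ℝ) + 1))) ^ m := by
    intro L
    have hL : (0 : ℝ) < (L : ℝ) + 1 := by positivity
    have h3 : (M : ℝ) * ((L : ℝ) + 1) ^ m ≤ ((q : ℝ) * L + c + m) ^ m := by exact_mod_cast h1 L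
    have h4 : (q : ℝ) + ((c : ℝ) + m - q) * (1 / ((L : ℝ) + 1)) = ((q : ℝ) * L + c + m) / (L + 1) := by
      field_simp
      ring
    rw [h4, div_pow, le_div_iff₀ (by positivity)]
    exact h3
  have h5 : Tendsto (fun L : ℕ => ((q : ℝ) + ((c : ℝ) + m - q) * (1 / ((L : ℝ) + 1))) ^ m) atTop
      (𝓝 (((q : ℝ) + ((c : ℝ) + m - q) * 0) ^ m)) :=
    (tendsto_const_nhds.add (tendsto_const_nhds.mul tendsto_one_div_add_atTop_nhds_zero_nat)).pow m
  have h6 := ge_of_tendsto' h5 h2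
  rw [mul_zero, add_zero] at h6
  exact_mod_cast h6

end Pool.Agent.H755R2.NG
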