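import Pool.Agent.H755R2.NG.Stubs

namespace Pool.Agent.H755R2.NG

open MeasureTheory Matrix Filter Pool.Agent.H667R2.FG
open scoped Matrix.Norms.L2Operator ComplexConjugate ENNReal Topology

theorem CO_re {k : ℕ} (S : Vc k) (i j : Fin k) : (herm S i j).re = (S (i, j) + S (j, i)) / 2 := by
  unfold herm
  rw [Complex.add_re, Complex.ofReal_re, Complex.re_ofReal_mul, Complex.I_re]
  ring

theorem CO_im {k : ℕ} (S : Vc k) (i j : Fin k) : (herm S i j).im = (S (i, j) - S (j, i)) / 2 := by
  unfold herm
  rw [Complex.add_im, Complex.ofReal_im, Complex.im_ofReal_mul, Complex.I_im]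
  ring

theorem t_CO : S_CO := by
  intro k
  refine ⟨fun S => ⟨?_, ?_⟩, fun X hX => ⟨?_, ?_⟩⟩
  · ext i j
    rw [Matrix.conjTranspose_apply]
    apply Complex.ext
    · rw [Complex.star_def, Complex.conj_re, CO_re, CO_re]; ring
    · rw [Complex.star_def, Complex.conj_im, CO_im, CO_im]; ring
  · funext p
    unfold co
    rw [CO_re, CO_im]
    simp only [Prod.mk.eta]
    ring
  · have hX' : ∀ i j, X j i = conj (X i j) := by
      intro i j
      have := congrFun (congrFun hX j) i
      rw [Matrix.conjTranspose_apply] at this
      exact this.symm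
    ext i j
    apply Complex.ext
    · rw [CO_re]
      unfold co
      simp only [hX' i j, Complex.conj_re, Complex.conj_im]
      ring
    · rw [CO_im]
      unfold co
      simp only [hX' i j, Complex.conj_re, Complex.conj_im]
      ring
  · have hX' : ∀ i j, X j i = conj (X i j) := by
      intro i j
      have := congrFun (congrFun hX j) i
      rw [Matrix.conjTranspose_apply] at this
      exact this.symm
    have hS : 0 ≤ ∑ i, ∑ j, ‖X i j‖ ^ 2 := Finset.sum_nonneg fun _ _ => Finset.sum_nonneg fun _ _ => by positivity
    have h1 : sq (co X) = ∑ i, ∑ j, ‖X i j‖ ^ 2 + 2 * ∑ i, ∑ j, (X i j).re * (X i j).im := by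
      unfold sq co
      rw [Fintype.sum_prod_type, Finset.mul_sum, ← Finset.sum_add_distrib]
      apply Finset.sum_congr rfl
      intro i _
      rw [Finset.mul_sum, ← Finset.sum_add_distrib]
      apply Finset.sum_congr rfl
      intro j _
      rw [← Complex.normSq_eq_norm_sq, Complex.normSq_apply]
      ring
    have h2 : ∑ i, ∑ j, (X i j).re * (X i j).im = 0 := by
      have h3 : ∑ i, ∑ j, (X i j).re * (X i j).im = ∑ i, ∑ j, -((X i j).re * (X i j).im) := by
        conv_lhs => rw [Finset.sum_comm]
        apply Finset.sum_congr rfl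
        intro i _
        apply Finset.sum_congr rfl
        intro j _
        rw [hX' i j, Complex.conj_re, Complex.conj_im]
        ring
      simp only [Finset.sum_neg_distrib] at h3
      linarith
    rw [h1, h2, mul_zero, add_zero]
    unfold hs
    rw [Real.sq_sqrt (by positivity)]
    rcases Nat.eq_zero_or_pos k with hk | hk
    · subst hk
      simp
    · have : (k : ℝ) ≠ 0 := by exact_mod_cast hk.ne'
      rw [← mul_assoc, mul_inv_cancel₀ this, one_mul]

end Pool.Agent.H755R2.NG
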